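import Mathlib
import Pool.Agent.D8W.Defs
import Pool.Agent.RV15W.BasE

/-!
# D8M/LE: the logarithm `lE q = Σ log (1 - q^(n+1))` of the Euler product

* `‖log (1 - w)‖ ≤ ‖w‖/(1 - ‖w‖)` (`Complex.norm_log_one_add_le` and variants, or `-log(1-‖w‖)`), so the series converges
  normally on `‖q‖ ≤ r < 1`; every term is holomorphic on the unit disc (`1 - q^(n+1)` has positive real part):
  `differentiableOn_tsum_of_summable_norm`.
* `exp (Σ log u_n) = Π u_n` (`Complex.cexp_tsum_eq_tprod` or `HasSum`/`HasProd` by continuity of `exp`).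
* conjugation: `Complex.log_conj` (argument `≠ π` since the real part is positive), `Complex.conj_tsum`.
-/

set_option autoImplicit false

open MeasureTheory Set Filter

namespace D8M

open D8W RV15W

/-- the elementary bound of the logarithm -/
private theorem le_log {w : ℂ} (hw : ‖w‖ < 1) : ‖Complex.log (1 - w)‖ ≤ ‖w‖ / (1 - ‖w‖) := by
  have h1 := Complex.hasSum_taylorSeries_neg_log hw
  have h2 : HasSum (fun n : ℕ => ‖w‖ ^ n - if n = 0 then 1 else 0) ((1 - ‖w‖)⁻¹ - 1) := by
    refine (hasSum_geometric_of_lt_one (norm_nonneg w) hw).sub ?_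
    exact hasSum_ite_eq 0 1
  have h3 : ‖-Complex.log (1 - w)‖ ≤ (1 - ‖w‖)⁻¹ - 1 := by
    rw [← h1.tsum_eq, ← h2.tsum_eq]
    refine tsum_of_norm_bounded h2.summable.hasSum ?_
    intro n
    rcases Nat.eq_zero_or_pos n with h0 | h0
    · subst h0
      simp
    · have h5 : n ≠ 0 := by omega
      simp only [h5, if_false, sub_zero, norm_div, norm_pow, Complex.norm_natCast]
      have h6 : (1 : ℝ) ≤ n := by exact_mod_cast h0
      exact div_le_self (by positivity) h6
  rw [norm_neg] at h3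
  refine h3.trans (le_of_eq ?_)
  have : 1 - ‖w‖ ≠ 0 := by linarith
  field_simp
  ring

private theorem pow_lt {q : ℂ} (hq : ‖q‖ < 1) (n : ℕ) : ‖q ^ (n + 1)‖ < 1 := by
  rw [norm_pow]
  exact pow_lt_one₀ (norm_nonneg _) hq (Nat.succ_ne_zero n)

private theorem term_le {q : ℂ} {r : ℝ} (hqr : ‖q‖ ≤ r) (hr : r < 1) (n : ℕ) :
    ‖Complex.log (1 - q ^ (n + 1))‖ ≤ r / (1 - r) * r ^ n := by
  have hq : ‖q‖ < 1 := lt_of_le_of_lt hqr hr
  have hr0 : 0 ≤ r := (norm_nonneg _).trans hqr
  have h1 := le_log (pow_lt hq n)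
  have h2 : ‖q ^ (n + 1)‖ ≤ r ^ (n + 1) := by
    rw [norm_pow]
    exact pow_le_pow_left₀ (norm_nonneg _) hqr _
  have h3 : ‖q ^ (n + 1)‖ ≤ r := by
    refine h2.trans ?_
    rw [pow_succ]
    have : r ^ n ≤ 1 := pow_le_one₀ hr0 hr.le
    nlinarith
  refine h1.trans ?_
  have h4 : 0 < 1 - r := by linarith
  calc ‖q ^ (n + 1)‖ / (1 - ‖q ^ (n + 1)‖) ≤ r ^ (n + 1) / (1 - r) := by
        apply div_le_div₀ (by positivity) h2 h4
        linarith
    _ = r / (1 - r) * r ^ n := by
        rw [pow_succ]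
        ring

private theorem sum_geo {r : ℝ} (hr0 : 0 ≤ r) (hr : r < 1) :
    HasSum (fun n : ℕ => r / (1 - r) * r ^ n) (r / (1 - r) ^ 2) := by
  have h := (hasSum_geometric_of_lt_one hr0 hr).mul_left (r / (1 - r))
  have h1 : r / (1 - r) * (1 - r)⁻¹ = r / (1 - r) ^ 2 := by
    have : 1 - r ≠ 0 := by linarith
    field_simp
  rw [h1] at h
  exact h

private theorem re_pos {q : ℂ} (hq : ‖q‖ < 1) (n : ℕ) : 0 < (1 - q ^ (n + 1)).re := by
  have h1 := pow_lt hq n
  have h2 := Complex.re_le_norm (q ^ (n + 1))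
  rw [Complex.sub_re, Complex.one_re]
  linarith

private theorem summ {q : ℂ} (hq : ‖q‖ < 1) :
    Summable fun n : ℕ => Complex.log (1 - q ^ (n + 1)) :=
  Summable.of_norm_bounded (sum_geo (norm_nonneg q) hq).summable (term_le le_rfl hq)

theorem lE_diff : DifferentiableOn ℂ lE (Metric.ball 0 1) := by
  intro q hq
  have hq1 : ‖q‖ < 1 := by simpa using hq
  obtain ⟨r, hr1, hr2⟩ := exists_between hq1
  have hr0 : 0 ≤ r := (norm_nonneg _).trans hr1.le
  have h : DifferentiableOn ℂ (fun q : ℂ => ∑' n : ℕ, Complex.log (1 - q ^ (n + 1)))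
      (Metric.ball 0 r) := by
    refine Complex.differentiableOn_tsum_of_summable_norm (sum_geo hr0 hr2).summable ?_
      Metric.isOpen_ball ?_
    · intro n w hw
      have hw1 : ‖w‖ < r := by simpa using hw
      refine DifferentiableAt.differentiableWithinAt ?_
      refine DifferentiableAt.clog (by fun_prop) ?_
      exact Or.inl (re_pos (hw1.trans hr2) n)
    · intro n w hw
      have hw1 : ‖w‖ < r := by simpa using hw
      exact term_le hw1.le hr2 n
  have h2 : q ∈ Metric.ball (0 : ℂ) r := by simpa using hr1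
  exact ((h.differentiableAt (Metric.isOpen_ball.mem_nhds h2))).differentiableWithinAt

theorem exp_lE {q : ℂ} (hq : ‖q‖ < 1) : Complex.exp (lE q) = Eu q := by
  unfold lE Eu
  refine Complex.cexp_tsum_eq_tprod ?_ (summ hq)
  intro n h
  have := re_pos hq n
  rw [h] at this
  simp at this

theorem lE_conj {q : ℂ} (hq : ‖q‖ < 1) : lE (starRingEnd ℂ q) = starRingEnd ℂ (lE q) := by
  unfold lE
  rw [Complex.conj_tsum]
  refine tsum_congr fun n => ?_
  rw [← Complex.log_conj]
  · simp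
  · intro h
    have h1 := re_pos hq n
    rw [Complex.arg_eq_pi_iff] at h
    linarith [h.1]

theorem lE_bound {q : ℂ} (hq : ‖q‖ < 1) : ‖lE q‖ ≤ ‖q‖ / (1 - ‖q‖) ^ 2 := by
  unfold lE
  exact tsum_of_norm_bounded (sum_geo (norm_nonneg q) hq) (term_le le_rfl hq)

end D8M
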