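import Mathlib
import Pool.Agent.D8W.Defs
import Pool.Agent.RV15W.Bas
import Pool.Agent.RV15W.Alg
import Pool.Agent.D8M.LE

/-!
# D8M/LD: derivative of `l`

`exp (lE q) = Eu q` gives `lE' = Eu'/Eu`, so `24 qd lE = PP - 1` (`PP = 1 + 24 qd Eu/Eu`); then, with `q' = qq τ`,
`d/dτ lE(q^n) = 2π i n (PP(q^n) - 1)/24` and
`l' = (π i/2)(2 PP(q²) + 3 PP(q³) - PP(q) - 6 PP(q⁶)) = π i (x² - 2 z²)`, `x = ca q`, `z = ca (q²)`,
by `RV15W.P3` at `q` and at `q²` (note `(q²)³ = q⁶`): `3 PP(q³) = 2x² + PP(q)`, `3 PP(q⁶) = 2z² + PP(q²)`.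
-/

set_option autoImplicit false

open MeasureTheory Set Filter

namespace D8M

open D8W RV15W

theorem qd_lE {q : ℂ} (hq : ‖q‖ < 1) : 24 * qd lE q = PP q - 1 := by
  have hd : DifferentiableAt ℂ lE q := lE_diff.differentiableAt (Metric.isOpen_ball.mem_nhds (by simpa using hq))
  have h1 : HasDerivAt (fun r => Complex.exp (lE r)) (Complex.exp (lE q) * deriv lE q) q :=
    hd.hasDerivAt.cexp
  have h2 : (fun r => Complex.exp (lE r)) =ᶠ[nhds q] Eu := by
    filter_upwards [Metric.isOpen_ball.mem_nhds (show q ∈ Metric.ball (0 : ℂ) 1 by simpa using hq)] with r hr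
    exact exp_lE (by simpa using hr)
  have h3 : deriv Eu q = Eu q * deriv lE q := by
    rw [← h2.deriv_eq, h1.deriv, exp_lE hq]
  have h0 : Eu q ≠ 0 := by
    rw [← exp_lE hq]; exact Complex.exp_ne_zero _
  unfold PP qd
  rw [h3]
  field_simp
  ring

private theorem LD_qq_norm {τ : ℂ} (h : 0 < τ.im) : ‖qq τ‖ < 1 := by
  unfold qq
  rw [Complex.norm_exp, Real.exp_lt_one_iff]
  have : (2 * (Real.pi : ℂ) * Complex.I * τ).re = -(2 * Real.pi * τ.im) := by
    simp [Complex.mul_re, Complex.mul_im]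
  rw [this]
  have := Real.pi_pos
  have : 0 < 2 * Real.pi * τ.im := by positivity
  linarith

private theorem LD_qq_deriv (τ : ℂ) : HasDerivAt qq (2 * Real.pi * Complex.I * qq τ) τ := by
  unfold qq
  have h := ((hasDerivAt_id τ).const_mul (2 * (Real.pi : ℂ) * Complex.I)).cexp
  simp only [id, mul_one] at h
  exact h.congr_deriv (by ring)

private theorem LD_diffAt {q : ℂ} (hq : ‖q‖ < 1) : DifferentiableAt ℂ lE q :=
  lE_diff.differentiableAt (Metric.isOpen_ball.mem_nhds (by simpa using hq))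

private theorem LD_pow {τ : ℂ} (h : 0 < τ.im) (n : ℕ) (hn : 1 ≤ n) :
    HasDerivAt (fun t => lE (qq t ^ n)) (2 * Real.pi * Complex.I * n * ((PP (qq τ ^ n) - 1) / 24)) τ := by
  have hq := LD_qq_norm h
  have hqn : ‖qq τ ^ n‖ < 1 := by
    rw [norm_pow]
    exact pow_lt_one₀ (norm_nonneg _) hq (by omega)
  have h1 := (LD_qq_deriv τ).fun_pow n
  have h2 := (LD_diffAt hqn).hasDerivAt.comp τ h1
  have h3 := qd_lE hqn
  unfold qd at h3
  refine h2.congr_deriv ?_
  rw [← h3]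
  have h4 : qq τ ^ n = qq τ ^ (n - 1) * qq τ := by
    rw [← pow_succ]; congr 1; omega
  generalize hD : deriv lE (qq τ ^ n) = D
  rw [h4]
  ring

theorem l_deriv {τ : ℂ} (h : 0 < τ.im) :
    HasDerivAt l (Real.pi * Complex.I * (ca (qq τ) ^ 2 - 2 * ca (qq τ ^ 2) ^ 2)) τ := by
  have hq := LD_qq_norm h
  have hq2 : ‖qq τ ^ 2‖ < 1 := by
    rw [norm_pow]
    exact pow_lt_one₀ (norm_nonneg _) hq (by norm_num)
  have e1 := LD_pow h 1 le_rfl
  simp only [pow_one] at e1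
  have e2 := LD_pow h 2 (by norm_num)
  have e3 := LD_pow h 3 (by norm_num)
  have e6 := LD_pow h 6 (by norm_num)
  have p1 := P3 hq
  have p2 := P3 hq2
  rw [← pow_mul, show 2 * 3 = 6 by norm_num] at p2
  have hl : HasDerivAt l (-(Real.pi * Complex.I * 1) +
      6 * (2 * Real.pi * Complex.I * (2 : ℕ) * ((PP (qq τ ^ 2) - 1) / 24) +
        2 * Real.pi * Complex.I * (3 : ℕ) * ((PP (qq τ ^ 3) - 1) / 24) -
        2 * Real.pi * Complex.I * (1 : ℕ) * ((PP (qq τ) - 1) / 24) -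
        2 * Real.pi * Complex.I * (6 : ℕ) * ((PP (qq τ ^ 6) - 1) / 24))) τ := by
    unfold l
    exact ((hasDerivAt_id' τ).const_mul _).neg.add ((((e2.add e3).sub e1).sub e6).const_mul 6)
  refine hl.congr_deriv ?_
  push_cast
  linear_combination (Real.pi * Complex.I / 2) * p1 - (Real.pi * Complex.I) * p2

end D8M
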