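import Mathlib
import Pool.Agent.D8W.Defs
import Pool.Agent.RV15W.BasE
import Pool.Agent.D8M.LE

/-!
# D8M/LX: `exp (2 l) · al de = be ga`, the conjugation symmetry of `l`, and the size of `q`

* `exp (2l) = q^(-1) (E(q²)E(q³)/(E(q)E(q⁶)))^12` (`exp_lE`), and
  `be ga = 3 E3^7 E2^7/(E1^5 E6^5)`, `al de = 3 q E1^7 E6^7/(E2^5 E3^5)`, `E n = Eu (q^n) ≠ 0` (`Eu_ne`).
* `l (pt (-x) y) = conj (l (pt x y))`: `qq (pt (-x) y) = conj (qq (pt x y))` and `lE_conj`.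
* `‖qq τ‖ = exp (-2π Im τ)`; `exp (-2π y0) ≤ 23/100` with `y0 = √2/6` (`2π√2/6 ≥ 1.4809`, `exp 1.4809 ≥ 4.35`);
  `exp (-2π) ≤ 1/500`.
-/

set_option autoImplicit false

open MeasureTheory Set Filter

namespace D8M

open D8W RV15W

theorem qq_norm (τ : ℂ) : ‖qq τ‖ = Real.exp (-(2 * Real.pi * τ.im)) := by
  unfold qq
  rw [Complex.norm_exp]
  congr 1
  simp

theorem LX_lt {τ : ℂ} (h : 0 < τ.im) : ‖qq τ‖ < 1 := by
  rw [qq_norm, Real.exp_lt_one_iff]
  have := Real.pi_pos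
  have h2 : 0 < 2 * Real.pi * τ.im := by positivity
  linarith

theorem LX_pow {q : ℂ} (hq : ‖q‖ < 1) {n : ℕ} (hn : n ≠ 0) : ‖q ^ n‖ < 1 := by
  rw [norm_pow]
  exact pow_lt_one₀ (norm_nonneg _) hq hn

theorem exp_l {τ : ℂ} (h : 0 < τ.im) :
    Complex.exp (2 * l τ) * (al (qq τ) * de (qq τ)) = be (qq τ) * ga (qq τ) := by
  have hq := LX_lt h
  have hq2 := LX_pow hq (n := 2) (by norm_num)
  have hq3 := LX_pow hq (n := 3) (by norm_num)
  have hq6 := LX_pow hq (n := 6) (by norm_num)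
  have n1 := Eu_ne hq
  have n2 := Eu_ne hq2
  have n3 := Eu_ne hq3
  have n6 := Eu_ne hq6
  have hq0 : qq τ ≠ 0 := by unfold qq; exact Complex.exp_ne_zero _
  have e0 : Complex.exp (2 * l τ) = (qq τ)⁻¹ *
      (Eu (qq τ ^ 2) ^ 12 * Eu (qq τ ^ 3) ^ 12 * (Eu (qq τ) ^ 12)⁻¹ * (Eu (qq τ ^ 6) ^ 12)⁻¹) := by
    have e1 : 2 * l τ = -(2 * Real.pi * Complex.I * τ) + (((12 : ℕ) : ℂ) * lE (qq τ ^ 2) +
        ((12 : ℕ) : ℂ) * lE (qq τ ^ 3) + -(((12 : ℕ) : ℂ) * lE (qq τ)) +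
          -(((12 : ℕ) : ℂ) * lE (qq τ ^ 6))) := by
      unfold l
      push_cast
      ring
    rw [e1, Complex.exp_add, Complex.exp_add, Complex.exp_add, Complex.exp_add, Complex.exp_neg,
      Complex.exp_neg, Complex.exp_neg, Complex.exp_nat_mul, Complex.exp_nat_mul,
      Complex.exp_nat_mul, Complex.exp_nat_mul, exp_lE hq, exp_lE hq2, exp_lE hq3, exp_lE hq6]
    rfl
  rw [e0]
  unfold al de be ga
  generalize Eu (qq τ) = a at *
  generalize Eu (qq τ ^ 2) = b at *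
  generalize Eu (qq τ ^ 3) = c at *
  generalize Eu (qq τ ^ 6) = d at *
  generalize qq τ = q at *
  field_simp

theorem l_conj (x : ℝ) {y : ℝ} (hy : 0 < y) : l (pt (-x) y) = starRingEnd ℂ (l (pt x y)) := by
  have him : 0 < (pt x y).im := by simpa [pt] using hy
  have hq := LX_lt him
  have hqq : qq (pt (-x) y) = starRingEnd ℂ (qq (pt x y)) := by
    unfold qq
    rw [← Complex.exp_conj]
    congr 1
    simp only [pt, map_mul, map_add, Complex.conj_I, Complex.conj_ofReal, map_ofNat]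
    push_cast
    ring
  have hp : ∀ n : ℕ, (starRingEnd ℂ (qq (pt x y))) ^ n = starRingEnd ℂ (qq (pt x y) ^ n) := by
    intro n
    rw [map_pow]
  have h0 : -(Real.pi * Complex.I * pt (-x) y) =
      starRingEnd ℂ (-(Real.pi * Complex.I * pt x y)) := by
    simp only [pt, map_mul, map_add, map_neg, Complex.conj_I, Complex.conj_ofReal]
    push_cast
    ring
  unfold l
  rw [hqq, h0, hp, hp, hp, lE_conj hq, lE_conj (LX_pow hq (n := 2) (by norm_num)),
    lE_conj (LX_pow hq (n := 3) (by norm_num)), lE_conj (LX_pow hq (n := 6) (by norm_num))]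
  simp only [map_add, map_sub, map_mul, map_ofNat]

theorem exp_y0 : Real.exp (-(2 * Real.pi * y0)) ≤ 23 / 100 := by
  have h2 : (1.4142 : ℝ) ≤ Real.sqrt 2 := Real.le_sqrt_of_sq_le (by norm_num)
  have hpi : (3.1415 : ℝ) < Real.pi := Real.pi_gt_d4
  have h1 : (1.48 : ℝ) ≤ 2 * Real.pi * y0 := by
    unfold y0
    nlinarith
  have he : (100 / 23 : ℝ) ≤ Real.exp (2 * Real.pi * y0) := by
    have e1 : Real.exp 1.48 = Real.exp 1 * Real.exp 0.24 ^ 2 := by
      rw [← Real.exp_nat_mul, ← Real.exp_add]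
      norm_num
    have e2 : (1.2688 : ℝ) ≤ Real.exp 0.24 := by
      have := Real.quadratic_le_exp_of_nonneg (x := 0.24) (by norm_num)
      linarith
    have e3 : (2.7182 : ℝ) ≤ Real.exp 1 := by
      have := Real.exp_one_gt_d9
      linarith
    have e4 : (1.2688 : ℝ) ^ 2 ≤ Real.exp 0.24 ^ 2 := pow_le_pow_left₀ (by norm_num) e2 2
    have e5 : (2.7182 : ℝ) * 1.2688 ^ 2 ≤ Real.exp 1.48 := by
      rw [e1]
      exact mul_le_mul e3 e4 (by norm_num) (Real.exp_pos _).le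
    have e6 : Real.exp 1.48 ≤ Real.exp (2 * Real.pi * y0) := Real.exp_le_exp.2 h1
    have e7 : (100 / 23 : ℝ) ≤ (2.7182 : ℝ) * 1.2688 ^ 2 := by norm_num
    exact e7.trans (e5.trans e6)
  rw [Real.exp_neg]
  rw [inv_le_comm₀ (Real.exp_pos _) (by norm_num)]
  have : ((23 : ℝ) / 100)⁻¹ = 100 / 23 := by norm_num
  rw [this]
  exact he

theorem exp_one : Real.exp (-(2 * Real.pi * 1)) ≤ 1 / 500 := by
  have hpi : (3.1415 : ℝ) < Real.pi := Real.pi_gt_d4
  have h1 : (6.28 : ℝ) ≤ 2 * Real.pi * 1 := by linarith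
  have he : (500 : ℝ) ≤ Real.exp (2 * Real.pi * 1) := by
    have e1 : Real.exp 6.28 = Real.exp 1 ^ 6 * Real.exp 0.28 := by
      rw [← Real.exp_nat_mul, ← Real.exp_add]
      norm_num
    have e2 : (1.3 : ℝ) ≤ Real.exp 0.28 := by
      have := Real.quadratic_le_exp_of_nonneg (x := 0.28) (by norm_num)
      linarith
    have e3 : (2.7182 : ℝ) ≤ Real.exp 1 := by
      have := Real.exp_one_gt_d9
      linarith
    have e4 : (2.7182 : ℝ) ^ 6 ≤ Real.exp 1 ^ 6 := pow_le_pow_left₀ (by norm_num) e3 6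
    have e5 : (2.7182 : ℝ) ^ 6 * 1.3 ≤ Real.exp 6.28 := by
      rw [e1]
      exact mul_le_mul e4 e2 (by norm_num) (by positivity)
    have e6 : Real.exp 6.28 ≤ Real.exp (2 * Real.pi * 1) := Real.exp_le_exp.2 h1
    have e7 : (500 : ℝ) ≤ (2.7182 : ℝ) ^ 6 * 1.3 := by norm_num
    exact e7.trans (e5.trans e6)
  rw [Real.exp_neg]
  rw [inv_le_comm₀ (Real.exp_pos _) (by norm_num)]
  have : ((1 : ℝ) / 500)⁻¹ = 500 := by norm_num
  rw [this]
  exact he

end D8M
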