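import Mathlib
import Pool.Agent.D8W.Defs
import Pool.Agent.D8M.LE
import Pool.Agent.D8M.LX

/-!
# D8M/LF: size of `l τ + π i τ = 6 (lE(q²) + lE(q³) - lE(q) - lE(q⁶))`

By `lE_bound`: for `Im τ ≥ 1` `‖q‖ ≤ 1/500` (`qq_norm`, `exp_one`), so the norm is `≤ 6 · (1/500) · 1.02 ≤ 1/20`;
at `τ = 1/3 + i y0`, `‖q‖ ≤ 23/100`: `6 (0.388 + 0.059 + 0.0126 + 0.0002) ≤ 2.8`.
-/

set_option autoImplicit false

open MeasureTheory Set Filter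

namespace D8M

open D8W RV15W

private theorem lf_bd {r : ℝ} {q : ℂ} (hq : ‖q‖ ≤ r) (hr : r < 1) :
    ‖lE q‖ ≤ r / (1 - r) ^ 2 := by
  refine (lE_bound (lt_of_le_of_lt hq hr)).trans ?_
  have h0 : 0 ≤ ‖q‖ := norm_nonneg q
  have h1 : 0 < 1 - r := by linarith
  have h2 : 1 - r ≤ 1 - ‖q‖ := by linarith
  have h3 : 0 ≤ r := h0.trans hq
  gcongr

private theorem lf_all {r : ℝ} {τ : ℂ} (h : ‖qq τ‖ ≤ r) (hr : r < 1) :
    ‖l τ + Real.pi * Complex.I * τ‖ ≤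
      6 * (r ^ 2 / (1 - r ^ 2) ^ 2 + r ^ 3 / (1 - r ^ 3) ^ 2 + r / (1 - r) ^ 2 +
        r ^ 6 / (1 - r ^ 6) ^ 2) := by
  have hr0 : 0 ≤ r := (norm_nonneg _).trans h
  have hp : ∀ n : ℕ, n ≠ 0 → ‖lE (qq τ ^ n)‖ ≤ r ^ n / (1 - r ^ n) ^ 2 := by
    intro n hn
    refine lf_bd ?_ (pow_lt_one₀ hr0 hr hn)
    rw [norm_pow]
    exact pow_le_pow_left₀ (norm_nonneg _) h n
  have e : l τ + Real.pi * Complex.I * τ =
      6 * (lE (qq τ ^ 2) + lE (qq τ ^ 3) - lE (qq τ) - lE (qq τ ^ 6)) := by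
    unfold l
    ring
  rw [e, norm_mul]
  have h6 : ‖(6 : ℂ)‖ = 6 := by simp
  rw [h6]
  have h1 : ‖lE (qq τ)‖ ≤ r / (1 - r) ^ 2 := lf_bd h hr
  have h2 := hp 2 (by norm_num)
  have h3 := hp 3 (by norm_num)
  have h4 := hp 6 (by norm_num)
  have h5 : ‖lE (qq τ ^ 2) + lE (qq τ ^ 3) - lE (qq τ) - lE (qq τ ^ 6)‖ ≤
      ‖lE (qq τ ^ 2)‖ + ‖lE (qq τ ^ 3)‖ + ‖lE (qq τ)‖ + ‖lE (qq τ ^ 6)‖ := by
    refine (norm_sub_le _ _).trans ?_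
    refine add_le_add ?_ le_rfl
    refine (norm_sub_le _ _).trans ?_
    exact add_le_add (norm_add_le _ _) le_rfl
  have : ‖lE (qq τ ^ 2) + lE (qq τ ^ 3) - lE (qq τ) - lE (qq τ ^ 6)‖ ≤
      r ^ 2 / (1 - r ^ 2) ^ 2 + r ^ 3 / (1 - r ^ 3) ^ 2 + r / (1 - r) ^ 2 +
        r ^ 6 / (1 - r ^ 6) ^ 2 := by linarith
  linarith

theorem l_far {τ : ℂ} (h : 1 ≤ τ.im) : ‖l τ + Real.pi * Complex.I * τ‖ ≤ 1 / 20 := by
  have hq : ‖qq τ‖ ≤ 1 / 500 := by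
    rw [qq_norm]
    refine le_trans ?_ exp_one
    apply Real.exp_le_exp.mpr
    have := Real.pi_pos
    nlinarith
  refine (lf_all hq (by norm_num)).trans ?_
  norm_num

theorem l_near {τ : ℂ} (h : y0 ≤ τ.im) : ‖l τ + Real.pi * Complex.I * τ‖ ≤ 14 / 5 := by
  have hq : ‖qq τ‖ ≤ 23 / 100 := by
    rw [qq_norm]
    refine le_trans ?_ exp_y0
    apply Real.exp_le_exp.mpr
    have := Real.pi_pos
    nlinarith
  refine (lf_all hq (by norm_num)).trans ?_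
  norm_num

end D8M
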