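import Mathlib
import Pool.Agent.D8W.Defs
import Pool.Agent.RV15W.BasA

/-!
# D8M/LN: `ca q = 1 + 6 q + O(q³)`

Seven vectors have `N(v) = m² + mn + n² ≤ 1` (`(0,0)`: `0`; `±(1,0), ±(0,1), ±(1,-1)`: `1`), all others have `N(v) ≥ 3`.
Hence `‖ca q - 1 - 6q‖ ≤ Σ' ‖q‖^N(v) ≤ ‖q‖³ Σ' r^(N(v)-3)`, `r = 23/100`, the sum over the other vectors
(true value of the last sum `7.42`, so `15` is generous). The vectors with `|m|,|n| ≤ 2` are done by hand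
(`6 r³ + 6 r⁴ + 4 r⁷ + 2 r¹²`), and for the rest `N(v) ≥ |m| + |n| + 2`.
-/

set_option autoImplicit false

open MeasureTheory Set Filter

namespace D8M

open D8W RV15W

/-- the box -/
private noncomputable def LN_s : Finset (ℤ × ℤ) := Finset.Icc (-2) 2 ×ˢ Finset.Icc (-2) 2

private theorem LN_Icc : Finset.Icc (-2 : ℤ) 2 = {-2, -1, 0, 1, 2} := by decide

private theorem LN_box (q : ℂ) :
    ∑ v ∈ LN_s, q ^ (v.1 ^ 2 + v.1 * v.2 + v.2 ^ 2)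
      = 1 + 6 * q + (6 * q ^ 3 + 6 * q ^ 4 + 4 * q ^ 7 + 2 * q ^ 12) := by
  have h3 : q ^ (3 : ℤ) = q ^ 3 := zpow_natCast q 3
  have h4 : q ^ (4 : ℤ) = q ^ 4 := zpow_natCast q 4
  have h7 : q ^ (7 : ℤ) = q ^ 7 := zpow_natCast q 7
  have h12 : q ^ (12 : ℤ) = q ^ 12 := zpow_natCast q 12
  unfold LN_s
  rw [Finset.sum_product, LN_Icc]
  norm_num
  ring

private theorem LN_boxR {s : ℝ} :
    ∑ v ∈ LN_s, s ^ v.1.natAbs * s ^ v.2.natAbs = (1 + 2 * s + 2 * s ^ 2) ^ 2 := by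
  unfold LN_s
  rw [Finset.sum_product, LN_Icc]
  norm_num
  ring

private theorem LN_sumZ {s : ℝ} (h0 : 0 ≤ s) (h1 : s < 1) :
    HasSum (fun m : ℤ => s ^ m.natAbs) ((1 - s)⁻¹ + s * (1 - s)⁻¹) := by
  have h2 := hasSum_geometric_of_lt_one h0 h1
  refine HasSum.of_nat_of_neg_add_one (f := fun m : ℤ => s ^ m.natAbs) (by simpa using h2) ?_
  have h3 := h2.mul_left s
  have h4 : (fun n : ℕ => s ^ (-((n : ℤ) + 1)).natAbs) = fun n : ℕ => s * s ^ n := by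
    funext n
    have : (-((n : ℤ) + 1)).natAbs = n + 1 := by omega
    rw [this, pow_succ]
    ring
  rw [h4]
  exact h3

private theorem LN_sumZZ {s : ℝ} (h0 : 0 ≤ s) (h1 : s < 1) :
    HasSum (fun v : ℤ × ℤ => s ^ v.1.natAbs * s ^ v.2.natAbs)
      (((1 - s)⁻¹ + s * (1 - s)⁻¹) * ((1 - s)⁻¹ + s * (1 - s)⁻¹)) := by
  have h := LN_sumZ h0 h1
  refine h.mul h ?_
  exact h.summable.mul_of_nonneg h.summable (fun _ => by positivity) (fun _ => by positivity)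

private theorem LN_out (m n : ℤ) (h : (m, n) ∉ LN_s) :
    (m.natAbs : ℤ) + n.natAbs + 2 ≤ m ^ 2 + m * n + n ^ 2 := by
  have h' : ¬ ((-2 ≤ m ∧ m ≤ 2) ∧ (-2 ≤ n ∧ n ≤ 2)) := by
    intro h2
    apply h
    unfold LN_s
    simp only [Finset.mem_product, Finset.mem_Icc]
    exact h2
  have key : ∀ a b : ℤ, 3 ≤ a → |b| ≤ a → a + |b| + 2 ≤ a ^ 2 + a * b + b ^ 2 := by
    intro a b ha hb
    rcases abs_cases b with ⟨h1, h2⟩ | ⟨h1, h2⟩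
    · rw [h1]; nlinarith
    · rw [h1]; rw [h1] at hb; nlinarith [sq_nonneg (a + 2 * b), sq_nonneg (a + 2 * b - 1)]
  rw [Int.natCast_natAbs, Int.natCast_natAbs]
  rcases le_total |n| |m| with h1 | h1
  · have h3 : 3 ≤ |m| := by
      by_contra hc
      apply h'
      have hm : |m| ≤ 2 := by omega
      have hn : |n| ≤ 2 := by omega
      exact ⟨abs_le.1 hm, abs_le.1 hn⟩
    rcases abs_cases m with ⟨h4, h5⟩ | ⟨h4, h5⟩
    · have := key m n (by omega) (by omega)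
      rw [h4]; linarith
    · have := key (-m) (-n) (by omega) (by rw [abs_neg]; omega)
      rw [abs_neg] at this
      rw [h4]; nlinarith
  · have h3 : 3 ≤ |n| := by
      by_contra hc
      apply h'
      have hm : |m| ≤ 2 := by omega
      have hn : |n| ≤ 2 := by omega
      exact ⟨abs_le.1 hm, abs_le.1 hn⟩
    rcases abs_cases n with ⟨h4, h5⟩ | ⟨h4, h5⟩
    · have := key n m (by omega) (by omega)
      rw [h4]; nlinarith
    · have := key (-n) (-m) (by omega) (by rw [abs_neg]; omega)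
      rw [abs_neg] at this
      rw [h4]; nlinarith

theorem ca_near {q : ℂ} (hq : ‖q‖ ≤ 23 / 100) : ‖ca q - 1 - 6 * q‖ ≤ 15 * ‖q‖ ^ 3 := by
  have hq1 : ‖q‖ < 1 := lt_of_le_of_lt hq (by norm_num)
  have hs := ca_summable hq1
  have hs' : Summable fun v : ℤ × ℤ => q ^ (v.1 ^ 2 + v.1 * v.2 + v.2 ^ 2) := hs.of_norm
  have h1 : ca q = (1 + 6 * q + (6 * q ^ 3 + 6 * q ^ 4 + 4 * q ^ 7 + 2 * q ^ 12))
      + ∑' v : ↥((LN_s : Set (ℤ × ℤ))ᶜ), q ^ (v.1.1 ^ 2 + v.1.1 * v.1.2 + v.1.2 ^ 2) := by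
    rw [← LN_box q]
    exact (hs'.sum_add_tsum_compl (s := LN_s)).symm
  set r : ℝ := 23 / 100 with hr
  have hZ := LN_sumZZ (s := r) (by norm_num) (by norm_num)
  have hZ2 := hZ.summable.sum_add_tsum_compl (s := LN_s)
  rw [hZ.tsum_eq, LN_boxR] at hZ2
  have hsub : Summable fun v : ↥((LN_s : Set (ℤ × ℤ))ᶜ) => r ^ v.1.1.natAbs * r ^ v.1.2.natAbs :=
    hZ.summable.subtype _
  have hterm : ∀ v : ↥((LN_s : Set (ℤ × ℤ))ᶜ), ‖q ^ (v.1.1 ^ 2 + v.1.1 * v.1.2 + v.1.2 ^ 2)‖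
      ≤ (‖q‖ ^ 3 * r⁻¹) * (r ^ v.1.1.natAbs * r ^ v.1.2.natAbs) := by
    rintro ⟨⟨m, n⟩, hv⟩
    have hv' : (m, n) ∉ LN_s := by simpa using hv
    have h2 := LN_out m n hv'
    have h2' : 3 ≤ (m.natAbs : ℤ) + n.natAbs := by
      by_contra hc
      apply hv'
      unfold LN_s
      simp only [Finset.mem_product, Finset.mem_Icc]
      omega
    obtain ⟨k, hk⟩ : ∃ k : ℕ, m ^ 2 + m * n + n ^ 2 = ((3 + k : ℕ) : ℤ) := by
      refine ⟨(m ^ 2 + m * n + n ^ 2 - 3).toNat, ?_⟩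
      push_cast
      rw [Int.toNat_of_nonneg (by omega)]
      ring
    have hk2 : m.natAbs + n.natAbs ≤ k + 1 := by
      rw [hk, Nat.cast_add] at h2
      have h2k : ((3 : ℕ) : ℤ) = 3 := rfl
      rw [h2k] at h2
      omega
    show ‖q ^ (m ^ 2 + m * n + n ^ 2)‖ ≤ (‖q‖ ^ 3 * r⁻¹) * (r ^ m.natAbs * r ^ n.natAbs)
    rw [hk, zpow_natCast, norm_pow, pow_add, mul_assoc]
    refine mul_le_mul_of_nonneg_left ?_ (by positivity)
    have h3 : ‖q‖ ^ k ≤ r ^ k := pow_le_pow_left₀ (norm_nonneg _) hq _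
    have h4 : r ^ (k + 1) ≤ r ^ (m.natAbs + n.natAbs) :=
      pow_le_pow_of_le_one (by norm_num) (by norm_num) hk2
    rw [pow_succ, pow_add] at h4
    rw [inv_mul_eq_div, le_div_iff₀ (by norm_num)]
    exact le_trans (mul_le_mul_of_nonneg_right h3 (by norm_num)) h4
  have h5 : ‖∑' v : ↥((LN_s : Set (ℤ × ℤ))ᶜ), q ^ (v.1.1 ^ 2 + v.1.1 * v.1.2 + v.1.2 ^ 2)‖
      ≤ (‖q‖ ^ 3 * r⁻¹) * ∑' v : ↥((LN_s : Set (ℤ × ℤ))ᶜ), r ^ v.1.1.natAbs * r ^ v.1.2.natAbs := by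
    rw [← tsum_mul_left]
    exact tsum_of_norm_bounded (hsub.mul_left _).hasSum hterm
  have h6 : ‖6 * q ^ 3 + 6 * q ^ 4 + 4 * q ^ 7 + 2 * q ^ 12‖
      ≤ ‖q‖ ^ 3 * (6 + 6 * r + 4 * r ^ 4 + 2 * r ^ 9) := by
    have e1 : 6 * q ^ 3 + 6 * q ^ 4 + 4 * q ^ 7 + 2 * q ^ 12
        = q ^ 3 * (6 + 6 * q + 4 * q ^ 4 + 2 * q ^ 9) := by ring
    rw [e1, norm_mul, norm_pow]
    refine mul_le_mul_of_nonneg_left ?_ (by positivity)
    refine le_trans (norm_add_le _ _) (add_le_add (le_trans (norm_add_le _ _)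
      (add_le_add (le_trans (norm_add_le _ _) (add_le_add (by norm_num) ?_)) ?_)) ?_)
    · rw [norm_mul]
      exact mul_le_mul (by norm_num) hq (norm_nonneg _) (by norm_num)
    · rw [norm_mul, norm_pow]
      exact mul_le_mul (by norm_num) (pow_le_pow_left₀ (norm_nonneg _) hq _) (by positivity) (by norm_num)
    · rw [norm_mul, norm_pow]
      exact mul_le_mul (by norm_num) (pow_le_pow_left₀ (norm_nonneg _) hq _) (by positivity) (by norm_num)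
  have h7 : ca q - 1 - 6 * q = (6 * q ^ 3 + 6 * q ^ 4 + 4 * q ^ 7 + 2 * q ^ 12)
      + ∑' v : ↥((LN_s : Set (ℤ × ℤ))ᶜ), q ^ (v.1.1 ^ 2 + v.1.1 * v.1.2 + v.1.2 ^ 2) := by
    rw [h1]; ring
  set T : ℝ := ∑' v : ↥((LN_s : Set (ℤ × ℤ))ᶜ), r ^ v.1.1.natAbs * r ^ v.1.2.natAbs with hT
  have hT' : T ≤ 11 / 100 := by
    have : T = ((1 - r)⁻¹ + r * (1 - r)⁻¹) * ((1 - r)⁻¹ + r * (1 - r)⁻¹)
        - (1 + 2 * r + 2 * r ^ 2) ^ 2 := by
      linarith [hZ2]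
    rw [this, hr]
    norm_num
  rw [h7]
  refine le_trans (norm_add_le _ _) (le_trans (add_le_add h6 h5) ?_)
  have h8 : (6 + 6 * r + 4 * r ^ 4 + 2 * r ^ 9) + r⁻¹ * T ≤ 15 := by
    have : r⁻¹ * T ≤ r⁻¹ * (11 / 100) := mul_le_mul_of_nonneg_left hT' (by norm_num)
    refine le_trans (add_le_add_right this _) ?_
    rw [hr]
    norm_num
  calc ‖q‖ ^ 3 * (6 + 6 * r + 4 * r ^ 4 + 2 * r ^ 9) + ‖q‖ ^ 3 * r⁻¹ * T
      = ‖q‖ ^ 3 * ((6 + 6 * r + 4 * r ^ 4 + 2 * r ^ 9) + r⁻¹ * T) := by ring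
    _ ≤ ‖q‖ ^ 3 * 15 := mul_le_mul_of_nonneg_left h8 (by positivity)
    _ = 15 * ‖q‖ ^ 3 := by ring

end D8M
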