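import Mathlib
import Pool.Agent.D8W.Defs
import Pool.Agent.D8M.LN
import Pool.Agent.D8M.LX

/-!
# D8M/LR: `x² - 2z²` on the ray `Re τ = 1/3` and on `Im τ = 1`

`x = ca q`, `z = ca (q²)`, `q = ω r` on the ray, `ω = exp (2πi/3)`, `r = exp (-2πy) ≤ 23/100` (`exp_y0`). By `ca_near`
`x = 1 + 6ωr + R`, `z = 1 + 6ω²r² + R'`, `‖R‖ ≤ 15 r³`, `‖R'‖ ≤ 15 r⁶`, so
`x² - 2z² = -1 + 12ωr + 12ω²r² - 72 ω r⁴ + err`, `‖err‖ ≤ 2(1+6r)15r³ + 225r⁶ + 2(2(1+6r²)15r⁶ + 225r¹²)`: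
`Im ≥ (√3/2)(12r - 12r² - 72r⁴) - ‖err‖ ≥ r` (true lower bound `7.9 r`), `Re ≤ -1 - 6r - 6r² + 36r⁴ + ‖err‖ ≤ -1/2`
(true value `≤ -1`), norm `≤ 12` (true value `≤ 3.2`).
-/

set_option autoImplicit false

open MeasureTheory Set Filter

namespace D8M

open D8W RV15W

/-- the error term: `‖x² - 2z² - (-1 + 12 q + 12 q² - 72 q⁴)‖ ≤ 4 ‖q‖`. -/
theorem LR_err {q : ℂ} (hq : ‖q‖ ≤ 23 / 100) :
    ‖ca q ^ 2 - 2 * ca (q ^ 2) ^ 2 - (-1 + 12 * q + 12 * q ^ 2 - 72 * q ^ 4)‖ ≤ 4 * ‖q‖ := by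
  set r : ℝ := ‖q‖ with hr
  have hr0 : 0 ≤ r := norm_nonneg q
  have hq2 : ‖q ^ 2‖ ≤ 23 / 100 := by
    rw [norm_pow, ← hr]
    nlinarith
  have h1 := ca_near hq
  have h2 := ca_near hq2
  rw [← hr] at h1
  rw [norm_pow, ← hr] at h2
  set E : ℂ := ca q - 1 - 6 * q with hE
  set F : ℂ := ca (q ^ 2) - 1 - 6 * q ^ 2 with hF
  have e1 : ca q = 1 + 6 * q + E := by rw [hE]; ring
  have e2 : ca (q ^ 2) = 1 + 6 * q ^ 2 + F := by rw [hF]; ring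
  have e3 : ca q ^ 2 - 2 * ca (q ^ 2) ^ 2 - (-1 + 12 * q + 12 * q ^ 2 - 72 * q ^ 4) =
      (2 * (1 + 6 * q) * E + E ^ 2) - 2 * (2 * (1 + 6 * q ^ 2) * F + F ^ 2) := by
    rw [e1, e2]; ring
  rw [e3]
  have hE0 : 0 ≤ ‖E‖ := norm_nonneg E
  have hF0 : 0 ≤ ‖F‖ := norm_nonneg F
  have n1 : ‖1 + 6 * q‖ ≤ 1 + 6 * r := by
    refine (norm_add_le _ _).trans ?_
    rw [norm_mul, ← hr]; simp
  have n2 : ‖1 + 6 * q ^ 2‖ ≤ 1 + 6 * r ^ 2 := by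
    refine (norm_add_le _ _).trans ?_
    rw [norm_mul, norm_pow, ← hr]; simp
  have n3 : ‖2 * (1 + 6 * q) * E + E ^ 2‖ ≤ 2 * (1 + 6 * r) * (15 * r ^ 3) + (15 * r ^ 3) ^ 2 := by
    refine (norm_add_le _ _).trans ?_
    rw [norm_mul, norm_mul, norm_pow]
    have : ‖(2 : ℂ)‖ = 2 := by simp
    rw [this]
    gcongr
  have n4 : ‖2 * (2 * (1 + 6 * q ^ 2) * F + F ^ 2)‖ ≤
      2 * (2 * (1 + 6 * r ^ 2) * (15 * (r ^ 2) ^ 3) + (15 * (r ^ 2) ^ 3) ^ 2) := by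
    rw [norm_mul]
    have : ‖(2 : ℂ)‖ = 2 := by simp
    rw [this]
    have : ‖2 * (1 + 6 * q ^ 2) * F + F ^ 2‖ ≤
        2 * (1 + 6 * r ^ 2) * (15 * (r ^ 2) ^ 3) + (15 * (r ^ 2) ^ 3) ^ 2 := by
      refine (norm_add_le _ _).trans ?_
      rw [norm_mul, norm_mul, norm_pow]
      have : ‖(2 : ℂ)‖ = 2 := by simp
      rw [this]
      gcongr
    linarith
  refine (norm_sub_le _ _).trans ?_
  have p2 : r ^ 2 ≤ (23 / 100) ^ 2 := pow_le_pow_left₀ hr0 hq 2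
  have p3 : r ^ 3 ≤ (23 / 100) ^ 3 := pow_le_pow_left₀ hr0 hq 3
  have p5 : r ^ 5 ≤ (23 / 100) ^ 5 := pow_le_pow_left₀ hr0 hq 5
  have p7 : r ^ 7 ≤ (23 / 100) ^ 7 := pow_le_pow_left₀ hr0 hq 7
  have p11 : r ^ 11 ≤ (23 / 100) ^ 11 := pow_le_pow_left₀ hr0 hq 11
  have m2 := mul_le_mul_of_nonneg_left p2 hr0
  have m3 := mul_le_mul_of_nonneg_left p3 hr0
  have m5 := mul_le_mul_of_nonneg_left p5 hr0
  have m7 := mul_le_mul_of_nonneg_left p7 hr0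
  have m11 := mul_le_mul_of_nonneg_left p11 hr0
  have e : 2 * (1 + 6 * r) * (15 * r ^ 3) + (15 * r ^ 3) ^ 2 +
      2 * (2 * (1 + 6 * r ^ 2) * (15 * (r ^ 2) ^ 3) + (15 * (r ^ 2) ^ 3) ^ 2) =
      30 * (r * r ^ 2) + 180 * (r * r ^ 3) + 285 * (r * r ^ 5) + 360 * (r * r ^ 7) +
        450 * (r * r ^ 11) := by ring
  linarith

theorem LR_re (a b : ℝ) : ((a : ℂ) + (b : ℂ) * Complex.I).re = a := by simp

theorem LR_im (a b : ℝ) : ((a : ℂ) + (b : ℂ) * Complex.I).im = b := by simp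

theorem LR_qq (y : ℝ) : qq (pt (1 / 3) y) =
    ((-(Real.exp (-(2 * Real.pi * y)) / 2) : ℝ) : ℂ) +
      ((Real.sqrt 3 / 2 * Real.exp (-(2 * Real.pi * y)) : ℝ) : ℂ) * Complex.I := by
  unfold qq pt
  have e1 : 2 * (Real.pi : ℂ) * Complex.I * (((1 / 3 : ℝ) : ℂ) + (y : ℂ) * Complex.I) =
      ((-(2 * Real.pi * y) : ℝ) : ℂ) + ((Real.pi - Real.pi / 3 : ℝ) : ℂ) * Complex.I := by
    push_cast
    linear_combination (2 * (Real.pi : ℂ) * (y : ℂ)) * Complex.I_mul_I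
  rw [e1, Complex.exp_add, Complex.exp_mul_I, ← Complex.ofReal_exp, ← Complex.ofReal_cos,
    ← Complex.ofReal_sin, Real.cos_pi_sub, Real.sin_pi_sub, Real.cos_pi_div_three,
    Real.sin_pi_div_three]
  push_cast
  ring

theorem ray_ineq {y : ℝ} (h : y0 ≤ y) :
    (ca (qq (pt (1 / 3) y)) ^ 2 - 2 * ca (qq (pt (1 / 3) y) ^ 2) ^ 2).re ≤ -(1 / 2) ∧
    Real.exp (-(2 * Real.pi * y)) ≤
      (ca (qq (pt (1 / 3) y)) ^ 2 - 2 * ca (qq (pt (1 / 3) y) ^ 2) ^ 2).im ∧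
    ‖ca (qq (pt (1 / 3) y)) ^ 2 - 2 * ca (qq (pt (1 / 3) y) ^ 2) ^ 2‖ ≤ 12 := by
  have hn : ‖qq (pt (1 / 3) y)‖ = Real.exp (-(2 * Real.pi * y)) := by
    rw [qq_norm]; simp [pt]
  have hr : Real.exp (-(2 * Real.pi * y)) ≤ 23 / 100 := by
    refine le_trans (Real.exp_le_exp.2 ?_) exp_y0
    have := Real.pi_pos
    nlinarith
  have herr := LR_err (q := qq (pt (1 / 3) y)) (by rw [hn]; exact hr)
  rw [hn] at herr
  have hq := LR_qq y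
  set r : ℝ := Real.exp (-(2 * Real.pi * y)) with hrr
  have hr0 : 0 < r := Real.exp_pos _
  set q : ℂ := qq (pt (1 / 3) y) with hqd
  set W : ℂ := ca q ^ 2 - 2 * ca (q ^ 2) ^ 2 with hW
  set P : ℂ := -1 + 12 * q + 12 * q ^ 2 - 72 * q ^ 4 with hP
  have h3 : (Real.sqrt 3) ^ 2 = 3 := Real.sq_sqrt (by norm_num)
  have h3c : ((Real.sqrt 3 : ℝ) : ℂ) ^ 2 = 3 := by exact_mod_cast h3
  have hP' : P = ((-1 - 6 * r - 6 * r ^ 2 + 36 * r ^ 4 : ℝ) : ℂ) +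
      ((Real.sqrt 3 / 2 * (12 * r - 12 * r ^ 2 - 72 * r ^ 4) : ℝ) : ℂ) * Complex.I := by
    have q2 : q ^ 2 = ((-(r ^ 2) / 2 : ℝ) : ℂ) + ((-(Real.sqrt 3 / 2 * r ^ 2) : ℝ) : ℂ) * Complex.I := by
      rw [hq]
      push_cast
      linear_combination ((Real.sqrt 3 : ℂ) ^ 2 / 4 * (r : ℂ) ^ 2) * Complex.I_sq -
        ((r : ℂ) ^ 2 / 4) * h3c
    have q4 : q ^ 4 = ((-(r ^ 4) / 2 : ℝ) : ℂ) + ((Real.sqrt 3 / 2 * r ^ 4 : ℝ) : ℂ) * Complex.I := by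
      have : q ^ 4 = (q ^ 2) ^ 2 := by ring
      rw [this, q2]
      push_cast
      linear_combination ((Real.sqrt 3 : ℂ) ^ 2 / 4 * (r : ℂ) ^ 4) * Complex.I_sq -
        ((r : ℂ) ^ 4 / 4) * h3c
    rw [hP, q4, q2, hq]
    push_cast
    ring
  have hPre : P.re = -1 - 6 * r - 6 * r ^ 2 + 36 * r ^ 4 := by
    rw [hP']; exact LR_re _ _
  have hPim : P.im = Real.sqrt 3 / 2 * (12 * r - 12 * r ^ 2 - 72 * r ^ 4) := by
    rw [hP']; exact LR_im _ _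
  have hre : |(W - P).re| ≤ 4 * r := (Complex.abs_re_le_norm _).trans herr
  have him : |(W - P).im| ≤ 4 * r := (Complex.abs_im_le_norm _).trans herr
  rw [Complex.sub_re, abs_le] at hre
  rw [Complex.sub_im, abs_le] at him
  have p2 : r ^ 2 ≤ 23 / 100 * r := by nlinarith
  have p4 : r ^ 4 ≤ (23 / 100) ^ 3 * r := by
    have : r ^ 3 ≤ (23 / 100) ^ 3 := pow_le_pow_left₀ hr0.le hr 3
    nlinarith
  have p20 : 0 ≤ r ^ 2 := by positivity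
  have p40 : 0 ≤ r ^ 4 := by positivity
  have s3 : (1.7 : ℝ) ≤ Real.sqrt 3 := Real.le_sqrt_of_sq_le (by norm_num)
  refine ⟨?_, ?_, ?_⟩
  · nlinarith
  · have h5 : 8 * r ≤ 12 * r - 12 * r ^ 2 - 72 * r ^ 4 := by nlinarith
    have h6 : (1.7 : ℝ) / 2 * (8 * r) ≤ Real.sqrt 3 / 2 * (12 * r - 12 * r ^ 2 - 72 * r ^ 4) := by
      gcongr
    linarith [him.1]
  · have h7 : ‖W‖ ≤ ‖W - P‖ + ‖P‖ := by
      have := norm_add_le (W - P) P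
      simpa using this
    have h8 : ‖P‖ ≤ 1 + 12 * r + 12 * r ^ 2 + 72 * r ^ 4 := by
      rw [hP]
      refine (norm_sub_le _ _).trans ?_
      refine (add_le_add_left ((norm_add_le _ _).trans (add_le_add_left (norm_add_le _ _) _)) _).trans ?_
      rw [norm_mul, norm_mul, norm_mul, norm_pow, norm_pow, hn]
      simp
    nlinarith

theorem top_ineq {τ : ℂ} (h : 1 ≤ τ.im) :
    (ca (qq τ) ^ 2 - 2 * ca (qq τ ^ 2) ^ 2).re ≤ -(1 / 2) := by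
  have hr : ‖qq τ‖ ≤ 1 / 500 := by
    rw [qq_norm]
    refine le_trans (Real.exp_le_exp.2 ?_) exp_one
    have := Real.pi_pos
    nlinarith
  have herr := LR_err (q := qq τ) (hr.trans (by norm_num))
  set q : ℂ := qq τ with hqd
  set r : ℝ := ‖q‖ with hrr
  have hr0 : 0 ≤ r := norm_nonneg _
  set W : ℂ := ca q ^ 2 - 2 * ca (q ^ 2) ^ 2 with hW
  have hre : |(W - (-1 + 12 * q + 12 * q ^ 2 - 72 * q ^ 4)).re| ≤ 4 * r :=
    (Complex.abs_re_le_norm _).trans herr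
  have hre2 : |(12 * q + 12 * q ^ 2 - 72 * q ^ 4).re| ≤ 12 * r + 12 * r ^ 2 + 72 * r ^ 4 := by
    refine (Complex.abs_re_le_norm _).trans ?_
    refine (norm_sub_le _ _).trans ?_
    refine (add_le_add_left (norm_add_le _ _) _).trans ?_
    rw [norm_mul, norm_mul, norm_mul, norm_pow, norm_pow]
    simp [hrr]
  have e : (W - (-1 + 12 * q + 12 * q ^ 2 - 72 * q ^ 4)).re =
      W.re + 1 - (12 * q + 12 * q ^ 2 - 72 * q ^ 4).re := by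
    simp only [Complex.sub_re, Complex.add_re, Complex.neg_re, Complex.one_re]
    ring
  rw [e, abs_le] at hre
  rw [abs_le] at hre2
  have p2 : r ^ 2 ≤ r := by nlinarith
  have p4 : r ^ 4 ≤ r := by
    have h1 : r ^ 4 = r ^ 2 * r ^ 2 := by ring
    have h2 : r ^ 2 ≤ 1 := by nlinarith
    nlinarith [sq_nonneg r]
  linarith [hre.2, hre2.2]

end D8M
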