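import Mathlib
import Pool.Agent.D8W.Defs
import Pool.Agent.D8M.LD
import Pool.Agent.D8M.LX
import Pool.Agent.D8M.LR
import Pool.Agent.D8M.LF

/-!
# D8M/LB: monotonicity of `l` on the ray and on the top segment

On the ray `d/dy l (pt (1/3) y) = i l' = -π (x² - 2z²)` (`l_deriv`); on the top segment `d/dx Im l (pt x 1) = π Re (x² - 2z²)`.
* `ray_mono`: from `ray_ineq`: the real part of the derivative is `≥ π/2`, the imaginary part `≤ -π exp(-2πy)`, norm `≤ 12π`:
  mean value inequalities (`image_sub_le_mul_sub_of_deriv_le`, `monotoneOn_of_deriv_nonneg`, `Convex.norm_image_sub_le_of_norm_hasDerivWithin_le`).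
* `l_cm_im`: `-π < Im l(τ0) < π`: `Im l(τ0) ≥ Im l(1/3 + i) ≥ -π/3 - 1/20` (`ray_mono`, `l_far`) and
  `Im l(τ0) ≤ -π/3 + 14/5` (`l_near`).
* `top_all`: `l_far` gives `Re l ≥ π - 1/20`, `-Im l ≤ π/3 + 1/20 ≤ 7/5`; `Im l (pt 0 1) = 0` by `l_conj`, and `Im l (pt x 1)` is
  strictly decreasing in `x` by `top_ineq`.
* `re_far`: `Re l (τ) ≥ π Im τ - 1/20 ≥ 3`.
-/

set_option autoImplicit false

open MeasureTheory Set Filter

namespace D8M

open D8W RV15W

private theorem LB_W {y : ℝ} (hy : 0 < y) :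
    HasDerivAt (fun t : ℝ => l (pt (1 / 3) t))
      (-(Real.pi * (ca (qq (pt (1 / 3) y)) ^ 2 - 2 * ca (qq (pt (1 / 3) y) ^ 2) ^ 2))) y := by
  have him : 0 < (pt (1 / 3) y).im := by simpa [pt] using hy
  have h1 := l_deriv him
  have h2 : HasDerivAt (fun t : ℝ => pt (1 / 3) t) Complex.I y := by
    unfold pt
    have h3 : HasDerivAt (fun t : ℝ => (t : ℂ)) 1 y := Complex.ofRealCLM.hasDerivAt
    have h4 := (h3.mul_const Complex.I).const_add ((1 / 3 : ℝ) : ℂ)
    simpa using h4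
  have h5 := h1.scomp (𝕜 := ℝ) y h2
  refine h5.congr_deriv ?_
  rw [smul_eq_mul]
  linear_combination (Real.pi * (ca (qq (pt (1 / 3) y)) ^ 2 - 2 * ca (qq (pt (1 / 3) y) ^ 2) ^ 2) : ℂ) *
    Complex.I_mul_I

private theorem LB_V (x : ℝ) :
    HasDerivAt (fun t : ℝ => l (pt t 1))
      (Real.pi * Complex.I * (ca (qq (pt x 1)) ^ 2 - 2 * ca (qq (pt x 1) ^ 2) ^ 2)) x := by
  have him : 0 < (pt x 1).im := by simp [pt]
  have h1 := l_deriv him
  have h2 : HasDerivAt (fun t : ℝ => pt t 1) 1 x := by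
    unfold pt
    have h3 : HasDerivAt (fun t : ℝ => (t : ℂ)) 1 x := Complex.ofRealCLM.hasDerivAt
    exact h3.add_const _
  have h5 := h1.scomp (𝕜 := ℝ) x h2
  refine h5.congr_deriv ?_
  rw [smul_eq_mul, one_mul]

private theorem LB_re {f : ℝ → ℂ} {f' : ℂ} {x : ℝ} (h : HasDerivAt f f' x) :
    HasDerivAt (fun t => (f t).re) f'.re x := by
  exact Complex.reCLM.hasFDerivAt.comp_hasDerivAt x h

private theorem LB_im {f : ℝ → ℂ} {f' : ℂ} {x : ℝ} (h : HasDerivAt f f' x) :
    HasDerivAt (fun t => (f t).im) f'.im x := by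
  exact Complex.imCLM.hasFDerivAt.comp_hasDerivAt x h

private theorem LB_y0 : 0 < y0 := by
  unfold y0
  have : 0 < Real.sqrt 2 := Real.sqrt_pos.2 (by norm_num)
  positivity

private theorem LB_y01 : y0 ≤ 1 := by
  unfold y0
  have : Real.sqrt 2 ≤ 2 := by
    rw [Real.sqrt_le_left (by norm_num)]
    norm_num
  linarith

theorem ray_mono {y y' : ℝ} (h : y0 ≤ y) (h' : y ≤ y') (h1 : y' ≤ 1) :
    (y' - y) ≤ (l (pt (1 / 3) y')).re - (l (pt (1 / 3) y)).re ∧
    Real.exp (-(2 * Real.pi)) * (y' - y) ≤ (l (pt (1 / 3) y)).im - (l (pt (1 / 3) y')).im ∧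
    ‖l (pt (1 / 3) y') - l (pt (1 / 3) y)‖ ≤ 12 * Real.pi * (y' - y) := by
  have hpi : (3.1415 : ℝ) < Real.pi := Real.pi_gt_d4
  have hd : ∀ t ∈ Icc y y', HasDerivAt (fun t : ℝ => l (pt (1 / 3) t))
      (-(Real.pi * (ca (qq (pt (1 / 3) t)) ^ 2 - 2 * ca (qq (pt (1 / 3) t) ^ 2) ^ 2))) t := fun t ht =>
    LB_W (lt_of_lt_of_le LB_y0 (h.trans ht.1))
  have hy : y ∈ Icc y y' := ⟨le_rfl, h'⟩
  have hy' : y' ∈ Icc y y' := ⟨h', le_rfl⟩
  have hin : interior (Icc y y') ⊆ Icc y y' := interior_subset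
  refine ⟨?_, ?_, ?_⟩
  · have k := (convex_Icc y y').mul_sub_le_image_sub_of_le_deriv
      (f := fun t => (l (pt (1 / 3) t)).re) (C := 1)
      (fun t ht => (LB_re (hd t ht)).continuousAt.continuousWithinAt)
      (fun t ht => (LB_re (hd t (hin ht))).differentiableAt.differentiableWithinAt)
      (fun t ht => by
        rw [(LB_re (hd t (hin ht))).deriv]
        have e := (ray_ineq (h.trans (hin ht).1)).1
        generalize ca (qq (pt (1 / 3) t)) ^ 2 - 2 * ca (qq (pt (1 / 3) t) ^ 2) ^ 2 = W at e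
        rw [Complex.neg_re, Complex.re_ofReal_mul]
        nlinarith) y hy y' hy' h'
    simpa using k
  · have k := (convex_Icc y y').mul_sub_le_image_sub_of_le_deriv
      (f := fun t => -(l (pt (1 / 3) t)).im) (C := Real.exp (-(2 * Real.pi)))
      (fun t ht => (LB_im (hd t ht)).neg.continuousAt.continuousWithinAt)
      (fun t ht => (LB_im (hd t (hin ht))).neg.differentiableAt.differentiableWithinAt)
      (fun t ht => by
        have hh := (LB_im (hd t (hin ht))).neg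
        have hh2 : deriv (fun t => -(l (pt (1 / 3) t)).im) t = _ := hh.deriv
        rw [hh2]
        have e := (ray_ineq (h.trans (hin ht).1)).2.1
        have e2 : Real.exp (-(2 * Real.pi)) ≤ Real.exp (-(2 * Real.pi * t)) := by
          apply Real.exp_le_exp.2
          have : t ≤ 1 := (hin ht).2.trans h1
          nlinarith
        have e3 : 0 < Real.exp (-(2 * Real.pi)) := Real.exp_pos _
        generalize ca (qq (pt (1 / 3) t)) ^ 2 - 2 * ca (qq (pt (1 / 3) t) ^ 2) ^ 2 = W at e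
        rw [Complex.neg_im, Complex.im_ofReal_mul]
        nlinarith) y hy y' hy' h'
    have k2 : Real.exp (-(2 * Real.pi)) * (y' - y) ≤
      -(l (pt (1 / 3) y')).im - -(l (pt (1 / 3) y)).im := k
    linarith
  · have k := (convex_Icc y y').norm_image_sub_le_of_norm_hasDerivWithin_le
      (f := fun t => l (pt (1 / 3) t)) (C := 12 * Real.pi)
      (fun t ht => (hd t ht).hasDerivWithinAt)
      (fun t ht => by
        have e := (ray_ineq (h.trans ht.1)).2.2
        generalize ca (qq (pt (1 / 3) t)) ^ 2 - 2 * ca (qq (pt (1 / 3) t) ^ 2) ^ 2 = W at e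
        rw [norm_neg, norm_mul, Complex.norm_real, Real.norm_eq_abs, abs_of_pos Real.pi_pos]
        nlinarith) hy hy'
    rw [Real.norm_eq_abs, abs_of_nonneg (by linarith)] at k
    exact k

private theorem LB_far {τ : ℂ} {c : ℝ} (h : ‖l τ + Real.pi * Complex.I * τ‖ ≤ c) :
    Real.pi * τ.im - c ≤ (l τ).re ∧ -(Real.pi * τ.re) - c ≤ (l τ).im ∧
      (l τ).im ≤ -(Real.pi * τ.re) + c := by
  have h1 := (Complex.abs_re_le_norm (l τ + Real.pi * Complex.I * τ)).trans h
  have h2 := (Complex.abs_im_le_norm (l τ + Real.pi * Complex.I * τ)).trans h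
  have e1 : (l τ + Real.pi * Complex.I * τ).re = (l τ).re - Real.pi * τ.im := by
    simp [Complex.mul_re, Complex.mul_im]
    ring
  have e2 : (l τ + Real.pi * Complex.I * τ).im = (l τ).im + Real.pi * τ.re := by
    simp [Complex.mul_re, Complex.mul_im]
  rw [e1, abs_le] at h1
  rw [e2, abs_le] at h2
  refine ⟨by linarith, by linarith, by linarith⟩

private theorem LB_ptre (x y : ℝ) : (pt x y).re = x := by simp [pt]

private theorem LB_ptim (x y : ℝ) : (pt x y).im = y := by simp [pt]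

theorem l_cm_im : -Real.pi < (l (pt (1 / 3) y0)).im ∧ (l (pt (1 / 3) y0)).im < Real.pi := by
  have hpi : (3.1415 : ℝ) < Real.pi := Real.pi_gt_d4
  have h1 := (ray_mono le_rfl LB_y01 le_rfl).2.1
  have h2 := LB_far (l_far (τ := pt (1 / 3) 1) (by rw [LB_ptim]))
  have h3 := LB_far (l_near (τ := pt (1 / 3) y0) (by rw [LB_ptim]))
  rw [LB_ptre, LB_ptim] at h2 h3
  have h4 : 0 ≤ Real.exp (-(2 * Real.pi)) * (1 - y0) :=
    mul_nonneg (Real.exp_pos _).le (by linarith [LB_y01])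
  constructor
  · linarith [h2.2.1]
  · linarith [h3.2.2]

theorem top_all {x : ℝ} (h0 : 0 ≤ x) (h1 : x ≤ 1 / 3) :
    3 ≤ (l (pt x 1)).re ∧ -(l (pt x 1)).im ≤ 7 / 5 ∧ (0 < x → (l (pt x 1)).im < 0) := by
  have hpi : (3.1415 : ℝ) < Real.pi := Real.pi_gt_d4
  have hpi2 : Real.pi < 3.1416 := Real.pi_lt_d4
  have h2 := LB_far (l_far (τ := pt x 1) (by rw [LB_ptim]))
  rw [LB_ptre, LB_ptim] at h2
  refine ⟨by linarith [h2.1], ?_, fun hx => ?_⟩
  · have : Real.pi * x ≤ Real.pi * (1 / 3) := mul_le_mul_of_nonneg_left h1 Real.pi_pos.le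
    linarith [h2.2.1]
  · have hin : interior (Icc 0 x) ⊆ Icc 0 x := interior_subset
    have k := (convex_Icc 0 x).image_sub_le_mul_sub_of_deriv_le
      (f := fun t => (l (pt t 1)).im) (C := -1)
      (fun t _ => (LB_im (LB_V t)).continuousAt.continuousWithinAt)
      (fun t _ => (LB_im (LB_V t)).differentiableAt.differentiableWithinAt)
      (fun t _ => by
        rw [(LB_im (LB_V t)).deriv]
        have e := top_ineq (τ := pt t 1) (by rw [LB_ptim])
        generalize ca (qq (pt t 1)) ^ 2 - 2 * ca (qq (pt t 1) ^ 2) ^ 2 = W at e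
        rw [mul_assoc, Complex.im_ofReal_mul]
        simp only [Complex.mul_im, Complex.I_re, Complex.I_im, zero_mul, one_mul, zero_add]
        nlinarith) 0 ⟨le_rfl, h0⟩ x ⟨h0, le_rfl⟩ h0
    have k0 : (l (pt 0 1)).im = 0 := by
      have := congrArg Complex.im (l_conj 0 (y := 1) one_pos)
      rw [neg_zero, Complex.conj_im] at this
      linarith
    have k2 : (l (pt x 1)).im - (l (pt 0 1)).im ≤ -1 * (x - 0) := k
    rw [k0] at k2
    linarith

theorem re_far {τ : ℂ} (h : 1 ≤ τ.im) : 3 ≤ (l τ).re := by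
  have hpi : (3.1415 : ℝ) < Real.pi := Real.pi_gt_d4
  have h2 := (LB_far (l_far h)).1
  nlinarith

end D8M
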