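import Mathlib
import Pool.Agent.D8W.Defs
import Pool.Agent.RV15W.Fri

/-!
# D8M/ZC: the complex multiplication point `τ0 = 1/3 + i y0`, `y0 = √2/6`

For `Im τ > 0` put `σ = τ/(1-3τ)` (`Im σ > 0`); `-1/(3σ) = -1/(3τ) + 1`, `qq (τ+1) = qq τ`, and `ca_fricke` at `σ` and at `τ`
give `ca (qq σ) = (1 - 3τ) ca (qq τ)`. At `τ0`: `1 - 3τ0 = -i√2/2`, `σ + 1 = 2τ0`, `qq (2τ0) = (qq τ0)²`, so
`z = ca (q²) = -(i√2/2) x` and `z² = -x²/2`.
-/

set_option autoImplicit false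

open MeasureTheory Set Filter

namespace D8M

open D8W RV15W

private theorem ZC_qq_add_one (τ : ℂ) : qq (τ + 1) = qq τ := by
  unfold qq
  rw [mul_add, Complex.exp_add, mul_one, Complex.exp_two_pi_mul_I, mul_one]

private theorem ZC_im {τ : ℂ} (h : 0 < τ.im) : 0 < (τ / (1 - 3 * τ)).im := by
  have hne : 1 - 3 * τ ≠ 0 := by
    intro h0
    have h1 := congrArg Complex.im h0
    simp at h1
    exact h.ne' h1
  rw [Complex.div_im]
  have h2 : 0 < Complex.normSq (1 - 3 * τ) := Complex.normSq_pos.2 hne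
  have h3 : (1 - 3 * τ).re = 1 - 3 * τ.re := by simp
  have h4 : (1 - 3 * τ).im = -(3 * τ.im) := by simp
  rw [h3, h4, ← sub_div]
  refine div_pos ?_ h2
  nlinarith

theorem ca_move {τ : ℂ} (h : 0 < τ.im) : ca (qq (τ / (1 - 3 * τ))) = (1 - 3 * τ) * ca (qq τ) := by
  have hne : 1 - 3 * τ ≠ 0 := by
    intro h0
    have h1 := congrArg Complex.im h0
    simp at h1
    exact h.ne' h1
  have hτ : τ ≠ 0 := fun h0 => by
    rw [h0] at h
    simp at h
  have h1 := ca_fricke (τ / (1 - 3 * τ)) (ZC_im h)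
  have h2 := ca_fricke τ h
  have h3 : -1 / (3 * (τ / (1 - 3 * τ))) = -1 / (3 * τ) + 1 := by
    field_simp
    ring
  rw [h3, ZC_qq_add_one, h2] at h1
  have h4 : (Real.sqrt 3 : ℂ) ≠ 0 := by
    rw [Ne, Complex.ofReal_eq_zero]
    positivity
  have hI := Complex.I_ne_zero
  have h5 : ca (qq τ) = 1 / (1 - 3 * τ) * ca (qq (τ / (1 - 3 * τ))) := by
    have h6 : (Real.sqrt 3 : ℂ) * τ / Complex.I ≠ 0 := div_ne_zero (mul_ne_zero h4 hτ) hI
    apply mul_left_cancel₀ h6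
    rw [h1]
    field_simp
  rw [h5, ← mul_assoc, mul_one_div_cancel hne, one_mul]

theorem z_cm : 2 * ca (qq (pt (1 / 3) y0) ^ 2) ^ 2 = -(ca (qq (pt (1 / 3) y0)) ^ 2) := by
  have hs : Real.sqrt 2 * Real.sqrt 2 = 2 := Real.mul_self_sqrt (by norm_num)
  have hy : 0 < y0 := by
    unfold y0
    positivity
  have hyy : y0 * y0 = 1 / 18 := by
    unfold y0
    linear_combination (1 / 36) * hs
  have hyc : (y0 : ℂ) * y0 = 1 / 18 := by
    have := congrArg (fun x : ℝ => (x : ℂ)) hyy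
    simpa using this
  have him : 0 < (pt (1 / 3) y0).im := by
    unfold pt
    simpa using hy
  have hy0 : (y0 : ℂ) ≠ 0 := by exact_mod_cast hy.ne'
  have hI := Complex.I_ne_zero
  have hII := Complex.I_mul_I
  have h1 := ca_move him
  have h2 : 1 - 3 * pt (1 / 3) y0 = -(3 * y0 * Complex.I) := by
    unfold pt
    push_cast
    ring
  have h3 : pt (1 / 3) y0 / (1 - 3 * pt (1 / 3) y0) + 1 = 2 * pt (1 / 3) y0 := by
    rw [h2]
    have h4 : -(3 * (y0 : ℂ) * Complex.I) ≠ 0 := neg_ne_zero.2 (mul_ne_zero (mul_ne_zero (by norm_num) hy0) hI)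
    rw [div_add_one h4, div_eq_iff h4]
    unfold pt
    push_cast
    linear_combination (6 * (y0 : ℂ) * y0) * hII - 6 * hyc
  have h5 : qq (2 * pt (1 / 3) y0) = qq (pt (1 / 3) y0) ^ 2 := by
    unfold qq
    rw [← Complex.exp_nat_mul]
    congr 1
    push_cast
    ring
  rw [← ZC_qq_add_one, h3, h5, h2] at h1
  rw [h1]
  linear_combination (18 * (y0 : ℂ) * y0 * ca (qq (pt (1 / 3) y0)) ^ 2) * hII -
    (18 * ca (qq (pt (1 / 3) y0)) ^ 2) * hyc

end D8M
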