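import Mathlib
import Pool.Agent.D8W.Defs
import Pool.Agent.RV15W.Rel
import Pool.Agent.RV15W.Alg
import Pool.Agent.D8M.LX
import Pool.Agent.D8M.ZC
import Pool.Agent.D8M.LB

/-!
# D8M/CM: `l (τ0) = 0`

With `x = ca q`, `z = ca (q²)` (`q ≠ 0`): `al = 2z - x`, `be = x + 2z` (`al_eq`, `be_eq`), `ga = (x+z)/2`, `de = (x-z)/2`
(`relA`, `relB`, `relE`), so `be ga - al de = x² + 2z² = 0` at `τ0` (`z_cm`), `al de ≠ 0`: `exp (2 l(τ0)) = 1` (`exp_l`), so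
`l(τ0) = π i n` with `n` an integer, and `|Im l(τ0)| < π` (`l_cm_im`).
-/

set_option autoImplicit false

open MeasureTheory Set Filter

namespace D8M

open D8W RV15W

private theorem CM_pow {q : ℂ} (hq : ‖q‖ < 1) {k : ℕ} (hk : k ≠ 0) : ‖q ^ k‖ < 1 := by
  rw [norm_pow]
  exact pow_lt_one₀ (norm_nonneg _) hq hk

theorem al_de {q : ℂ} (hq : ‖q‖ < 1) (hq0 : q ≠ 0) :
    al q * de q = (2 * ca (q ^ 2) - ca q) * (ca q - ca (q ^ 2)) / 2 := by
  have h1 : de q = (ca q - ca (q ^ 2)) / 2 := by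
    linear_combination (-1 / 2 : ℂ) * rel_a1 hq hq0 + (1 / 2 : ℂ) * relB hq hq0
  rw [al_eq hq, h1]
  ring

theorem be_ga {q : ℂ} (hq : ‖q‖ < 1) (hq0 : q ≠ 0) :
    be q * ga q = (ca q + 2 * ca (q ^ 2)) * (ca q + ca (q ^ 2)) / 2 := by
  have h1 : ga q = (ca q + ca (q ^ 2)) / 2 := by
    linear_combination rel_ga hq hq0 - (1 / 2 : ℂ) * rel_a1 hq hq0 - (1 / 2 : ℂ) * relB hq hq0
  rw [be_eq hq, h1]
  ring

theorem al_de_ne {q : ℂ} (hq : ‖q‖ < 1) (hq0 : q ≠ 0) : al q * de q ≠ 0 := by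
  have h1 : Eu q ≠ 0 := Eu_ne hq
  have h2 : Eu (q ^ 2) ≠ 0 := Eu_ne (CM_pow hq (by norm_num))
  have h3 : Eu (q ^ 3) ≠ 0 := Eu_ne (CM_pow hq (by norm_num))
  have h6 : Eu (q ^ 6) ≠ 0 := Eu_ne (CM_pow hq (by norm_num))
  refine mul_ne_zero (al_ne hq) ?_
  unfold de
  exact div_ne_zero (mul_ne_zero (mul_ne_zero (mul_ne_zero (by norm_num) hq0)
    (pow_ne_zero _ h6)) h1) (mul_ne_zero (pow_ne_zero _ h2) (pow_ne_zero _ h3))

theorem be_ga_ne {q : ℂ} (hq : ‖q‖ < 1) : be q * ga q ≠ 0 := by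
  have h1 : Eu q ≠ 0 := Eu_ne hq
  have h2 : Eu (q ^ 2) ≠ 0 := Eu_ne (CM_pow hq (by norm_num))
  have h3 : Eu (q ^ 3) ≠ 0 := Eu_ne (CM_pow hq (by norm_num))
  have h6 : Eu (q ^ 6) ≠ 0 := Eu_ne (CM_pow hq (by norm_num))
  refine mul_ne_zero (be_ne hq) ?_
  unfold ga
  exact div_ne_zero (mul_ne_zero (pow_ne_zero _ h2) h3)
    (mul_ne_zero (pow_ne_zero _ h1) (pow_ne_zero _ h6))

theorem l_cm : l (pt (1 / 3) y0) = 0 := by
  have hy0 : 0 < y0 := by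
    unfold y0
    positivity
  have him : (pt (1 / 3) y0).im = y0 := by
    simp [pt]
  have hpos : 0 < (pt (1 / 3) y0).im := by rw [him]; exact hy0
  have hq : ‖qq (pt (1 / 3) y0)‖ < 1 := by
    rw [qq_norm, him]
    rw [Real.exp_lt_one_iff]
    have : 0 < 2 * Real.pi * y0 := by positivity
    linarith
  have hq0 : qq (pt (1 / 3) y0) ≠ 0 := by
    unfold qq
    exact Complex.exp_ne_zero _
  have h1 := exp_l hpos
  have h2 : be (qq (pt (1 / 3) y0)) * ga (qq (pt (1 / 3) y0)) =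
      al (qq (pt (1 / 3) y0)) * de (qq (pt (1 / 3) y0)) := by
    rw [be_ga hq hq0, al_de hq hq0]
    linear_combination z_cm
  rw [h2] at h1
  have h3 : Complex.exp (2 * l (pt (1 / 3) y0)) = 1 :=
    mul_right_cancel₀ (al_de_ne hq hq0) (by rw [h1, one_mul])
  obtain ⟨n, hn⟩ := Complex.exp_eq_one_iff.mp h3
  have h4 : l (pt (1 / 3) y0) = n * (Real.pi * Complex.I) := by
    have : (2 : ℂ) * l (pt (1 / 3) y0) = 2 * (n * (Real.pi * Complex.I)) := by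
      rw [hn]; ring
    exact mul_left_cancel₀ two_ne_zero this
  have h5 : (l (pt (1 / 3) y0)).im = n * Real.pi := by
    rw [h4]
    simp
  obtain ⟨h6, h7⟩ := l_cm_im
  rw [h5] at h6 h7
  have h8 : (-1 : ℝ) < n := by
    by_contra hcon
    push Not at hcon
    nlinarith [Real.pi_pos]
  have h9 : (n : ℝ) < 1 := by
    by_contra hcon
    push Not at hcon
    nlinarith [Real.pi_pos]
  have h10 : -1 < n := by exact_mod_cast h8
  have h11 : n < 1 := by exact_mod_cast h9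
  have h12 : n = 0 := by omega
  rw [h4, h12]
  simp

end D8M
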