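import Mathlib
import Pool.Agent.D8W.Defs
import Pool.Agent.RV15W.Alg
import Pool.Agent.RV15W.QE
import Pool.Agent.RV15W.Ram

/-!
# D8M/LP: `2 Psi = x z (x² - 2z²)`

`x = ca q`, `z = ca (q²)`. `e4 = QQ` (`RV15W.QQ_e4`). By `RV15W.Q3` at `q` and `q²`: `9 e4(q³) = e4(q) - 8x⁴ + 16 x bb(q)`,
`9 e4(q⁶) = e4(q²) - 8z⁴ + 16 z bb(q²)`; `bb(q) = (x+z)(x-2z)²/2` (`rel_B1`), `bb(q²) = (2z-x)(x+z)²/4` (`rel_B2`). So
`80 Psi = (8x⁴ - 16 x bb(q)) + 4 (8z⁴ - 16 z bb(q²)) = 40 x z (x² - 2z²)`.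
Conjugation: `qq (pt (-x) y) = conj (qq (pt x y))` and `e4` has real coefficients (`Complex.conj_tsum`).
-/

set_option autoImplicit false

open MeasureTheory Set Filter

namespace D8M

open D8W RV15W

theorem LP_norm_qq {τ : ℂ} (h : 0 < τ.im) : ‖qq τ‖ < 1 := by
  unfold qq
  rw [Complex.norm_exp]
  have h1 : (2 * Real.pi * Complex.I * τ).re = -(2 * Real.pi * τ.im) := by
    simp [Complex.mul_re, Complex.mul_im]
  rw [h1, Real.exp_lt_one_iff]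
  have := Real.pi_pos
  have h2 : 0 < 2 * Real.pi * τ.im := by positivity
  linarith

theorem Psi_eq {τ : ℂ} (h : 0 < τ.im) :
    2 * Psi τ = ca (qq τ) * ca (qq τ ^ 2) * (ca (qq τ) ^ 2 - 2 * ca (qq τ ^ 2) ^ 2) := by
  have hq := LP_norm_qq h
  have hk : ∀ k : ℕ, k ≠ 0 → ‖qq τ ^ k‖ < 1 := fun k hk => by
    rw [norm_pow]
    exact pow_lt_one₀ (norm_nonneg _) hq hk
  have h1 := Q3 hq
  have h2 := Q3 (hk 2 (by norm_num))
  have e1 : (qq τ ^ 2) ^ 3 = qq τ ^ 6 := by ring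
  rw [e1] at h2
  rw [rel_B1 hq] at h1
  rw [rel_B2 hq] at h2
  rw [QQ_e4 hq, QQ_e4 (hk 3 (by norm_num))] at h1
  rw [QQ_e4 (hk 2 (by norm_num)), QQ_e4 (hk 6 (by norm_num))] at h2
  unfold Psi
  linear_combination -(1 / 40 : ℂ) * h1 - (1 / 10 : ℂ) * h2

theorem qq_conj (x y : ℝ) : qq (pt (-x) y) = starRingEnd ℂ (qq (pt x y)) := by
  unfold qq pt
  rw [← Complex.exp_conj]
  congr 1
  simp only [map_mul, map_add, map_ofNat, Complex.conj_ofReal, Complex.conj_I]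
  push_cast
  linear_combination (2 * Real.pi * (y : ℂ) * 2) * Complex.I_sq - (4 * Real.pi * (y : ℂ)) * Complex.I_sq

theorem LP_e4_conj (q : ℂ) : e4 (starRingEnd ℂ q) = starRingEnd ℂ (e4 q) := by
  unfold e4
  rw [map_add, map_mul, map_one, map_ofNat, Complex.conj_tsum]
  congr 2
  refine tsum_congr fun n => ?_
  rw [map_mul, map_pow, map_natCast]

theorem Psi_conj (x : ℝ) {y : ℝ} (hy : 0 < y) : Psi (pt (-x) y) = starRingEnd ℂ (Psi (pt x y)) := by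
  unfold Psi
  rw [qq_conj, ← map_pow, ← map_pow, ← map_pow, LP_e4_conj, LP_e4_conj, LP_e4_conj, LP_e4_conj]
  simp only [map_div₀, map_sub, map_add, map_mul, map_ofNat]

end D8M
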