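import Mathlib
import Pool.Agent.D8W.Defs
import Pool.Agent.RV15W.BasA
import Pool.Agent.RV15W.Alg

/-!
# D8M/KD: the function `Kq = 1/k²` and the derivation `dK = K d/dK`

`x = ca q`, `z = ca (q²)`, `Kq = (4z²-x²)(x²-z²)/(36x²z²)`, `qd Kq = Kq (4z⁴-x⁴)/(3xz)` (`RV15W.dx`, `RV15W.dz`, `RV15W.P2`).
-/

set_option autoImplicit false

open MeasureTheory Set Filter

namespace D8M

open D8W RV15W

noncomputable section

/-- `K = 1/k²` as a function of `q` -/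
def Kq (q : ℂ) : ℂ :=
  (4 * ca (q ^ 2) ^ 2 - ca q ^ 2) * (ca q ^ 2 - ca (q ^ 2) ^ 2) / (36 * ca q ^ 2 * ca (q ^ 2) ^ 2)

/-- `f = x z` -/
def xz (q : ℂ) : ℂ := ca q * ca (q ^ 2)

/-- the factor of the derivation `K d/dK` -/
def gK (q : ℂ) : ℂ := 3 * (ca q * ca (q ^ 2)) / (4 * ca (q ^ 2) ^ 4 - ca q ^ 4)

/-- `K d/dK` in the variable `q` -/
def dK (f : ℂ → ℂ) (q : ℂ) : ℂ := gK q * (q * deriv f q)

end

private theorem KD_ca_an {q : ℂ} (hq : ‖q‖ < 1) : AnalyticAt ℂ ca q :=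
  ca_diff.analyticAt (Metric.isOpen_ball.mem_nhds (by simpa using hq))

private theorem KD_sq_lt {q : ℂ} (hq : ‖q‖ < 1) : ‖q ^ 2‖ < 1 := by
  rw [norm_pow]; exact pow_lt_one₀ (norm_nonneg _) hq two_ne_zero

private theorem KD_ca2_an {q : ℂ} (hq : ‖q‖ < 1) : AnalyticAt ℂ (fun r => ca (r ^ 2)) q :=
  AnalyticAt.fun_comp (g := ca) (f := fun r : ℂ => r ^ 2) (KD_ca_an (KD_sq_lt hq))
    ((analyticAt_id (𝕜 := ℂ) (z := q)).fun_pow 2)

theorem xz_an {q : ℂ} (hq : ‖q‖ < 1) : AnalyticAt ℂ xz q :=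
  (KD_ca_an hq).mul (KD_ca2_an hq)

theorem xz_zero : xz 0 = 1 := by
  simp [xz, ca_zero]

theorem Kq_an : AnalyticAt ℂ Kq 0 := by
  have h0 : ‖(0:ℂ)‖ < 1 := by simp
  have h1 := KD_ca_an h0
  have h2 := KD_ca2_an h0
  refine (((analyticAt_const.mul (h2.pow 2)).sub (h1.pow 2)).mul ((h1.pow 2).sub (h2.pow 2))).div
    ((analyticAt_const.mul (h1.pow 2)).mul (h2.pow 2)) ?_
  simp [ca_zero]

theorem Kq_zero : Kq 0 = 0 := by
  simp [Kq, ca_zero]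

theorem gK_an : AnalyticAt ℂ gK 0 := by
  have h0 : ‖(0:ℂ)‖ < 1 := by simp
  have h1 := KD_ca_an h0
  have h2 := KD_ca2_an h0
  refine (analyticAt_const.mul (h1.mul h2)).div ((analyticAt_const.mul (h2.pow 4)).sub (h1.pow 4)) ?_
  simp [ca_zero]; norm_num

theorem gK_zero : gK 0 = 1 := by
  simp [gK, ca_zero]; norm_num

theorem dKq : ∀ᶠ q in nhds (0 : ℂ), dK Kq q = Kq q := by
  have h0 : ‖(0:ℂ)‖ < 1 := by simp
  have h1 := (KD_ca_an h0).continuousAt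
  have h2 := (KD_ca2_an h0).continuousAt
  have e1 : ∀ᶠ q in nhds (0 : ℂ), ‖q‖ < 1 := by
    have : Metric.ball (0:ℂ) 1 ∈ nhds (0:ℂ) := Metric.ball_mem_nhds _ one_pos
    filter_upwards [this] with q hq
    simpa using hq
  have e2 : ∀ᶠ q in nhds (0 : ℂ), ca q ≠ 0 :=
    h1.eventually_ne (by rw [ca_zero]; exact one_ne_zero)
  have e3 : ∀ᶠ q in nhds (0 : ℂ), ca (q ^ 2) ≠ 0 :=
    h2.eventually_ne (by simp [ca_zero])
  have h3 : ContinuousAt (fun q : ℂ => 4 * ca (q ^ 2) ^ 4 - ca q ^ 4) 0 :=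
    (continuousAt_const.mul (h2.pow 4)).sub (h1.pow 4)
  have e4 : ∀ᶠ q in nhds (0 : ℂ), 4 * ca (q ^ 2) ^ 4 - ca q ^ 4 ≠ 0 :=
    h3.eventually_ne (by simp [ca_zero]; norm_num)
  filter_upwards [e1, e2, e3, e4] with q hq hx hz hd
  have d1 := (KD_ca_an hq).differentiableAt.hasDerivAt
  have d2 := (KD_ca2_an hq).differentiableAt.hasDerivAt
  have r1 := dx hq
  have r2 := dz hq
  have r3 := P2 hq
  unfold qd at r1 r2
  have hne : (36 * ca q ^ 2 * ca (q ^ 2) ^ 2 : ℂ) ≠ 0 :=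
    mul_ne_zero (mul_ne_zero (by norm_num) (pow_ne_zero _ hx)) (pow_ne_zero _ hz)
  have dd := ((((d2.pow 2).const_mul (4:ℂ)).sub (d1.pow 2)).mul ((d1.pow 2).sub (d2.pow 2))).div
    (((d1.pow 2).const_mul (36:ℂ)).mul (d2.pow 2)) (by simpa using hne)
  have hK : deriv Kq q = _ := (HasDerivAt.congr_of_eventuallyEq dd
    (Filter.Eventually.of_forall fun r => by
      simp only [Kq, Pi.mul_apply, Pi.sub_apply, Pi.pow_apply, Pi.div_apply])).deriv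
  unfold dK gK
  rw [hK]
  set x := ca q with hx'
  set z := ca (q ^ 2) with hz'
  set a := deriv ca q
  set b := deriv (fun r => ca (r ^ 2)) q
  set P := PP q
  simp only [Kq, ← hx', ← hz', Pi.mul_apply, Pi.sub_apply, Pi.pow_apply]
  have ha : 12 * (q * a) = x * P + x ^ 3 + 6 * x ^ 2 * z - 8 * z ^ 3 := r1
  have hb : 12 * (q * b) = z * P + x ^ 2 * z - 4 * x * z ^ 2 + 2 * x ^ 3 := by
    linear_combination r2 + z * r3
  field_simp
  have hd' : z ^ 4 * 4 - x ^ 4 ≠ 0 := by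
    intro h; apply hd; linear_combination h
  rw [div_eq_iff hd']
  push_cast
  norm_num
  linear_combination
    ((x ^ 2 * z ^ 2 * (-x * (x ^ 2 - z ^ 2) + x * (4 * z ^ 2 - x ^ 2)) -
      (x ^ 2 - z ^ 2) * (4 * z ^ 2 - x ^ 2) * (z ^ 2 * x)) / 2) * ha +
    ((x ^ 2 * z ^ 2 * (4 * z * (x ^ 2 - z ^ 2) - z * (4 * z ^ 2 - x ^ 2)) -
      (x ^ 2 - z ^ 2) * (4 * z ^ 2 - x ^ 2) * (x ^ 2 * z)) / 2) * hb

end D8M
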