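import Mathlib
import Pool.Agent.D8W.Defs
import Pool.Agent.RV15W.Alg
import Pool.Agent.D8M.KD
import Pool.Agent.D8M.LX
import Pool.Agent.D8M.CM

/-!
# D8M/KK: `k² K = 1`

With `u = be ga`, `v = al de`: `exp (2l) = u/v` (`exp_l`, `al_de_ne`, `be_ga_ne`),
`kt² = (exp l + exp (-l))² = u/v + 2 + v/u = (u+v)²/(uv)`, `u + v = 3xz`, `uv = (4z²-x²)(x²-z²)/4 · ...` (`al_de`, `be_ga`), so
`kt² Kq = 1` when `x z ≠ 0`.
-/

set_option autoImplicit false

open MeasureTheory Set Filter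

namespace D8M

open D8W RV15W

theorem kt_Kq {τ : ℂ} (h : 0 < τ.im) (h0 : xz (qq τ) ≠ 0) : kt τ ^ 2 * Kq (qq τ) = 1 := by
  have hq : ‖qq τ‖ < 1 := by
    rw [qq_norm]
    exact Real.exp_lt_one_iff.2 (by have := mul_pos Real.two_pi_pos h; linarith)
  have hq0 : qq τ ≠ 0 := by
    unfold qq
    exact Complex.exp_ne_zero _
  have hE := exp_l h
  have hv := al_de_ne hq hq0
  have hu := be_ga_ne hq
  have hx : ca (qq τ) ≠ 0 := fun h1 => h0 (by unfold xz; rw [h1, zero_mul])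
  have hz : ca (qq τ ^ 2) ≠ 0 := fun h1 => h0 (by unfold xz; rw [h1, mul_zero])
  have hk : kt τ ^ 2 = Complex.exp (2 * l τ) + 2 + (Complex.exp (2 * l τ))⁻¹ := by
    unfold kt
    rw [← Complex.exp_neg, Complex.cosh]
    have e1 : Complex.exp (2 * l τ) = Complex.exp (l τ) * Complex.exp (l τ) := by
      rw [← Complex.exp_add]; congr 1; ring
    have e2 : Complex.exp (-(2 * l τ)) = Complex.exp (-l τ) * Complex.exp (-l τ) := by
      rw [← Complex.exp_add]; congr 1; ring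
    have e3 : Complex.exp (l τ) * Complex.exp (-l τ) = 1 := by
      rw [← Complex.exp_add, add_neg_cancel, Complex.exp_zero]
    rw [e1, e2]
    linear_combination 2 * e3
  have hw : Complex.exp (2 * l τ) = (be (qq τ) * ga (qq τ)) / (al (qq τ) * de (qq τ)) := by
    rw [eq_div_iff hv, hE]
  rw [hk, hw]
  have hv' := al_de hq hq0
  have hu' := be_ga hq hq0
  rw [hv'] at hv
  rw [hu'] at hu
  rw [hv', hu']
  unfold Kq
  generalize ca (qq τ) = x at *
  generalize ca (qq τ ^ 2) = z at *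
  have hu1 : x + 2 * z ≠ 0 := fun h1 => hu (by rw [h1]; ring)
  have hu2 : x + z ≠ 0 := fun h1 => hu (by rw [h1]; ring)
  have hv1 : 2 * z - x ≠ 0 := fun h1 => hv (by rw [h1]; ring)
  have hv2 : x - z ≠ 0 := fun h1 => hv (by rw [h1]; ring)
  field_simp
  ring

end D8M
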