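import Mathlib
import Pool.Agent.D8W.Defs

/-!
# D8M/CS: the numbers `cn n = C(2n,n) Σ_j C(n,j)² C(2j,j)`

For `s n = Σ_j C(n,j)² C(2j,j)`: `(n+2)² s(n+2) - (10(n+1)²+10(n+1)+3) s(n+1) + 9(n+1)² s(n) = 0`. With `F(n,k) = C(n,k)² C(2k,k)`
the combination at `k` (`0 ≤ k ≤ n`) is `G(n,k+1) - G(n,k)`, `G(n,k) = F(n,k) k³ p(n,k)/((n+1-k)²(n+2-k)²)`,
`p(n,k) = (n+1)² (3k - 4(n+2))`, `G(n,k+1) = F(n,k) · 2(2k+1) p(n,k+1)/(n+1-k)²`; the terms `k = n+1`, `k = n+2` by hand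
(same proof as `Pool/Agent/RV15W/DnRec.lean`, copy it). Then `(n+1) C(2n+2,n+1) = 2(2n+1) C(2n,n)`.
`cn n ≤ 4^n (Σ_j C(n,j) 2^j)² = 36^n`.
-/

set_option autoImplicit false

open MeasureTheory Set Filter

namespace D8M

open D8W RV15W

/-- the summand as a real function of `k` and `j = n - k` -/
private noncomputable def CSf (k j : ℕ) : ℝ :=
  (((k + j).choose k : ℕ) : ℝ) ^ 2 * (((2 * k).choose k : ℕ) : ℝ)

private noncomputable def CSp (n k : ℝ) : ℝ :=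
  (n + 1) ^ 2 * (3 * k - 4 * (n + 2))

private lemma CS_cb (k : ℕ) :
    ((k : ℝ) + 1) * (((2 * (k + 1)).choose (k + 1) : ℕ) : ℝ) =
      2 * (2 * (k : ℝ) + 1) * (((2 * k).choose k : ℕ) : ℝ) := by
  have h := Nat.succ_mul_centralBinom_succ k
  rw [Nat.centralBinom_eq_two_mul_choose, Nat.centralBinom_eq_two_mul_choose] at h
  exact_mod_cast h

private lemma CS_j (k j : ℕ) :
    CSf k (j + 1) = CSf k j * (((k : ℝ) + j + 1) ^ 2 / ((j : ℝ) + 1) ^ 2) := by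
  have h2 : (((k + j).choose k : ℕ) : ℝ) * ((k : ℝ) + j + 1) =
      (((k + (j + 1)).choose k : ℕ) : ℝ) * ((j : ℝ) + 1) := by
    have h := Nat.choose_mul_succ_eq (k + j) k
    have h3 : k + j + 1 - k = j + 1 := by omega
    rw [h3] at h
    have h4 : k + (j + 1) = k + j + 1 := by ring
    rw [h4]
    exact_mod_cast h
  have hj : ((j : ℝ) + 1) ≠ 0 := by positivity
  have h2' : (((k + (j + 1)).choose k : ℕ) : ℝ) =
      (((k + j).choose k : ℕ) : ℝ) * ((k : ℝ) + j + 1) / ((j : ℝ) + 1) := by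
    field_simp
    linarith
  unfold CSf
  rw [h2']
  field_simp

private lemma CS_k (k j : ℕ) :
    CSf (k + 1) j = CSf k j * (((k : ℝ) + j + 1) ^ 2 * (2 * (2 * (k : ℝ) + 1)) / ((k : ℝ) + 1) ^ 3) := by
  have h1 := CS_cb k
  have h2 : (((k + j).choose k : ℕ) : ℝ) * ((k : ℝ) + j + 1) =
      (((k + 1 + j).choose (k + 1) : ℕ) : ℝ) * ((k : ℝ) + 1) := by
    have h := Nat.add_one_mul_choose_eq (k + j) k
    have h4 : k + 1 + j = k + j + 1 := by ring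
    rw [h4]
    have h5 : (((k + j + 1) * (k + j).choose k : ℕ) : ℝ) =
      (((k + j + 1).choose (k + 1) * (k + 1) : ℕ) : ℝ) := by exact_mod_cast h
    push_cast at h5
    linarith
  have hk : ((k : ℝ) + 1) ≠ 0 := by positivity
  have h1' : (((2 * (k + 1)).choose (k + 1) : ℕ) : ℝ) =
      2 * (2 * (k : ℝ) + 1) * (((2 * k).choose k : ℕ) : ℝ) / ((k : ℝ) + 1) := by
    field_simp
    linarith
  have h2' : (((k + 1 + j).choose (k + 1) : ℕ) : ℝ) =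
      (((k + j).choose k : ℕ) : ℝ) * ((k : ℝ) + j + 1) / ((k : ℝ) + 1) := by
    field_simp
    linarith
  unfold CSf
  rw [h1', h2']
  field_simp

/-- the combination at `k`, for `n = k + j` -/
private noncomputable def CST (n k : ℕ) : ℝ :=
  ((n : ℝ) + 2) ^ 2 * CSf k (n + 2 - k) -
      (10 * ((n : ℝ) + 1) ^ 2 + 10 * ((n : ℝ) + 1) + 3) * CSf k (n + 1 - k) +
      9 * ((n : ℝ) + 1) ^ 2 * CSf k (n - k)

private lemma CST_eq (k j : ℕ) : CST (k + j) k =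
    (((k : ℝ) + j) + 2) ^ 2 * CSf k (j + 2) -
      (10 * (((k : ℝ) + j) + 1) ^ 2 + 10 * (((k : ℝ) + j) + 1) + 3) * CSf k (j + 1) +
      9 * (((k : ℝ) + j) + 1) ^ 2 * CSf k j := by
  unfold CST
  rw [show k + j + 2 - k = j + 2 by omega, show k + j + 1 - k = j + 1 by omega,
    show k + j - k = j by omega]
  push_cast
  ring

private lemma CS_tel (m : ℕ) : ∀ j : ℕ, ∑ k ∈ Finset.range (m + 1), CST (m + j) k =
    CSf m j * (2 * (2 * (m : ℝ) + 1) * CSp ((m : ℝ) + j) ((m : ℝ) + 1) / ((j : ℝ) + 1) ^ 2) := by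
  induction m with
  | zero =>
    intro j
    rw [Finset.sum_range_one, CST_eq, show j + 2 = (j + 1) + 1 by ring, CS_j 0 (j + 1), CS_j 0 j]
    have hj : ((j : ℝ) + 1) ≠ 0 := by positivity
    have hj2 : ((j : ℝ) + 2) ≠ 0 := by positivity
    have hj3 : ((j : ℝ) + 1 + 1) ≠ 0 := by positivity
    unfold CSp
    push_cast
    field_simp
    ring
  | succ m ih =>
    intro j
    rw [Finset.sum_range_succ]
    have h := ih (j + 1)
    rw [show m + (j + 1) = m + 1 + j by ring] at h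
    rw [h, CST_eq, show j + 2 = (j + 1) + 1 by ring, CS_j (m + 1) (j + 1), CS_j (m + 1) j,
      CS_k m j, CS_j m j]
    have hj : ((j : ℝ) + 1) ≠ 0 := by positivity
    have hj3 : ((j : ℝ) + 1 + 1) ≠ 0 := by positivity
    have hm : ((m : ℝ) + 1) ≠ 0 := by positivity
    unfold CSp
    push_cast
    field_simp
    ring

private noncomputable def CSs (n : ℕ) : ℝ := ∑ k ∈ Finset.range (n + 1), CSf k (n - k)

private lemma CS_cn (n : ℕ) : (cn n : ℝ) = (((2 * n).choose n : ℕ) : ℝ) * CSs n := by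
  unfold cn CSs
  push_cast
  congr 1
  refine Finset.sum_congr rfl fun k hk => ?_
  have hk' : k ≤ n := Nat.lt_succ_iff.mp (Finset.mem_range.mp hk)
  unfold CSf
  rw [Nat.add_sub_cancel' hk']

private theorem CSs_rec (n : ℕ) :
    ((n : ℝ) + 2) ^ 2 * CSs (n + 2) -
      (10 * ((n : ℝ) + 1) ^ 2 + 10 * ((n : ℝ) + 1) + 3) * CSs (n + 1) +
      9 * ((n : ℝ) + 1) ^ 2 * CSs n = 0 := by
  have ht := CS_tel n 0
  rw [add_zero] at ht
  unfold CST at ht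
  rw [Finset.sum_add_distrib, Finset.sum_sub_distrib, ← Finset.mul_sum, ← Finset.mul_sum,
    ← Finset.mul_sum] at ht
  unfold CSs
  rw [Finset.sum_range_succ _ (n + 2),
    Finset.sum_range_succ _ (n + 1), Finset.sum_range_succ (fun k => CSf k (n + 1 - k)) (n + 1)]
  rw [show n + 2 - (n + 2) = 0 by omega, show n + 2 - (n + 1) = 0 + 1 by omega,
    show n + 1 - (n + 1) = 0 by omega]
  have e1 : CSf (n + 2) 0 = CSf n 0 * (((n : ℝ) + 0 + 1) ^ 2 * (2 * (2 * (n : ℝ) + 1)) / ((n : ℝ) + 1) ^ 3)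
      * (((n : ℝ) + 1 + 0 + 1) ^ 2 * (2 * (2 * ((n : ℝ) + 1) + 1)) / ((n : ℝ) + 1 + 1) ^ 3) := by
    rw [show n + 2 = (n + 1) + 1 by ring, CS_k (n + 1) 0, CS_k n 0]
    push_cast
    ring
  have e2 : CSf (n + 1) (0 + 1) = CSf n 0 * (((n : ℝ) + 0 + 1) ^ 2 * (2 * (2 * (n : ℝ) + 1)) / ((n : ℝ) + 1) ^ 3)
      * (((n : ℝ) + 1 + 0 + 1) ^ 2 / ((0 : ℝ) + 1) ^ 2) := by
    rw [CS_j (n + 1) 0, CS_k n 0]
    push_cast
    ring
  have e3 : CSf (n + 1) 0 = CSf n 0 * (((n : ℝ) + 0 + 1) ^ 2 * (2 * (2 * (n : ℝ) + 1)) / ((n : ℝ) + 1) ^ 3) := by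
    rw [CS_k n 0]
    push_cast
    ring
  rw [e1, e2, e3]
  have hn : ((n : ℝ) + 1) ≠ 0 := by positivity
  have hn2 : ((n : ℝ) + 1 + 1) ≠ 0 := by positivity
  have key : ((n : ℝ) + 2) ^ 2 * (CSf n 0 * (((n : ℝ) + 0 + 1) ^ 2 * (2 * (2 * (n : ℝ) + 1)) / ((n : ℝ) + 1) ^ 3)
      * (((n : ℝ) + 1 + 0 + 1) ^ 2 / ((0 : ℝ) + 1) ^ 2) +
      CSf n 0 * (((n : ℝ) + 0 + 1) ^ 2 * (2 * (2 * (n : ℝ) + 1)) / ((n : ℝ) + 1) ^ 3)
      * (((n : ℝ) + 1 + 0 + 1) ^ 2 * (2 * (2 * ((n : ℝ) + 1) + 1)) / ((n : ℝ) + 1 + 1) ^ 3)) -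
      (10 * ((n : ℝ) + 1) ^ 2 + 10 * ((n : ℝ) + 1) + 3) *
      (CSf n 0 * (((n : ℝ) + 0 + 1) ^ 2 * (2 * (2 * (n : ℝ) + 1)) / ((n : ℝ) + 1) ^ 3)) +
      CSf n 0 * (2 * (2 * (n : ℝ) + 1) * CSp ((n : ℝ) + (0 : ℕ)) ((n : ℝ) + 1) / (((0 : ℕ) : ℝ) + 1) ^ 2) = 0 := by
    unfold CSp
    push_cast
    field_simp
    ring
  rw [← ht] at key
  linear_combination key

theorem cn_rec (n : ℕ) :
    ((n : ℝ) + 2) ^ 3 * (cn (n + 2) : ℝ) -
      2 * (2 * (n : ℝ) + 3) * (10 * ((n : ℝ) + 1) ^ 2 + 10 * ((n : ℝ) + 1) + 3) * (cn (n + 1) : ℝ) +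
      36 * ((n : ℝ) + 1) * (2 * (n : ℝ) + 1) * (2 * (n : ℝ) + 3) * (cn n : ℝ) = 0 := by
  rw [CS_cn, CS_cn, CS_cn]
  have h1 := CS_cb n
  have h2 := CS_cb (n + 1)
  have h3 := CSs_rec n
  have hn : ((n : ℝ) + 1) ≠ 0 := by positivity
  have hn2 : ((n : ℝ) + 2) ≠ 0 := by positivity
  have h1' : (((2 * (n + 1)).choose (n + 1) : ℕ) : ℝ) =
      2 * (2 * (n : ℝ) + 1) * (((2 * n).choose n : ℕ) : ℝ) / ((n : ℝ) + 1) := by
    field_simp
    linarith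
  have h2' : (((2 * (n + 2)).choose (n + 2) : ℕ) : ℝ) =
      2 * (2 * (n : ℝ) + 3) * (((2 * (n + 1)).choose (n + 1) : ℕ) : ℝ) / ((n : ℝ) + 2) := by
    push_cast at h2
    field_simp
    linarith
  rw [h2', h1']
  field_simp
  linear_combination (4 * (2 * (n : ℝ) + 1) * (2 * (n : ℝ) + 3) * (((2 * n).choose n : ℕ) : ℝ)) * h3

theorem cn_le (n : ℕ) : cn n ≤ 36 ^ n := by
  unfold cn
  have h1 : (2 * n).choose n ≤ 4 ^ n := by
    refine (Nat.choose_le_two_pow _ _).trans ?_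
    rw [pow_mul]
    norm_num
  have h2 : ∑ j ∈ Finset.range (n + 1), (n.choose j) ^ 2 * ((2 * j).choose j) ≤
      (∑ j ∈ Finset.range (n + 1), n.choose j * 2 ^ j) ^ 2 := by
    have h3 : ∀ j ∈ Finset.range (n + 1), (n.choose j) ^ 2 * ((2 * j).choose j) ≤
        (n.choose j * 2 ^ j) ^ 2 := by
      intro j _
      rw [mul_pow]
      have h4 : (2 * j).choose j ≤ (2 ^ j) ^ 2 := by
        refine (Nat.choose_le_two_pow _ _).trans ?_
        rw [← pow_mul, mul_comm]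
      gcongr
    refine (Finset.sum_le_sum h3).trans ?_
    exact Finset.sum_sq_le_sq_sum_of_nonneg (fun i _ => Nat.zero_le _)
  have h5 : ∑ j ∈ Finset.range (n + 1), n.choose j * 2 ^ j = 3 ^ n := by
    have h6 := add_pow (2 : ℕ) 1 n
    rw [show (2 : ℕ) + 1 = 3 by norm_num] at h6
    rw [h6]
    refine Finset.sum_congr rfl fun j _ => ?_
    rw [one_pow, Nat.cast_id]
    ring
  rw [h5] at h2
  refine (Nat.mul_le_mul h1 h2).trans ?_
  rw [← pow_mul, mul_comm n 2, pow_mul, ← mul_pow]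
  norm_num

theorem cn_zero : cn 0 = 1 := by
  simp [cn]

theorem cn_one : cn 1 = 6 := by
  simp [cn, Finset.sum_range_succ]

end D8M
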