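import Mathlib
import Pool.Agent.D8W.Defs
import Pool.Agent.D8M.CS

/-!
# D8M/HW: the differential equation of `hW = Σ cn K^n`

Same proof as `Pool/Agent/RV15W/HC.lean` (radius `1/36` instead of `1/16`, coefficients `cn n`): `qd` multiplies the
coefficient of `K^n` by `n`; the coefficient of `K^(n+2)` in the combination is
`(n+2)³ c(n+2) - (40(n+1)³+60(n+1)²+32(n+1)+6) c(n+1) + (144n³+432n²+396n+108) c(n)`, which is `cn_rec`.
-/

set_option autoImplicit false

open MeasureTheory Set Filter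

namespace D8M

open D8W RV15W


/-- sum of the power series with coefficients `a` -/
private noncomputable def HW_P (a : ℕ → ℂ) (T : ℂ) : ℂ := ∑' n : ℕ, a n * T ^ n

/-- radius of convergence at least `1/16` -/
private def HW_good (a : ℕ → ℂ) : Prop :=
  ∀ r : ℝ, 0 < r → r < 1 / 36 → Summable fun n : ℕ => ‖a n‖ * r ^ n

private lemma HW_good_mul {a : ℕ → ℂ} (ha : HW_good a) : HW_good fun n => (n : ℂ) * a n := by
  intro r hr0 hr
  obtain ⟨s, hs1, hs2⟩ := exists_between hr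
  have hs0 : 0 < s := hr0.trans hs1
  have hq0 : 0 ≤ r / s := by positivity
  have hq1 : r / s < 1 := by rw [div_lt_one hs0]; exact hs1
  have h1 : Summable fun n : ℕ => (n : ℝ) ^ 1 * (r / s) ^ n :=
    summable_pow_mul_geometric_of_norm_lt_one 1 (by rw [Real.norm_of_nonneg hq0]; exact hq1)
  have h2 := h1.tendsto_atTop_zero
  have h3 : ∀ᶠ n : ℕ in Filter.atTop, (n : ℝ) ^ 1 * (r / s) ^ n ≤ 1 :=
    h2.eventually_le_const one_pos
  refine Summable.of_norm_bounded_eventually_nat (ha s hs0 hs2) ?_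
  filter_upwards [h3] with n hn
  have h4 : ‖‖(n : ℂ) * a n‖ * r ^ n‖ = (((n : ℝ) ^ 1 * (r / s) ^ n)) * (‖a n‖ * s ^ n) := by
    rw [Real.norm_of_nonneg (by positivity), norm_mul, Complex.norm_natCast, div_pow]
    field_simp
  rw [h4]
  have h5 : 0 ≤ ‖a n‖ * s ^ n := by positivity
  calc ((n : ℝ) ^ 1 * (r / s) ^ n) * (‖a n‖ * s ^ n) ≤ 1 * (‖a n‖ * s ^ n) :=
        mul_le_mul_of_nonneg_right hn h5
    _ = _ := one_mul _

private lemma HW_summable {a : ℕ → ℂ} (ha : HW_good a) {T : ℂ} (hT : ‖T‖ < 1 / 36) :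
    Summable fun n : ℕ => a n * T ^ n := by
  obtain ⟨s, hs1, hs2⟩ := exists_between hT
  have hs0 : 0 < s := (norm_nonneg T).trans_lt hs1
  refine Summable.of_norm_bounded (ha s hs0 hs2) fun n => ?_
  rw [norm_mul, norm_pow]
  gcongr

private lemma HW_hasDeriv {a : ℕ → ℂ} (ha : HW_good a) {T : ℂ} (hT : ‖T‖ < 1 / 36) :
    HasDerivAt (HW_P a) (∑' n : ℕ, a n * ((n : ℂ) * T ^ (n - 1))) T := by
  obtain ⟨s, hs1, hs2⟩ := exists_between hT
  have hs0 : 0 < s := (norm_nonneg T).trans_lt hs1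
  have hu : Summable fun n : ℕ => (1 / s) * (‖(n : ℂ) * a n‖ * s ^ n) :=
    ((HW_good_mul ha) s hs0 hs2).mul_left _
  refine hasDerivAt_tsum_of_isPreconnected (g := fun n T => a n * T ^ n)
    (g' := fun n T => a n * ((n : ℂ) * T ^ (n - 1))) hu Metric.isOpen_ball
    (convex_ball (0 : ℂ) s).isPreconnected ?_ ?_
    (y₀ := T) (by rw [mem_ball_zero_iff]; exact hs1) (HW_summable ha hT)
    (by rw [mem_ball_zero_iff]; exact hs1)
  · intro n y _
    exact (hasDerivAt_pow n y).const_mul (a n)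
  · intro n y hy
    rw [mem_ball_zero_iff] at hy
    rcases Nat.eq_zero_or_pos n with h0 | hpos
    · subst h0
      simp
    · rw [norm_mul, norm_mul, norm_pow, Complex.norm_natCast, norm_mul, Complex.norm_natCast]
      have e1 : s ^ n = s ^ (n - 1) * s := by
        rw [← pow_succ, Nat.sub_add_cancel hpos]
      rw [e1]
      have e2 : 1 / s * ((n : ℝ) * ‖a n‖ * (s ^ (n - 1) * s)) = ‖a n‖ * ((n : ℝ) * s ^ (n - 1)) := by
        field_simp
      rw [e2]
      gcongr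

private lemma HW_qd {a : ℕ → ℂ} (ha : HW_good a) {T : ℂ} (hT : ‖T‖ < 1 / 36) :
    qd (HW_P a) T = HW_P (fun n => (n : ℂ) * a n) T := by
  unfold qd
  rw [(HW_hasDeriv ha hT).deriv, ← tsum_mul_left]
  unfold HW_P
  refine tsum_congr fun n => ?_
  rcases Nat.eq_zero_or_pos n with h0 | hpos
  · subst h0
    simp
  · have e1 : T ^ n = T ^ (n - 1) * T := by
      rw [← pow_succ, Nat.sub_add_cancel hpos]
    rw [e1]
    ring

private lemma HW_qd_congr {f g : ℂ → ℂ} (h : ∀ T : ℂ, ‖T‖ < 1 / 36 → f T = g T) {T : ℂ}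
    (hT : ‖T‖ < 1 / 36) : qd f T = qd g T := by
  unfold qd
  have h1 : f =ᶠ[nhds T] g := by
    have h2 : Metric.ball (0 : ℂ) (1 / 36) ∈ nhds T :=
      Metric.isOpen_ball.mem_nhds (by rw [mem_ball_zero_iff]; exact hT)
    filter_upwards [h2] with y hy
    exact h y (by rwa [mem_ball_zero_iff] at hy)
  rw [h1.deriv_eq]

/-- coefficients of `hW` -/
private noncomputable def HW_a (n : ℕ) : ℂ := (cn n : ℂ)

private lemma HW_hW : hW = HW_P HW_a := rfl

private lemma HW_a_good : HW_good HW_a := by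
  intro r hr0 hr
  have h1 : Summable fun n : ℕ => (36 * r) ^ n :=
    summable_geometric_of_lt_one (by positivity) (by linarith)
  refine Summable.of_nonneg_of_le (fun n => by positivity) (fun n => ?_) h1
  have h2 : ‖HW_a n‖ = (cn n : ℝ) := by
    unfold HW_a
    rw [Complex.norm_natCast]
  rw [h2, mul_pow]
  have h3 : (cn n : ℝ) ≤ 36 ^ n := by exact_mod_cast cn_le n
  gcongr

private lemma HW_split {a : ℕ → ℂ} (ha : HW_good a) {T : ℂ} (hT : ‖T‖ < 1 / 36) :
    HW_P a T = a 0 + T * HW_P (fun n => a (n + 1)) T := by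
  unfold HW_P
  rw [(HW_summable ha hT).tsum_eq_zero_add, pow_zero, mul_one, ← tsum_mul_left]
  congr 1
  refine tsum_congr fun n => ?_
  ring

private lemma HW_good_add {a b : ℕ → ℂ} (ha : HW_good a) (hb : HW_good b) :
    HW_good fun n => a n + b n := by
  intro r hr0 hr
  refine Summable.of_nonneg_of_le (fun n => by positivity) (fun n => ?_)
    ((ha r hr0 hr).add (hb r hr0 hr))
  have := norm_add_le (a n) (b n)
  calc ‖a n + b n‖ * r ^ n ≤ (‖a n‖ + ‖b n‖) * r ^ n := by gcongr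
    _ = _ := by ring

private lemma HW_good_smul {a : ℕ → ℂ} (c : ℂ) (ha : HW_good a) : HW_good fun n => c * a n := by
  intro r hr0 hr
  have h := (ha r hr0 hr).mul_left ‖c‖
  refine h.congr fun n => ?_
  rw [norm_mul]
  ring

private lemma HW_good_shift {a : ℕ → ℂ} (ha : HW_good a) : HW_good fun n => a (n + 1) := by
  intro r hr0 hr
  have h := ((summable_nat_add_iff 1).mpr (ha r hr0 hr)).mul_left (1 / r)
  refine h.congr fun n => ?_
  rw [pow_succ]
  field_simp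

private lemma HW_add {a b : ℕ → ℂ} (ha : HW_good a) (hb : HW_good b) {T : ℂ}
    (hT : ‖T‖ < 1 / 36) : HW_P (fun n => a n + b n) T = HW_P a T + HW_P b T := by
  unfold HW_P
  rw [← (HW_summable ha hT).tsum_add (HW_summable hb hT)]
  refine tsum_congr fun n => ?_
  ring

private lemma HW_smul {a : ℕ → ℂ} (c : ℂ) {T : ℂ} :
    HW_P (fun n => c * a n) T = c * HW_P a T := by
  unfold HW_P
  rw [← tsum_mul_left]
  refine tsum_congr fun n => ?_
  ring

private lemma HW_rec (n : ℕ) :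
    ((n : ℂ) + 2) ^ 3 * HW_a (n + 2) +
      (-40 * ((n : ℂ) + 1) ^ 3 + -60 * ((n : ℂ) + 1) ^ 2 + -32 * ((n : ℂ) + 1) + -6) * HW_a (n + 1) +
      (144 * (n : ℂ) ^ 3 + 432 * (n : ℂ) ^ 2 + 396 * (n : ℂ) + 108) * HW_a n = 0 := by
  have h := cn_rec n
  have h2 : ((n : ℂ) + 2) ^ 3 * (cn (n + 2) : ℂ) -
      2 * (2 * (n : ℂ) + 3) * (10 * ((n : ℂ) + 1) ^ 2 + 10 * ((n : ℂ) + 1) + 3) *
        (cn (n + 1) : ℂ) +
      36 * ((n : ℂ) + 1) * (2 * (n : ℂ) + 1) * (2 * (n : ℂ) + 3) * (cn n : ℂ) = 0 := by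
    exact_mod_cast congrArg (fun x : ℝ => (x : ℂ)) h
  unfold HW_a
  rw [← h2]
  ring

private lemma HW_main {T : ℂ} (hT : ‖T‖ < 1 / 36) :
    (1 - 40 * T + 144 * T ^ 2) * qd (qd (qd hW)) T + (-60 * T + 432 * T ^ 2) * qd (qd hW) T +
      (-32 * T + 396 * T ^ 2) * qd hW T + (-6 * T + 108 * T ^ 2) * hW T = 0 := by
  set a0 : ℕ → ℂ := HW_a with ha0
  set a1 : ℕ → ℂ := fun n => (n : ℂ) * a0 n with ha1
  set a2 : ℕ → ℂ := fun n => (n : ℂ) * a1 n with ha2
  set a3 : ℕ → ℂ := fun n => (n : ℂ) * a2 n with ha3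
  have g0 : HW_good a0 := HW_a_good
  have g1 : HW_good a1 := HW_good_mul g0
  have g2 : HW_good a2 := HW_good_mul g1
  have g3 : HW_good a3 := HW_good_mul g2
  have e1 : ∀ S : ℂ, ‖S‖ < 1 / 36 → qd hW S = HW_P a1 S := fun S hS => by
    rw [HW_hW]; exact HW_qd g0 hS
  have e2 : ∀ S : ℂ, ‖S‖ < 1 / 36 → qd (qd hW) S = HW_P a2 S := fun S hS => by
    rw [HW_qd_congr e1 hS]; exact HW_qd g1 hS
  have e3 : ∀ S : ℂ, ‖S‖ < 1 / 36 → qd (qd (qd hW)) S = HW_P a3 S := fun S hS => by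
    rw [HW_qd_congr e2 hS]; exact HW_qd g2 hS
  rw [e3 T hT, e2 T hT, e1 T hT, HW_hW]
  -- the two combinations
  have gB : HW_good fun n => (-40 * a3 n + -60 * a2 n) + (-32 * a1 n + -6 * a0 n) :=
    HW_good_add (HW_good_add (HW_good_smul (-40) g3) (HW_good_smul (-60) g2))
      (HW_good_add (HW_good_smul (-32) g1) (HW_good_smul (-6) g0))
  have gC : HW_good fun n => (144 * a3 n + 432 * a2 n) + (396 * a1 n + 108 * a0 n) :=
    HW_good_add (HW_good_add (HW_good_smul 144 g3) (HW_good_smul 432 g2))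
      (HW_good_add (HW_good_smul 396 g1) (HW_good_smul 108 g0))
  have hB : HW_P (fun n => (-40 * a3 n + -60 * a2 n) + (-32 * a1 n + -6 * a0 n)) T =
      -40 * HW_P a3 T + -60 * HW_P a2 T + -32 * HW_P a1 T + -6 * HW_P a0 T := by
    rw [HW_add (HW_good_add (HW_good_smul (-40) g3) (HW_good_smul (-60) g2))
      (HW_good_add (HW_good_smul (-32) g1) (HW_good_smul (-6) g0)) hT,
      HW_add (HW_good_smul (-40) g3) (HW_good_smul (-60) g2) hT,
      HW_add (HW_good_smul (-32) g1) (HW_good_smul (-6) g0) hT, HW_smul, HW_smul, HW_smul, HW_smul]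
    ring
  have hWc : HW_P (fun n => (144 * a3 n + 432 * a2 n) + (396 * a1 n + 108 * a0 n)) T =
      144 * HW_P a3 T + 432 * HW_P a2 T + 396 * HW_P a1 T + 108 * HW_P a0 T := by
    rw [HW_add (HW_good_add (HW_good_smul 144 g3) (HW_good_smul 432 g2))
      (HW_good_add (HW_good_smul 396 g1) (HW_good_smul 108 g0)) hT,
      HW_add (HW_good_smul 144 g3) (HW_good_smul 432 g2) hT,
      HW_add (HW_good_smul 396 g1) (HW_good_smul 108 g0) hT, HW_smul, HW_smul, HW_smul, HW_smul]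
    ring
  have s3 : HW_P a3 T = a3 0 + T * (a3 1 + T * HW_P (fun n => a3 (n + 1 + 1)) T) := by
    rw [HW_split g3 hT, HW_split (HW_good_shift g3) hT]
  have sB := HW_split gB hT
  rw [hB] at sB
  have key : (1 - 40 * T + 144 * T ^ 2) * HW_P a3 T + (-60 * T + 432 * T ^ 2) * HW_P a2 T +
      (-32 * T + 396 * T ^ 2) * HW_P a1 T + (-6 * T + 108 * T ^ 2) * HW_P a0 T =
      HW_P a3 T + T * (-40 * HW_P a3 T + -60 * HW_P a2 T + -32 * HW_P a1 T + -6 * HW_P a0 T) +
      T ^ 2 * (144 * HW_P a3 T + 432 * HW_P a2 T + 396 * HW_P a1 T + 108 * HW_P a0 T) := by ring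
  rw [key, sB, ← hWc, s3]
  have hz : HW_P (fun n => a3 (n + 1 + 1)) T +
      HW_P (fun n => (-40 * a3 (n + 1) + -60 * a2 (n + 1)) + (-32 * a1 (n + 1) + -6 * a0 (n + 1))) T +
      HW_P (fun n => (144 * a3 n + 432 * a2 n) + (396 * a1 n + 108 * a0 n)) T = 0 := by
    rw [← HW_add (HW_good_shift (HW_good_shift g3)) (HW_good_shift gB) hT,
      ← HW_add (HW_good_add (HW_good_shift (HW_good_shift g3)) (HW_good_shift gB)) gC hT]
    unfold HW_P
    rw [← tsum_zero (α := ℂ) (β := ℕ)]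
    refine tsum_congr fun n => ?_
    have h := HW_rec n
    have h4 : (a3 (n + 1 + 1) + ((-40 * a3 (n + 1) + -60 * a2 (n + 1)) +
        (-32 * a1 (n + 1) + -6 * a0 (n + 1)))) +
        ((144 * a3 n + 432 * a2 n) + (396 * a1 n + 108 * a0 n)) = 0 := by
      simp only [ha3, ha2, ha1, ha0]
      rw [← h]
      push_cast
      ring
    beta_reduce
    rw [h4, zero_mul]
  have h0 : a3 0 = 0 := by simp [ha3]
  have h1 : a3 1 + ((-40 * a3 0 + -60 * a2 0) + (-32 * a1 0 + -6 * a0 0)) = 0 := by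
    simp only [ha3, ha2, ha1, ha0, HW_a, cn_zero, cn_one]
    norm_num
  have fin : a3 0 + T * (a3 1 + T * HW_P (fun n => a3 (n + 1 + 1)) T) +
      T * (((-40 * a3 0 + -60 * a2 0) + (-32 * a1 0 + -6 * a0 0)) + T * HW_P (fun n =>
        (-40 * a3 (n + 1) + -60 * a2 (n + 1)) + (-32 * a1 (n + 1) + -6 * a0 (n + 1))) T) +
      T ^ 2 * HW_P (fun n => (144 * a3 n + 432 * a2 n) + (396 * a1 n + 108 * a0 n)) T =
      a3 0 + T * (a3 1 + ((-40 * a3 0 + -60 * a2 0) + (-32 * a1 0 + -6 * a0 0))) +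
      T ^ 2 * (HW_P (fun n => a3 (n + 1 + 1)) T +
      HW_P (fun n => (-40 * a3 (n + 1) + -60 * a2 (n + 1)) + (-32 * a1 (n + 1) + -6 * a0 (n + 1))) T +
      HW_P (fun n => (144 * a3 n + 432 * a2 n) + (396 * a1 n + 108 * a0 n)) T) := by ring
  rw [fin, hz, h1, h0]
  ring

theorem hW_ode : ∀ᶠ T in nhds (0 : ℂ),
    (1 - 40 * T + 144 * T ^ 2) * qd (qd (qd hW)) T + (-60 * T + 432 * T ^ 2) * qd (qd hW) T +
      (-32 * T + 396 * T ^ 2) * qd hW T + (-6 * T + 108 * T ^ 2) * hW T = 0 := by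
  filter_upwards [Metric.ball_mem_nhds (0 : ℂ) (by norm_num : (0 : ℝ) < 1 / 36)] with T hT
  rw [mem_ball_zero_iff] at hT
  exact HW_main hT

theorem hW_diff : DifferentiableOn ℂ hW (Metric.ball 0 (1 / 36)) := by
  intro T hT
  rw [mem_ball_zero_iff] at hT
  rw [HW_hW]
  exact (HW_hasDeriv HW_a_good hT).differentiableAt.differentiableWithinAt

theorem hW_zero : hW 0 = 1 := by
  have h := HW_split HW_a_good (T := 0) (by rw [norm_zero]; norm_num)
  rw [HW_hW, h, zero_mul, add_zero]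
  simp [HW_a, cn_zero]

end D8M
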