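import Mathlib
import Pool.Agent.D8W.Defs
import Pool.Agent.RV15W.BasA
import Pool.Agent.RV15W.Alg
import Pool.Agent.RV15W.QE
import Pool.Agent.D8M.KD

/-!
# D8M/KO: the differential equation of `x z` in `K`

Same proof as `Pool/Agent/RV15W/ZOde.lean` (copy its private calculus `HD` and the three basic derivatives `hx`, `hz`, `hp`): with
`x = ca q`, `z = ca (q²)`, `p = PP (q²)`, `D = qd`: `6 Dx = x p + 2x²z + xz² - 4z³`, `6 Dz = z p + z³ + x³ - 3xz²`,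
`6 Dp = p² - 5z⁴ - 2x³z + 6xz³`; `dK f = 3xz/(4z⁴-x⁴) · D f`, `Kq = (4z²-x²)(x²-z²)/(36x²z²)`. Near `q = 0` the functions
`x, z, 4z⁴-x⁴` do not vanish. Compute `dK xz`, `dK (dK xz)`, `dK (dK (dK xz))` as explicit rational functions of `x, z, p` (each
equality holds near `0`, so it can be differentiated), then `field_simp; ring`. Checked by `q`-expansion.
Note `1 - 40K + 144K² = ((4z⁴-x⁴)/(3x²z²))²`.
-/

set_option autoImplicit false

open MeasureTheory Set Filter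

namespace D8M

open D8W RV15W

/-- `f` has the logarithmic derivative value `v` at `q` -/
private def HD (f : ℂ → ℂ) (v q : ℂ) : Prop := ∃ f' : ℂ, HasDerivAt f f' q ∧ q * f' = v

private theorem HD.qd {f : ℂ → ℂ} {v q : ℂ} (h : HD f v q) : qd f q = v := by
  obtain ⟨f', h1, h2⟩ := h
  unfold RV15W.qd
  rw [h1.deriv, h2]

private theorem HD.of_diff {f : ℂ → ℂ} {q : ℂ} (h : DifferentiableAt ℂ f q) :
    HD f (RV15W.qd f q) q := ⟨deriv f q, h.hasDerivAt, rfl⟩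

private theorem HD.add {f g : ℂ → ℂ} {u v q : ℂ} (hf : HD f u q) (hg : HD g v q) :
    HD (fun r => f r + g r) (u + v) q := by
  obtain ⟨f', h1, h2⟩ := hf
  obtain ⟨g', h3, h4⟩ := hg
  exact ⟨f' + g', h1.add h3, by rw [← h2, ← h4]; ring⟩

private theorem HD.sub {f g : ℂ → ℂ} {u v q : ℂ} (hf : HD f u q) (hg : HD g v q) :
    HD (fun r => f r - g r) (u - v) q := by
  obtain ⟨f', h1, h2⟩ := hf
  obtain ⟨g', h3, h4⟩ := hg
  exact ⟨f' - g', h1.sub h3, by rw [← h2, ← h4]; ring⟩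

private theorem HD.mul {f g : ℂ → ℂ} {u v q : ℂ} (hf : HD f u q) (hg : HD g v q) :
    HD (fun r => f r * g r) (u * g q + f q * v) q := by
  obtain ⟨f', h1, h2⟩ := hf
  obtain ⟨g', h3, h4⟩ := hg
  exact ⟨f' * g q + f q * g', h1.mul h3, by rw [← h2, ← h4]; ring⟩

private theorem HD.cmul {f : ℂ → ℂ} {u q : ℂ} (c : ℂ) (hf : HD f u q) :
    HD (fun r => c * f r) (c * u) q := by
  obtain ⟨f', h1, h2⟩ := hf
  exact ⟨c * f', h1.const_mul c, by rw [← h2]; ring⟩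

private theorem HD.pow {f : ℂ → ℂ} {u q : ℂ} (hf : HD f u q) (n : ℕ) :
    HD (fun r => f r ^ (n + 1)) ((n + 1) * f q ^ n * u) q := by
  obtain ⟨f', h1, h2⟩ := hf
  refine ⟨_, h1.pow (n + 1), ?_⟩
  rw [← h2]
  simp only [Nat.add_sub_cancel, Nat.cast_add, Nat.cast_one]
  ring

private theorem HD.div {f g : ℂ → ℂ} {u v q : ℂ} (hf : HD f u q) (hg : HD g v q)
    (h0 : g q ≠ 0) :
    HD (fun r => f r / g r) ((u * g q - f q * v) / g q ^ 2) q := by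
  obtain ⟨f', h1, h2⟩ := hf
  obtain ⟨g', h3, h4⟩ := hg
  exact ⟨_, h1.div h3 h0, by rw [← h2, ← h4]; ring⟩

private theorem HD.congr {f g : ℂ → ℂ} {u q : ℂ} (hf : HD f u q) (h : g =ᶠ[nhds q] f) :
    HD g u q := by
  obtain ⟨f', h1, h2⟩ := hf
  exact ⟨f', h1.congr_of_eventuallyEq h, h2⟩

private theorem sq_lt {q : ℂ} (hq : ‖q‖ < 1) : ‖q ^ 2‖ < 1 := by
  rw [norm_pow]
  exact pow_lt_one₀ (norm_nonneg _) hq two_ne_zero

private theorem hx {q : ℂ} (hq : ‖q‖ < 1) :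
    HD ca ((ca q * PP (q ^ 2) + 2 * ca q ^ 2 * ca (q ^ 2) + ca q * ca (q ^ 2) ^ 2 -
      4 * ca (q ^ 2) ^ 3) / 6) q := by
  have h := HD.of_diff (f := ca) (q := q)
    (ca_diff.differentiableAt (Metric.isOpen_ball.mem_nhds (by
      rw [Metric.mem_ball, dist_zero_right]; exact hq)))
  have h1 := dx hq
  have h2 := P2 hq
  have h3 : RV15W.qd ca q = (ca q * PP (q ^ 2) + 2 * ca q ^ 2 * ca (q ^ 2) +
      ca q * ca (q ^ 2) ^ 2 - 4 * ca (q ^ 2) ^ 3) / 6 := by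
    linear_combination h1 / 12 - ca q * h2 / 12
  rw [h3] at h
  exact h

private theorem hz {q : ℂ} (hq : ‖q‖ < 1) :
    HD (fun r => ca (r ^ 2)) ((ca (q ^ 2) * PP (q ^ 2) + ca (q ^ 2) ^ 3 + ca q ^ 3 -
      3 * ca q * ca (q ^ 2) ^ 2) / 6) q := by
  have hd : DifferentiableAt ℂ (fun r : ℂ => ca (r ^ 2)) q := by
    have h1 : DifferentiableAt ℂ ca (q ^ 2) :=
      ca_diff.differentiableAt (Metric.isOpen_ball.mem_nhds (by
        rw [Metric.mem_ball, dist_zero_right]; exact sq_lt hq))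
    have h2 : DifferentiableAt ℂ (fun r : ℂ => r ^ 2) q := differentiableAt_pow 2
    exact DifferentiableAt.comp (g := ca) (f := fun r : ℂ => r ^ 2) q h1 h2
  have h := HD.of_diff hd
  have h1 := dz hq
  have h3 : RV15W.qd (fun r => ca (r ^ 2)) q = (ca (q ^ 2) * PP (q ^ 2) + ca (q ^ 2) ^ 3 +
      ca q ^ 3 - 3 * ca q * ca (q ^ 2) ^ 2) / 6 := by
    linear_combination h1 / 12
  rw [h3] at h
  exact h

private theorem hp {q : ℂ} (hq : ‖q‖ < 1) :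
    HD (fun r => PP (r ^ 2)) ((PP (q ^ 2) ^ 2 - 5 * ca (q ^ 2) ^ 4 -
      2 * ca q ^ 3 * ca (q ^ 2) + 6 * ca q * ca (q ^ 2) ^ 3) / 6) q := by
  have hd : DifferentiableAt ℂ (fun r : ℂ => PP (r ^ 2)) q := by
    have h1 : DifferentiableAt ℂ PP (q ^ 2) :=
      PP_diff.differentiableAt (Metric.isOpen_ball.mem_nhds (by
        rw [Metric.mem_ball, dist_zero_right]; exact sq_lt hq))
    have h2 : DifferentiableAt ℂ (fun r : ℂ => r ^ 2) q := differentiableAt_pow 2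
    exact DifferentiableAt.comp (g := PP) (f := fun r : ℂ => r ^ 2) q h1 h2
  have h := HD.of_diff hd
  have h1 := dP2 hq
  have h3 : RV15W.qd (fun r => PP (r ^ 2)) q = (PP (q ^ 2) ^ 2 - 5 * ca (q ^ 2) ^ 4 -
      2 * ca q ^ 3 * ca (q ^ 2) + 6 * ca q * ca (q ^ 2) ^ 3) / 6 := by
    linear_combination h1 / 6
  rw [h3] at h
  exact h

/-- the good neighbourhood of `0` -/
private theorem good : ∀ᶠ q in nhds (0 : ℂ), ‖q‖ < 1 ∧ ca q ≠ 0 ∧ ca (q ^ 2) ≠ 0 := by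
  have hc : ContinuousAt ca 0 :=
    (ca_diff.differentiableAt (Metric.isOpen_ball.mem_nhds (by simp))).continuousAt
  have h1 : ∀ᶠ q in nhds (0 : ℂ), ‖q‖ < 1 := by
    filter_upwards [Metric.ball_mem_nhds (0 : ℂ) one_pos] with q hq
    rw [Metric.mem_ball, dist_zero_right] at hq
    exact hq
  have h2 : ∀ᶠ q in nhds (0 : ℂ), ca q ≠ 0 :=
    hc.eventually_ne (by rw [ca_zero]; exact one_ne_zero)
  have h3 : ∀ᶠ q in nhds (0 : ℂ), ca (q ^ 2) ≠ 0 := by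
    have hs : Filter.Tendsto (fun q : ℂ => q ^ 2) (nhds 0) (nhds 0) := by
      have := (continuous_pow 2 (M := ℂ)).tendsto 0
      simpa using this
    exact hs.eventually h2
  filter_upwards [h1, h2, h3] with q a b c
  exact ⟨a, b, c⟩


private noncomputable def sP (x z p : ℂ) : ℂ := p + z ^ 2 - 2 * (x * z)

private noncomputable def uP (x z p : ℂ) : ℂ :=
  2 * (x * z) * sP x z p + (x ^ 2 - z ^ 2) * (x ^ 2 + 4 * z ^ 2)

private noncomputable def MP (x z p : ℂ) : ℂ :=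
  (4 * z ^ 4 - x ^ 4) * (uP x z p ^ 2 - (x * z) * (uP x z p * sP x z p) +
    3 * ((x * z) * (((x ^ 2 - z ^ 2) * (x ^ 2 + 4 * z ^ 2)) * sP x z p)) +
    18 * ((x * z) ^ 2 * ((x ^ 2 - z ^ 2) * x ^ 2))) +
  16 * (((x * z) ^ 2 * (x ^ 2 - z ^ 2) ^ 2) * uP x z p)

private noncomputable def R1 (x z p : ℂ) : ℂ := (x * z) * uP x z p / (2 * (4 * z ^ 4 - x ^ 4))

private noncomputable def R2 (x z p : ℂ) : ℂ := (x * z) * MP x z p / (4 * (4 * z ^ 4 - x ^ 4) ^ 3)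

private theorem hS {q : ℂ} (hq : ‖q‖ < 1) :
    HD (fun r => sP (ca r) (ca (r ^ 2)) (PP (r ^ 2)))
      ((sP (ca q) (ca (q ^ 2)) (PP (q ^ 2)) ^ 2 -
        2 * (ca q ^ 2 - ca (q ^ 2) ^ 2) * (2 * ca (q ^ 2) ^ 2 + ca q ^ 2)) / 6) q := by
  have h := ((hp hq).add ((hz hq).pow 1)).sub (((hx hq).mul (hz hq)).cmul 2)
  unfold sP
  convert h using 1
  push_cast
  ring

private theorem hW {q : ℂ} (hq : ‖q‖ < 1) :
    HD (fun r => ca r * ca (r ^ 2)) (uP (ca q) (ca (q ^ 2)) (PP (q ^ 2)) / 6) q := by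
  have h := (hx hq).mul (hz hq)
  convert h using 1
  unfold uP sP
  ring

private theorem hA {q : ℂ} (hq : ‖q‖ < 1) :
    HD (fun r => ca r ^ 2 - ca (r ^ 2) ^ 2)
      ((ca q ^ 2 - ca (q ^ 2) ^ 2) *
        (sP (ca q) (ca (q ^ 2)) (PP (q ^ 2)) + 3 * (ca q * ca (q ^ 2))) / 3) q := by
  have h := ((hx hq).pow 1).sub ((hz hq).pow 1)
  convert h using 1
  unfold sP
  push_cast
  ring

private theorem hB {q : ℂ} (hq : ‖q‖ < 1) :
    HD (fun r => ca r ^ 2 + 4 * ca (r ^ 2) ^ 2)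
      ((2 * (ca q ^ 2 + 4 * ca (q ^ 2) ^ 2) * sP (ca q) (ca (q ^ 2)) (PP (q ^ 2)) +
        16 * (ca q * ca (q ^ 2)) * (ca q ^ 2 - ca (q ^ 2) ^ 2)) / 6) q := by
  have h := ((hx hq).pow 1).add (((hz hq).pow 1).cmul 4)
  convert h using 1
  unfold sP
  push_cast
  ring

private theorem hD {q : ℂ} (hq : ‖q‖ < 1) :
    HD (fun r => 4 * ca (r ^ 2) ^ 4 - ca r ^ 4)
      ((4 * sP (ca q) (ca (q ^ 2)) (PP (q ^ 2)) * (4 * ca (q ^ 2) ^ 4 - ca q ^ 4) -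
        16 * (ca q * ca (q ^ 2)) * (ca q ^ 2 - ca (q ^ 2) ^ 2) ^ 2) / 6) q := by
  have h := (((hz hq).pow 3).cmul 4).sub ((hx hq).pow 3)
  convert h using 1
  unfold sP
  push_cast
  ring

private theorem hU {q : ℂ} (hq : ‖q‖ < 1) :
    HD (fun r => uP (ca r) (ca (r ^ 2)) (PP (r ^ 2)))
      ((3 * uP (ca q) (ca (q ^ 2)) (PP (q ^ 2)) * sP (ca q) (ca (q ^ 2)) (PP (q ^ 2)) +
        3 * ((ca q ^ 2 - ca (q ^ 2) ^ 2) * (ca q ^ 2 + 4 * ca (q ^ 2) ^ 2)) *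
          sP (ca q) (ca (q ^ 2)) (PP (q ^ 2)) +
        18 * (ca q * ca (q ^ 2)) * (ca q ^ 2 - ca (q ^ 2) ^ 2) * ca q ^ 2) / 6) q := by
  have h := (((hW hq).cmul 2).mul (hS hq)).add ((hA hq).mul (hB hq))
  have h2 : HD (fun r => uP (ca r) (ca (r ^ 2)) (PP (r ^ 2))) _ q :=
    h.congr (Filter.Eventually.of_forall fun r => by simp only [uP])
  convert h2 using 1
  unfold uP
  ring

private theorem step1 {q : ℂ} (hq : ‖q‖ < 1) :
    dK xz q = R1 (ca q) (ca (q ^ 2)) (PP (q ^ 2)) := by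
  have h : HD xz _ q := (hW hq).congr (Filter.Eventually.of_forall fun r => by
    unfold xz
    ring)
  have h2 := h.qd
  unfold RV15W.qd at h2
  unfold dK gK R1
  rw [h2]
  by_cases hd : 4 * ca (q ^ 2) ^ 4 - ca q ^ 4 = 0
  · rw [hd]; simp
  · field_simp
    ring

private theorem step2 {q : ℂ} (hq : ‖q‖ < 1) (hd : 4 * ca (q ^ 2) ^ 4 - ca q ^ 4 ≠ 0)
    (he : dK xz =ᶠ[nhds q] fun r => R1 (ca r) (ca (r ^ 2)) (PP (r ^ 2))) :
    dK (dK xz) q = R2 (ca q) (ca (q ^ 2)) (PP (q ^ 2)) := by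
  have h0 := ((hW hq).mul (hU hq)).div ((hD hq).cmul 2) (mul_ne_zero two_ne_zero hd)
  have h : HD (dK xz) _ q := h0.congr (he.trans (Filter.Eventually.of_forall fun r => by
    simp only [R1]))
  have h2 := h.qd
  unfold RV15W.qd at h2
  have h3 : dK (dK xz) q = gK q * (q * deriv (dK xz) q) := rfl
  rw [h3, h2]
  unfold gK R2 MP
  generalize uP (ca q) (ca (q ^ 2)) (PP (q ^ 2)) = u at *
  generalize sP (ca q) (ca (q ^ 2)) (PP (q ^ 2)) = s at *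
  generalize ca (q ^ 2) = z at *
  generalize ca q = x at *
  generalize hdd : 4 * z ^ 4 - x ^ 4 = d at *
  field_simp
  ring

/-- the good neighbourhood for the denominator -/
private theorem goodD : ∀ᶠ q in nhds (0 : ℂ), 4 * ca (q ^ 2) ^ 4 - ca q ^ 4 ≠ 0 := by
  have h0 : ContinuousAt ca (0 : ℂ) :=
    (ca_diff.differentiableAt (Metric.isOpen_ball.mem_nhds (by simp))).continuousAt
  have h1 : ContinuousAt ca ((0 : ℂ) ^ 2) := by
    rw [zero_pow two_ne_zero]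
    exact h0
  have h2 : ContinuousAt (fun q : ℂ => ca (q ^ 2)) 0 :=
    ContinuousAt.comp (g := ca) (f := fun q : ℂ => q ^ 2) h1 (continuous_pow 2).continuousAt
  have h3 : ContinuousAt (fun q : ℂ => 4 * ca (q ^ 2) ^ 4 - ca q ^ 4) 0 :=
    (continuousAt_const.mul (h2.pow 4)).sub (h0.pow 4)
  exact h3.eventually_ne (by simp [ca_zero]; norm_num)

private theorem step3 {q : ℂ} (hq : ‖q‖ < 1) (h1 : ca q ≠ 0) (h2 : ca (q ^ 2) ≠ 0)
    (hd : 4 * ca (q ^ 2) ^ 4 - ca q ^ 4 ≠ 0)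
    (he : dK (dK xz) =ᶠ[nhds q] fun r => R2 (ca r) (ca (r ^ 2)) (PP (r ^ 2))) :
    (1 - 40 * Kq q + 144 * Kq q ^ 2) * dK (dK (dK xz)) q +
      (-60 * Kq q + 432 * Kq q ^ 2) * R2 (ca q) (ca (q ^ 2)) (PP (q ^ 2)) +
      (-32 * Kq q + 396 * Kq q ^ 2) * R1 (ca q) (ca (q ^ 2)) (PP (q ^ 2)) +
      (-6 * Kq q + 108 * Kq q ^ 2) * xz q = 0 := by
  have hM := ((hD hq).mul (((((hU hq).pow 1).sub ((hW hq).mul ((hU hq).mul (hS hq)))).add
    (((hW hq).mul (((hA hq).mul (hB hq)).mul (hS hq))).cmul 3)).add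
    ((((hW hq).pow 1).mul ((hA hq).mul ((hx hq).pow 1))).cmul 18))).add
    (((((hW hq).pow 1).mul ((hA hq).pow 1)).mul (hU hq)).cmul 16)
  have h0 := ((hW hq).mul hM).div (((hD hq).pow 2).cmul 4)
    (mul_ne_zero (by norm_num) (pow_ne_zero _ hd))
  have h : HD (dK (dK xz)) _ q := h0.congr (he.trans (Filter.Eventually.of_forall fun r => by
    simp only [R2, MP]))
  have h4 := h.qd
  unfold RV15W.qd at h4
  have h3 : dK (dK (dK xz)) q = gK q * (q * deriv (dK (dK xz)) q) := rfl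
  rw [h3, h4]
  clear h3 h4 h h0 hM he
  unfold gK R2 R1 MP Kq xz uP sP
  generalize ca (q ^ 2) = z at *
  generalize ca q = x at *
  generalize PP (q ^ 2) = p at *
  obtain ⟨s, hs⟩ : ∃ s : ℂ, s = p + z ^ 2 - 2 * (x * z) := ⟨_, rfl⟩
  have hp : p = s - z ^ 2 + 2 * (x * z) := by
    rw [hs]
    ring
  rw [← hs]
  obtain ⟨d, hdd⟩ : ∃ d : ℂ, d = 4 * z ^ 4 - x ^ 4 := ⟨_, rfl⟩
  rw [← hdd] at hd ⊢
  clear hs
  rw [hp]
  push_cast
  field_simp
  rw [hdd]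
  ring

theorem xz_ode : ∀ᶠ q in nhds (0 : ℂ),
    (1 - 40 * Kq q + 144 * Kq q ^ 2) * dK (dK (dK xz)) q +
      (-60 * Kq q + 432 * Kq q ^ 2) * dK (dK xz) q +
      (-32 * Kq q + 396 * Kq q ^ 2) * dK xz q + (-6 * Kq q + 108 * Kq q ^ 2) * xz q = 0 := by
  have e1 : ∀ᶠ q in nhds (0 : ℂ), dK xz q = R1 (ca q) (ca (q ^ 2)) (PP (q ^ 2)) := by
    filter_upwards [good] with q ⟨a, b, c⟩
    exact step1 a
  have e2 : ∀ᶠ q in nhds (0 : ℂ), dK (dK xz) q = R2 (ca q) (ca (q ^ 2)) (PP (q ^ 2)) := by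
    filter_upwards [good, goodD, eventually_eventually_nhds.2 e1] with q ⟨a, b, c⟩ d h
    exact step2 a d h
  filter_upwards [good, goodD, e1, e2, eventually_eventually_nhds.2 e2] with q ⟨a, b, c⟩ d h1 h2 h
  rw [h1, h2]
  exact step3 a b c d h

end D8M
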