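import Mathlib
import Pool.Agent.D8W.Defs
import Pool.Agent.RV15W.Uniq
import Pool.Agent.D8M.KD
import Pool.Agent.D8M.KO
import Pool.Agent.D8M.HW

/-!
# D8M/KZ: `hW (Kq q) = ca q ca (q²)` near `q = 0`

Copy `Pool/Agent/RV15W/ZD.lean`: chain rule `dK (f ∘ Kq) = (qd f) ∘ Kq` near `0` (`dKq`), so `hW ∘ Kq` satisfies the equation of
`xz_ode` (`hW_ode`); `y = xz - hW ∘ Kq`, `y(0) = 0`; `RV15W.uniq` with `g = gK`, `D = dK`.
-/

set_option autoImplicit false

open MeasureTheory Set Filter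

namespace D8M

open D8W RV15W

private theorem KZ_congr {f g : ℂ → ℂ} (h : f =ᶠ[nhds 0] g) : dK f =ᶠ[nhds 0] dK g := by
  filter_upwards [h.deriv] with q hq
  unfold dK
  rw [hq]

private theorem KZ_lim : Tendsto Kq (nhds 0) (nhds 0) := by
  have h := Kq_an.continuousAt.tendsto
  rwa [Kq_zero] at h

private theorem KZ_chain {f : ℂ → ℂ} (hf : AnalyticAt ℂ f 0) :
    dK (f ∘ Kq) =ᶠ[nhds 0] (qd f) ∘ Kq := by
  have h1 := KZ_lim.eventually hf.eventually_analyticAt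
  filter_upwards [h1, Kq_an.eventually_analyticAt, dKq] with q hq hK h2
  have hd : deriv (f ∘ Kq) q = deriv f (Kq q) * deriv Kq q :=
    deriv_comp q hq.differentiableAt hK.differentiableAt
  show gK q * (q * deriv (f ∘ Kq) q) = Kq q * deriv f (Kq q)
  unfold dK at h2
  rw [hd]
  calc gK q * (q * (deriv f (Kq q) * deriv Kq q)) =
      gK q * (q * deriv Kq q) * deriv f (Kq q) := by ring
    _ = _ := by rw [h2]

private theorem KZ_qdan {f : ℂ → ℂ} (hf : AnalyticAt ℂ f 0) : AnalyticAt ℂ (qd f) 0 :=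
  analyticAt_id.mul hf.deriv

private theorem KZ_dKan {f : ℂ → ℂ} (hf : AnalyticAt ℂ f 0) : AnalyticAt ℂ (dK f) 0 :=
  gK_an.mul (KZ_qdan hf)

private theorem KZ_sub {f g : ℂ → ℂ} (hf : AnalyticAt ℂ f 0) (hg : AnalyticAt ℂ g 0) :
    dK (f - g) =ᶠ[nhds 0] dK f - dK g := by
  filter_upwards [hf.eventually_analyticAt, hg.eventually_analyticAt] with q h1 h2
  show gK q * (q * deriv (f - g) q) = gK q * (q * deriv f q) - gK q * (q * deriv g q)
  rw [deriv_sub h1.differentiableAt h2.differentiableAt]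
  ring

theorem KZ : ∀ᶠ q in nhds (0 : ℂ), hW (Kq q) = xz q := by
  have hCan : AnalyticAt ℂ hW 0 :=
    hW_diff.analyticAt (Metric.ball_mem_nhds _ (by norm_num))
  have hZan : AnalyticAt ℂ xz 0 := xz_an (by simp)
  have hHan : AnalyticAt ℂ (hW ∘ Kq) 0 := by
    have h2 : AnalyticAt ℂ hW (Kq 0) := by rw [Kq_zero]; exact hCan
    exact h2.comp Kq_an
  -- the equation of `hW ∘ Kq`
  have e1 : dK (hW ∘ Kq) =ᶠ[nhds 0] (qd hW) ∘ Kq := KZ_chain hCan
  have e2 : dK (dK (hW ∘ Kq)) =ᶠ[nhds 0] (qd (qd hW)) ∘ Kq :=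
    (KZ_congr e1).trans (KZ_chain (KZ_qdan hCan))
  have e3 : dK (dK (dK (hW ∘ Kq))) =ᶠ[nhds 0] (qd (qd (qd hW))) ∘ Kq :=
    (KZ_congr e2).trans (KZ_chain (KZ_qdan (KZ_qdan hCan)))
  have hode := KZ_lim.eventually hW_ode
  -- differences
  have d1 : dK (xz - hW ∘ Kq) =ᶠ[nhds 0] dK xz - dK (hW ∘ Kq) := KZ_sub hZan hHan
  have d2 : dK (dK (xz - hW ∘ Kq)) =ᶠ[nhds 0] dK (dK xz) - dK (dK (hW ∘ Kq)) :=
    (KZ_congr d1).trans (KZ_sub (KZ_dKan hZan) (KZ_dKan hHan))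
  have d3 : dK (dK (dK (xz - hW ∘ Kq))) =ᶠ[nhds 0]
      dK (dK (dK xz)) - dK (dK (dK (hW ∘ Kq))) :=
    (KZ_congr d2).trans (KZ_sub (KZ_dKan (KZ_dKan hZan)) (KZ_dKan (KZ_dKan hHan)))
  have hcont : Tendsto (fun q => 1 - 40 * Kq q + 144 * Kq q ^ 2) (nhds 0) (nhds 1) := by
    have h := ((tendsto_const_nhds (x := (1 : ℂ))).sub (KZ_lim.const_mul 40)).add
      ((KZ_lim.pow 2).const_mul 144)
    simpa using h
  have hne : ∀ᶠ q in nhds (0 : ℂ), 1 - 40 * Kq q + 144 * Kq q ^ 2 ≠ 0 :=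
    hcont.eventually_ne one_ne_zero
  have lim : ∀ a b : ℂ, Tendsto (fun q => -((a * Kq q + b * Kq q ^ 2) /
      (1 - 40 * Kq q + 144 * Kq q ^ 2))) (nhdsWithin 0 {0}ᶜ) (nhds 0) := by
    intro a b
    have h1 : Tendsto (fun q => a * Kq q + b * Kq q ^ 2) (nhds 0) (nhds 0) := by
      have h := (KZ_lim.const_mul a).add ((KZ_lim.pow 2).const_mul b)
      simpa using h
    have h2 := (h1.div hcont one_ne_zero).neg
    simp only [zero_div, neg_zero] at h2
    exact h2.mono_left nhdsWithin_le_nhds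
  have hfin := uniq (g := gK) (y := xz - hW ∘ Kq)
    (A2 := fun q => -((-60 * Kq q + 432 * Kq q ^ 2) / (1 - 40 * Kq q + 144 * Kq q ^ 2)))
    (A1 := fun q => -((-32 * Kq q + 396 * Kq q ^ 2) / (1 - 40 * Kq q + 144 * Kq q ^ 2)))
    (A0 := fun q => -((-6 * Kq q + 108 * Kq q ^ 2) / (1 - 40 * Kq q + 144 * Kq q ^ 2)))
    gK_an gK_zero (hZan.sub hHan)
    (by
      show xz 0 - hW (Kq 0) = 0
      rw [Kq_zero, hW_zero, xz_zero, sub_self])
    (lim (-60) 432) (lim (-32) 396) (lim (-6) 108) dK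
    (by
      intro f q
      rfl)
    (by
      refine nhdsWithin_le_nhds ?_
      filter_upwards [xz_ode, hode, hne, e1, e2, e3, d1, d2, d3] with q hz hh hn a1 a2 a3 b1 b2 b3
      rw [b1, b2, b3]
      simp only [Pi.sub_apply, Function.comp_apply] at a1 a2 a3 ⊢
      rw [a1, a2, a3]
      set w := 1 - 40 * Kq q + 144 * Kq q ^ 2 with hw
      have k : ∀ x y : ℂ, w * (-(x / w) * y) = -(x * y) := by
        intro x y
        field_simp
      refine mul_left_cancel₀ hn ?_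
      rw [mul_add, mul_add, k, k, k]
      linear_combination hz - hh)
  filter_upwards [hfin] with q hq
  have h : xz q - hW (Kq q) = 0 := hq
  exact (sub_eq_zero.1 h).symm

end D8M
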