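import Mathlib
import Pool.Agent.D8W.Defs

/-!
# D8M/MX: moments of one and two steps

`X a = e(a) + e(-a)`; `∫_0^1 X^m = ` the central binomial coefficient for `m` even (`integral_cos_pow`-type recursion, or expand
`(e(a) + e(-a))^m` and `∫ e(j a) = 0` for `j ≠ 0`), `0` for `m` odd (substitution `a ↦ 1/2 - a`, periodicity).
Two steps: binomial theorem and `C(2m,2i) C(2i,i) C(2m-2i,m-i) = C(2m,m) C(m,i)²`, `Σ_i C(m,i)² = C(2m,m)` (`Nat.sum_range_choose_sq`).
-/

set_option autoImplicit false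

open MeasureTheory Set Filter

namespace D8M

open D8W RV15W

theorem X_cont : Continuous X := by
  unfold X; fun_prop

theorem X_le (a : ℝ) : |X a| ≤ 2 := by
  unfold X
  rw [abs_mul, abs_two]
  have := Real.abs_cos_le_one (2 * Real.pi * a)
  linarith

private theorem e_cont' : Continuous e := by
  unfold e; fun_prop

private theorem X_eq (a : ℝ) : ((X a : ℝ) : ℂ) = e a + starRingEnd ℂ (e a) := by
  unfold X e
  rw [← Complex.exp_conj]
  have h1 : (starRingEnd ℂ) (2 * (Real.pi : ℂ) * (a : ℂ) * Complex.I) =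
      -(2 * (Real.pi : ℂ) * (a : ℂ)) * Complex.I := by
    simp only [map_mul, Complex.conj_ofReal, Complex.conj_I, map_ofNat]
    ring
  rw [h1]
  push_cast
  rw [Complex.cos]
  ring

private theorem e_pow' (b : ℝ) (k l : ℕ) :
    (e b) ^ k * (starRingEnd ℂ (e b)) ^ l =
      Complex.exp ((2 * Real.pi * ((k : ℂ) - l) * Complex.I) * b) := by
  unfold e
  rw [← Complex.exp_conj, ← Complex.exp_nat_mul, ← Complex.exp_nat_mul, ← Complex.exp_add]
  congr 1
  simp only [map_mul, Complex.conj_ofReal, Complex.conj_I, map_ofNat]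
  ring

private theorem int_e' (k l : ℕ) :
    ∫ b in (0:ℝ)..1, (e b) ^ k * (starRingEnd ℂ (e b)) ^ l = if k = l then 1 else 0 := by
  simp only [e_pow']
  split_ifs with h
  · subst h
    simp
  · have hc : (2 * (Real.pi : ℂ) * ((k : ℂ) - l) * Complex.I) ≠ 0 := by
      have h1 : ((k : ℂ) - l) ≠ 0 := by
        rw [sub_ne_zero]; exact_mod_cast h
      have h2 : (Real.pi : ℂ) ≠ 0 := by exact_mod_cast Real.pi_ne_zero
      simp [h1, h2]
    rw [integral_exp_mul_complex hc]
    have h3 : Complex.exp (2 * (Real.pi : ℂ) * ((k : ℂ) - l) * Complex.I * ((1 : ℝ) : ℂ)) = 1 := by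
      rw [Complex.exp_eq_one_iff]
      exact ⟨(k : ℤ) - l, by push_cast; ring⟩
    rw [h3]
    simp

private theorem mom_aux (n : ℕ) :
    (((∫ a in (0:ℝ)..1, X a ^ n) : ℝ) : ℂ) =
      ∑ k ∈ Finset.range (n + 1), (if k = n - k then (n.choose k : ℂ) else 0) := by
  rw [← intervalIntegral.integral_ofReal]
  have h1 : ∀ a : ℝ, ((X a ^ n : ℝ) : ℂ) = ∑ k ∈ Finset.range (n + 1),
      (n.choose k : ℂ) * ((e a) ^ k * (starRingEnd ℂ (e a)) ^ (n - k)) := by
    intro a
    push_cast
    rw [X_eq, add_pow]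
    refine Finset.sum_congr rfl fun k _ => ?_
    ring
  simp only [h1]
  have hcont : ∀ k : ℕ, Continuous fun a => (n.choose k : ℂ) *
      ((e a) ^ k * (starRingEnd ℂ (e a)) ^ (n - k)) := by
    intro k
    have := e_cont'
    have h2 : Continuous fun a => starRingEnd ℂ (e a) := Complex.continuous_conj.comp this
    fun_prop
  rw [intervalIntegral.integral_finset_sum (fun k _ => (hcont k).intervalIntegrable _ _)]
  refine Finset.sum_congr rfl fun k _ => ?_
  rw [intervalIntegral.integral_const_mul, int_e']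
  split_ifs <;> simp

theorem X_mom_even (m : ℕ) : ∫ a in (0:ℝ)..1, X a ^ (2 * m) = (((2 * m).choose m : ℕ) : ℝ) := by
  have h := mom_aux (2 * m)
  have h2 : ∑ k ∈ Finset.range (2 * m + 1), (if k = 2 * m - k then ((2 * m).choose k : ℂ) else 0) =
      ((2 * m).choose m : ℂ) := by
    rw [Finset.sum_eq_single m]
    · rw [if_pos (by omega)]
    · intro k hk hkm
      rw [if_neg]
      have := Finset.mem_range.mp hk
      omega
    · intro hm
      exact absurd (Finset.mem_range.mpr (by omega)) hm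
  rw [h2] at h
  exact_mod_cast h

theorem X_mom_odd (m : ℕ) : ∫ a in (0:ℝ)..1, X a ^ (2 * m + 1) = 0 := by
  have h := mom_aux (2 * m + 1)
  have h2 : ∑ k ∈ Finset.range (2 * m + 1 + 1),
      (if k = 2 * m + 1 - k then ((2 * m + 1).choose k : ℂ) else 0) = 0 := by
    refine Finset.sum_eq_zero fun k hk => ?_
    rw [if_neg]
    have := Finset.mem_range.mp hk
    omega
  rw [h2] at h
  exact_mod_cast h

private theorem two_aux (n : ℕ) :
    ∫ a in (0:ℝ)..1, ∫ b in (0:ℝ)..1, (X a + X b) ^ n =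
      ∑ k ∈ Finset.range (n + 1), (n.choose k : ℝ) *
        ((∫ a in (0:ℝ)..1, X a ^ k) * ∫ b in (0:ℝ)..1, X b ^ (n - k)) := by
  have hX := X_cont
  have h1 : ∀ a : ℝ, ∫ b in (0:ℝ)..1, (X a + X b) ^ n =
      ∑ k ∈ Finset.range (n + 1), X a ^ k * ((n.choose k : ℝ) * ∫ b in (0:ℝ)..1, X b ^ (n - k)) := by
    intro a
    have : ∀ b : ℝ, (X a + X b) ^ n = ∑ k ∈ Finset.range (n + 1),
        (X a ^ k * (n.choose k : ℝ)) * X b ^ (n - k) := by
      intro b
      rw [add_pow]
      refine Finset.sum_congr rfl fun k _ => ?_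
      ring
    simp only [this]
    rw [intervalIntegral.integral_finset_sum
      (fun k _ => (Continuous.intervalIntegrable (by fun_prop) _ _))]
    refine Finset.sum_congr rfl fun k _ => ?_
    rw [intervalIntegral.integral_const_mul]
    ring
  simp only [h1]
  rw [intervalIntegral.integral_finset_sum
    (fun k _ => (Continuous.intervalIntegrable (by fun_prop) _ _))]
  refine Finset.sum_congr rfl fun k _ => ?_
  rw [intervalIntegral.integral_mul_const]
  ring

private theorem choose_id (m i : ℕ) (hi : i ≤ m) :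
    (((2 * m).choose (2 * i) : ℕ) : ℝ) * ((((2 * i).choose i : ℕ) : ℝ) *
      (((2 * (m - i)).choose (m - i) : ℕ) : ℝ)) =
      (((2 * m).choose m : ℕ) : ℝ) * ((m.choose i : ℕ) : ℝ) ^ 2 := by
  obtain ⟨j, rfl⟩ := Nat.exists_eq_add_of_le hi
  have e1 : i + j - i = j := by omega
  rw [e1]
  rw [Nat.cast_choose ℝ (show 2 * i ≤ 2 * (i + j) by omega),
    Nat.cast_choose ℝ (show i ≤ 2 * i by omega), Nat.cast_choose ℝ (show j ≤ 2 * j by omega),
    Nat.cast_choose ℝ (show i + j ≤ 2 * (i + j) by omega), Nat.cast_choose ℝ (show i ≤ i + j by omega)]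
  have a1 : 2 * (i + j) - 2 * i = 2 * j := by omega
  have a2 : 2 * i - i = i := by omega
  have a3 : 2 * j - j = j := by omega
  have a4 : 2 * (i + j) - (i + j) = i + j := by omega
  have a5 : i + j - i = j := by omega
  rw [a1, a2, a3, a4, a5]
  have f1 : ((2 * i).factorial : ℝ) ≠ 0 := by exact_mod_cast (Nat.factorial_ne_zero _)
  have f2 : ((2 * j).factorial : ℝ) ≠ 0 := by exact_mod_cast (Nat.factorial_ne_zero _)
  have f3 : (i.factorial : ℝ) ≠ 0 := by exact_mod_cast (Nat.factorial_ne_zero _)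
  have f4 : (j.factorial : ℝ) ≠ 0 := by exact_mod_cast (Nat.factorial_ne_zero _)
  have f5 : ((i + j).factorial : ℝ) ≠ 0 := by exact_mod_cast (Nat.factorial_ne_zero _)
  field_simp

private theorem sum_parity (f : ℕ → ℝ) (m : ℕ) (hf : ∀ i, f (2 * i + 1) = 0) :
    ∑ k ∈ Finset.range (2 * m + 1), f k = ∑ i ∈ Finset.range (m + 1), f (2 * i) := by
  induction m with
  | zero => simp
  | succ m ih =>
    have : 2 * (m + 1) + 1 = (2 * m + 1) + 1 + 1 := by ring
    rw [this, Finset.sum_range_succ, Finset.sum_range_succ, ih, hf m, add_zero,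
      Finset.sum_range_succ _ (m + 1)]
    ring_nf

theorem XY_mom_even (m : ℕ) :
    ∫ a in (0:ℝ)..1, ∫ b in (0:ℝ)..1, (X a + X b) ^ (2 * m) = (((2 * m).choose m : ℕ) : ℝ) ^ 2 := by
  rw [two_aux, sum_parity _ m (fun i => by rw [X_mom_odd]; ring)]
  have h1 : ∀ i ∈ Finset.range (m + 1), (((2 * m).choose (2 * i) : ℕ) : ℝ) *
      ((∫ a in (0:ℝ)..1, X a ^ (2 * i)) * ∫ b in (0:ℝ)..1, X b ^ (2 * m - 2 * i)) =
      (((2 * m).choose m : ℕ) : ℝ) * ((m.choose i : ℕ) : ℝ) ^ 2 := by
    intro i hi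
    have him : i ≤ m := by
      have := Finset.mem_range.mp hi
      omega
    have e1 : 2 * m - 2 * i = 2 * (m - i) := by omega
    rw [e1, X_mom_even, X_mom_even, choose_id m i him]
  rw [Finset.sum_congr rfl h1, ← Finset.mul_sum, sq]
  congr 1
  have h := Nat.sum_range_choose_sq m
  exact_mod_cast h

theorem XY_mom_odd (m : ℕ) :
    ∫ a in (0:ℝ)..1, ∫ b in (0:ℝ)..1, (X a + X b) ^ (2 * m + 1) = 0 := by
  rw [two_aux]
  refine Finset.sum_eq_zero fun k hk => ?_
  have hk' := Finset.mem_range.mp hk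
  rcases Nat.even_or_odd' k with ⟨i, hi | hi⟩
  · have : 2 * m + 1 - k = 2 * (m - i) + 1 := by omega
    rw [this, X_mom_odd]; ring
  · rw [hi, X_mom_odd]; ring

end D8M
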