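import Mathlib
import Pool.Agent.D8W.Defs
import Pool.Agent.RV15W.Mom
import Pool.Agent.D8M.MX

/-!
# D8M/MS: moments of `S`

`mu` is a probability measure (`RV15W.mu_prob`), a product. Expand `S^N = (X a + (X b + X c))^N` by the binomial theorem and use MX:
`∫ S^(2n) = Σ_j C(2n,2j) C(2(n-j),n-j) C(2j,j)²` and `C(2n,2j) C(2(n-j),n-j) C(2j,j) = C(2n,n) C(n,j)²`.
Odd moments vanish.
-/

set_option autoImplicit false

open MeasureTheory Set Filter

namespace D8M

open D8W RV15W

theorem S_cont : Continuous S := by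
  unfold S
  have := X_cont
  fun_prop

theorem S_le (v : ℝ × ℝ × ℝ) : |S v| ≤ 6 := by
  unfold S
  have h1 := abs_le.1 (X_le v.1)
  have h2 := abs_le.1 (X_le v.2.1)
  have h3 := abs_le.1 (X_le v.2.2)
  rw [abs_le]
  constructor <;> linarith [h1.1, h1.2, h2.1, h2.2, h3.1, h3.2]

private noncomputable def m1 : Measure ℝ := volume.restrict (Ioc 0 1)

private theorem mu_eq : mu = m1.prod (m1.prod m1) := by
  unfold mu m1
  rw [Measure.prod_restrict, Measure.prod_restrict]
  rfl

private instance m1_prob : IsProbabilityMeasure m1 := ⟨by simp [m1]⟩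

private theorem int_m1 (f : ℝ → ℝ) : ∫ a, f a ∂m1 = ∫ a in (0:ℝ)..1, f a := by
  rw [intervalIntegral.integral_of_le zero_le_one]
  rfl

private theorem int_XX (j : ℕ) :
    ∫ w : ℝ × ℝ, (X w.1 + X w.2) ^ j ∂(m1.prod m1) =
      ∫ a in (0:ℝ)..1, ∫ b in (0:ℝ)..1, (X a + X b) ^ j := by
  have hc : Continuous fun w : ℝ × ℝ => (X w.1 + X w.2) ^ j := by
    have := X_cont
    fun_prop
  have hi : Integrable (fun w : ℝ × ℝ => (X w.1 + X w.2) ^ j) (m1.prod m1) := by
    refine Integrable.of_bound hc.aestronglyMeasurable (4 ^ j) (Filter.Eventually.of_forall fun w => ?_)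
    rw [norm_pow, Real.norm_eq_abs]
    have h1 := X_le w.1
    have h2 := X_le w.2
    have h3 := abs_add_le (X w.1) (X w.2)
    gcongr
    linarith
  rw [integral_prod _ hi, int_m1]
  congr 1
  funext a
  exact int_m1 _

private theorem S_mom (N : ℕ) : ∫ v, S v ^ N ∂mu = ∑ i ∈ Finset.range (N + 1),
    (N.choose i : ℝ) * ((∫ a in (0:ℝ)..1, ∫ b in (0:ℝ)..1, (X a + X b) ^ i) *
      (∫ a in (0:ℝ)..1, X a ^ (N - i))) := by
  have hX := X_cont
  have h1 : ∀ v : ℝ × ℝ × ℝ, S v ^ N = ∑ i ∈ Finset.range (N + 1),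
      (N.choose i : ℝ) * (X v.1 ^ (N - i) * (X v.2.1 + X v.2.2) ^ i) := by
    intro v
    unfold S
    rw [add_assoc, add_comm, add_pow]
    refine Finset.sum_congr rfl fun i _ => ?_
    ring
  have hi : ∀ i : ℕ, Integrable (fun v : ℝ × ℝ × ℝ =>
      X v.1 ^ (N - i) * (X v.2.1 + X v.2.2) ^ i) (m1.prod (m1.prod m1)) := by
    intro i
    have hc : Continuous fun v : ℝ × ℝ × ℝ => X v.1 ^ (N - i) * (X v.2.1 + X v.2.2) ^ i := by
      fun_prop
    refine Integrable.of_bound hc.aestronglyMeasurable (2 ^ (N - i) * 4 ^ i)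
      (Filter.Eventually.of_forall fun v => ?_)
    rw [norm_mul, norm_pow, norm_pow, Real.norm_eq_abs, Real.norm_eq_abs]
    have h1 := X_le v.1
    have h2 := X_le v.2.1
    have h3 := X_le v.2.2
    have h4 := abs_add_le (X v.2.1) (X v.2.2)
    gcongr
    linarith
  rw [mu_eq]
  simp only [h1]
  rw [integral_finsetSum _ fun i _ => (hi i).const_mul _]
  refine Finset.sum_congr rfl fun i _ => ?_
  rw [integral_const_mul, integral_prod_mul (fun a => X a ^ (N - i))
    (fun w : ℝ × ℝ => (X w.1 + X w.2) ^ i), int_XX, int_m1, mul_comm (∫ a in (0:ℝ)..1, X a ^ (N - i))]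

private theorem sum_even (f : ℕ → ℝ) (n : ℕ) (hf : ∀ j, f (2 * j + 1) = 0) :
    ∑ i ∈ Finset.range (2 * n + 1), f i = ∑ j ∈ Finset.range (n + 1), f (2 * j) := by
  induction n with
  | zero => simp
  | succ n ih =>
    rw [show 2 * (n + 1) + 1 = (2 * n + 1) + 1 + 1 by ring, Finset.sum_range_succ,
      Finset.sum_range_succ, ih, Finset.sum_range_succ _ (n + 1), hf]
    rw [show 2 * n + 1 + 1 = 2 * (n + 1) by ring]
    ring

private theorem choose_id (n j : ℕ) (hj : j ≤ n) :
    (2 * n).choose (2 * j) * ((2 * (n - j)).choose (n - j) * (2 * j).choose j) =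
      (2 * n).choose n * (n.choose j) ^ 2 := by
  obtain ⟨k, rfl⟩ := Nat.exists_eq_add_of_le hj
  have e1 : j + k - j = k := by omega
  rw [e1]
  have h1 := Nat.choose_mul_factorial_mul_factorial (show 2 * j ≤ 2 * (j + k) by omega)
  have h2 := Nat.choose_mul_factorial_mul_factorial (show k ≤ 2 * k by omega)
  have h3 := Nat.choose_mul_factorial_mul_factorial (show j ≤ 2 * j by omega)
  have h4 := Nat.choose_mul_factorial_mul_factorial (show j + k ≤ 2 * (j + k) by omega)
  have h5 := Nat.choose_mul_factorial_mul_factorial (show j ≤ j + k by omega)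
  rw [show 2 * (j + k) - 2 * j = 2 * k by omega] at h1
  rw [show 2 * k - k = k by omega] at h2
  rw [show 2 * j - j = j by omega] at h3
  rw [show 2 * (j + k) - (j + k) = j + k by omega] at h4
  rw [show j + k - j = k by omega] at h5
  have hpos : 0 < (Nat.factorial j) ^ 2 * (Nat.factorial k) ^ 2 := by positivity
  apply Nat.eq_of_mul_eq_mul_right hpos
  calc (2 * (j + k)).choose (2 * j) * ((2 * k).choose k * (2 * j).choose j) *
        ((Nat.factorial j) ^ 2 * (Nat.factorial k) ^ 2)
      = (2 * (j + k)).choose (2 * j) * ((2 * j).choose j * j.factorial * j.factorial) *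
          ((2 * k).choose k * k.factorial * k.factorial) := by ring
    _ = (2 * (j + k)).factorial := by rw [h2, h3, h1]
    _ = (2 * (j + k)).choose (j + k) * (j + k).factorial * (j + k).factorial := h4.symm
    _ = (2 * (j + k)).choose (j + k) * ((j + k).choose j * j.factorial * k.factorial) *
          ((j + k).choose j * j.factorial * k.factorial) := by rw [h5]
    _ = _ := by ring

theorem S_mom_even (n : ℕ) : ∫ v, S v ^ (2 * n) ∂mu = (cn n : ℝ) := by
  rw [S_mom, sum_even _ n]
  · unfold cn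
    push_cast
    rw [Finset.mul_sum]
    refine Finset.sum_congr rfl fun j hj => ?_
    have hj' : j ≤ n := Nat.lt_succ_iff.1 (Finset.mem_range.1 hj)
    rw [XY_mom_even, show 2 * n - 2 * j = 2 * (n - j) by omega, X_mom_even]
    have h := choose_id n j hj'
    have h' : ((2 * n).choose (2 * j) : ℝ) * (((2 * (n - j)).choose (n - j) : ℝ) *
        ((2 * j).choose j : ℝ)) = ((2 * n).choose n : ℝ) * ((n.choose j : ℝ)) ^ 2 := by
      exact_mod_cast h
    linear_combination ((2 * j).choose j : ℝ) * h'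
  · intro j
    rw [XY_mom_odd, zero_mul, mul_zero]

theorem S_mom_odd (n : ℕ) : ∫ v, S v ^ (2 * n + 1) ∂mu = 0 := by
  rw [S_mom]
  refine Finset.sum_eq_zero fun i hi => ?_
  have hi' : i ≤ 2 * n + 1 := Nat.lt_succ_iff.1 (Finset.mem_range.1 hi)
  rcases Nat.even_or_odd' i with ⟨k, rfl | rfl⟩
  · rw [show 2 * n + 1 - 2 * k = 2 * (n - k) + 1 by omega, X_mom_odd, mul_zero, mul_zero]
  · rw [XY_mom_odd, zero_mul, mul_zero]

end D8M
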