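import Mathlib
import Pool.Agent.D8W.Defs
import Pool.Agent.RV15W.Mom
import Pool.Agent.D8M.MS

/-!
# D8M/WA: `Wk` is analytic off `[-6,6]`

The set of `k` with `k ≠ s` for all real `|s| ≤ 6` is open; there `Wk` is differentiable (differentiation under the integral,
`hasDerivAt_integral_of_dominated_loc_of_deriv_le`: near `k0` the distance of `k` to `[-6,6]` is bounded below, `mu` is a
probability measure), hence analytic (`DifferentiableOn.analyticAt`).
-/

set_option autoImplicit false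

open MeasureTheory Set Filter

namespace D8M

open D8W RV15W

/-- the segment -/
private def Seg : Set ℂ := (fun s : ℝ => (s : ℂ)) '' Icc (-6) 6

private theorem Seg_closed : IsClosed Seg :=
  (isCompact_Icc.image Complex.continuous_ofReal).isClosed

private theorem Seg_ne : Seg.Nonempty := ⟨((0:ℝ) : ℂ), 0, by constructor <;> norm_num, rfl⟩

private theorem nmem {k : ℂ} (hk : ∀ s : ℝ, |s| ≤ 6 → k ≠ (s : ℂ)) : k ∈ Segᶜ := by
  rintro ⟨s, hs, h⟩
  exact hk s (abs_le.2 hs) h.symm

private theorem S_mem (v : ℝ × ℝ × ℝ) : (S v : ℂ) ∈ Seg := ⟨S v, abs_le.1 (S_le v), rfl⟩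

private theorem Wk_diff {k : ℂ} (hk : k ∈ Segᶜ) : DifferentiableAt ℂ Wk k := by
  haveI := mu_prob
  have hδ : 0 < Metric.infDist k Seg := (Seg_closed.notMem_iff_infDist_pos Seg_ne).1 hk
  set δ := Metric.infDist k Seg with hδd
  have hfar : ∀ x ∈ Metric.ball k (δ / 2), ∀ v : ℝ × ℝ × ℝ, δ / 2 ≤ ‖x - (S v : ℂ)‖ := by
    intro x hx v
    have h1 : δ ≤ dist k (S v : ℂ) := Metric.infDist_le_dist_of_mem (S_mem v)
    have h2 : dist k (S v : ℂ) ≤ dist k x + dist x (S v : ℂ) := dist_triangle _ _ _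
    rw [Metric.mem_ball, dist_comm] at hx
    rw [← dist_eq_norm]
    linarith
  have hne : ∀ x ∈ Metric.ball k (δ / 2), ∀ v : ℝ × ℝ × ℝ, x - (S v : ℂ) ≠ 0 := by
    intro x hx v h0
    have h1 := hfar x hx v
    rw [h0, norm_zero] at h1
    linarith
  have hSc : Continuous (fun v : ℝ × ℝ × ℝ => (S v : ℂ)) := Complex.continuous_ofReal.comp S_cont
  have hcont : ∀ x ∈ Metric.ball k (δ / 2), Continuous (fun v : ℝ × ℝ × ℝ => x / (x - (S v : ℂ))) := by
    intro x hx
    exact continuous_const.div (continuous_const.sub hSc) (hne x hx)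
  have hkb : k ∈ Metric.ball k (δ / 2) := Metric.mem_ball_self (by linarith)
  have hint : Integrable (fun v : ℝ × ℝ × ℝ => k / (k - (S v : ℂ))) mu := by
    refine Integrable.of_bound (hcont k hkb).aestronglyMeasurable (‖k‖ / (δ / 2)) ?_
    refine Eventually.of_forall fun v => ?_
    rw [norm_div]
    exact div_le_div_of_nonneg_left (norm_nonneg _) (by linarith) (hfar k hkb v)
  have key := hasDerivAt_integral_of_dominated_loc_of_deriv_le (μ := mu)
    (F := fun (x : ℂ) (v : ℝ × ℝ × ℝ) => x / (x - (S v : ℂ))) (x₀ := k)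
    (s := Metric.ball k (δ / 2)) (bound := fun _ => 6 / (δ / 2) ^ 2)
    (Metric.ball_mem_nhds k (by linarith))
    (by
      filter_upwards [Metric.ball_mem_nhds k (by linarith : (0:ℝ) < δ / 2)] with x hx
      exact (hcont x hx).aestronglyMeasurable)
    hint
    (F' := fun (x : ℂ) (v : ℝ × ℝ × ℝ) => -(S v : ℂ) / (x - (S v : ℂ)) ^ 2)
    ((hSc.neg.div ((continuous_const.sub hSc).pow 2)
      (fun v => pow_ne_zero 2 (hne k hkb v))).aestronglyMeasurable)
    (Eventually.of_forall fun v x hx => by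
      rw [norm_div, norm_neg, norm_pow, Complex.norm_real, Real.norm_eq_abs]
      have h1 := hfar x hx v
      have h2 := S_le v
      have h3 : (δ / 2) ^ 2 ≤ ‖x - (S v : ℂ)‖ ^ 2 := pow_le_pow_left₀ (by linarith) h1 2
      exact div_le_div₀ (by norm_num) h2 (by positivity) h3)
    (integrable_const _)
    (Eventually.of_forall fun v x hx => by
      have h1 : HasDerivAt (fun x : ℂ => x / (x - (S v : ℂ)))
          ((1 * (x - (S v : ℂ)) - x * (1 - 0)) / (x - (S v : ℂ)) ^ 2) x :=
        (hasDerivAt_id x).div ((hasDerivAt_id x).sub (hasDerivAt_const x (S v : ℂ))) (hne x hx v)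
      refine h1.congr_deriv ?_
      congr 1
      ring)
  exact key.2.differentiableAt

theorem Wk_an {k : ℂ} (hk : ∀ s : ℝ, |s| ≤ 6 → k ≠ (s : ℂ)) : AnalyticAt ℂ Wk k := by
  have h1 : DifferentiableOn ℂ Wk Segᶜ := fun x hx => (Wk_diff hx).differentiableWithinAt
  exact h1.analyticAt (Seg_closed.isOpen_compl.mem_nhds (nmem hk))

end D8M
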