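import Mathlib
import Pool.Agent.D8W.Defs
import Pool.Agent.RV15W.Mom
import Pool.Agent.D8M.MS

/-!
# D8M/WF: `Wk k = hW (1/k²)` for `‖k‖ > 6`

`k/(k - S) = Σ (S/k)^n` (geometric, `|S/k| ≤ 6/‖k‖ < 1`), integrate termwise (`hasSum_integral_of_summable_integral_norm` or dominated
convergence), odd moments vanish, `∫ S^(2n) dmu = cn n`.
-/

set_option autoImplicit false

open MeasureTheory Set Filter

namespace D8M

open D8W RV15W

theorem Wk_far {k : ℂ} (hk : 6 < ‖k‖) : Wk k = hW (1 / k ^ 2) := by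
  have := RV15W.mu_prob
  have hk0 : k ≠ 0 := by
    rintro rfl
    rw [norm_zero] at hk
    linarith
  have hkp : 0 < ‖k‖ := by linarith
  set r : ℝ := 6 / ‖k‖ with hr
  have hr0 : 0 ≤ r := by positivity
  have hr1 : r < 1 := (div_lt_one hkp).2 hk
  have hb : ∀ v, ‖((S v : ℂ) / k)‖ ≤ r := by
    intro v
    rw [norm_div, Complex.norm_real, Real.norm_eq_abs, hr]
    exact div_le_div_of_nonneg_right (S_le v) hkp.le
  have hb1 : ∀ v, ‖((S v : ℂ) / k)‖ < 1 := fun v => (hb v).trans_lt hr1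
  have hcont : Continuous fun v => ((S v : ℂ) / k) :=
    (Complex.continuous_ofReal.comp S_cont).div_const k
  have hbn : ∀ (n : ℕ) v, ‖((S v : ℂ) / k) ^ n‖ ≤ r ^ n := by
    intro n v
    rw [norm_pow]
    exact pow_le_pow_left₀ (norm_nonneg _) (hb v) n
  have hint : ∀ n : ℕ, Integrable (fun v => ((S v : ℂ) / k) ^ n) mu := fun n =>
    Integrable.of_bound (hcont.pow n).aestronglyMeasurable (r ^ n)
      (Filter.Eventually.of_forall (hbn n))
  have hsum : Summable fun n : ℕ => ∫ v, ‖((S v : ℂ) / k) ^ n‖ ∂mu := by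
    refine Summable.of_nonneg_of_le (fun n => integral_nonneg fun v => norm_nonneg _) (fun n => ?_)
      (summable_geometric_of_lt_one hr0 hr1)
    calc ∫ v, ‖((S v : ℂ) / k) ^ n‖ ∂mu ≤ ∫ _v, r ^ n ∂mu :=
          integral_mono (hint n).norm (integrable_const _) (hbn n)
      _ = r ^ n := by simp
  have h1 := hasSum_integral_of_summable_integral_norm hint hsum
  have h2 : ∫ v, ∑' n : ℕ, ((S v : ℂ) / k) ^ n ∂mu = Wk k := by
    unfold Wk
    refine integral_congr_ae (Filter.Eventually.of_forall fun v => ?_)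
    show ∑' n : ℕ, ((S v : ℂ) / k) ^ n = k / (k - (S v : ℂ))
    rw [tsum_geometric_of_norm_lt_one (hb1 v)]
    have h3 : k - (S v : ℂ) ≠ 0 := by
      intro h
      have h4 : (S v : ℂ) = k := (sub_eq_zero.1 h).symm
      have h5 := hb1 v
      rw [h4, div_self hk0, norm_one] at h5
      exact lt_irrefl _ h5
    have h6 : (1 - (S v : ℂ) / k) = (k - (S v : ℂ)) / k := by
      field_simp
    rw [h6, inv_div]
  rw [h2] at h1
  have h3 : ∀ n : ℕ, ∫ v, ((S v : ℂ) / k) ^ n ∂mu = ((∫ v, S v ^ n ∂mu : ℝ) : ℂ) * (1 / k) ^ n := by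
    intro n
    rw [← integral_complex_ofReal, ← integral_mul_const]
    refine integral_congr_ae (Filter.Eventually.of_forall fun v => ?_)
    show ((S v : ℂ) / k) ^ n = ((S v ^ n : ℝ) : ℂ) * (1 / k) ^ n
    push_cast
    rw [div_eq_mul_one_div, mul_pow]
  have hinj : Function.Injective fun n : ℕ => 2 * n := by
    intro a b h
    have h' : 2 * a = 2 * b := h
    omega
  have h4 : HasSum ((fun n : ℕ => ∫ v, ((S v : ℂ) / k) ^ n ∂mu) ∘ fun n : ℕ => 2 * n) (Wk k) := by
    rw [hinj.hasSum_iff]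
    · exact h1
    · intro n hn
      have hodd : ∃ m, n = 2 * m + 1 := by
        rcases Nat.even_or_odd' n with ⟨m, h | h⟩
        · exact absurd ⟨m, h.symm⟩ hn
        · exact ⟨m, h⟩
      obtain ⟨m, rfl⟩ := hodd
      rw [h3, S_mom_odd]
      simp
  unfold hW
  rw [← h4.tsum_eq]
  refine tsum_congr fun n => ?_
  show ∫ v, ((S v : ℂ) / k) ^ (2 * n) ∂mu = (cn n : ℂ) * (1 / k ^ 2) ^ n
  rw [h3, S_mom_even, pow_mul, one_div_pow]
  norm_cast

end D8M
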