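import Mathlib
import Pool.Agent.D8W.Defs
import Pool.Agent.D8M.LD
import Pool.Agent.D8M.LB
import Pool.Agent.D8M.CM
import Pool.Agent.D8M.KD
import Pool.Agent.D8M.KK
import Pool.Agent.D8M.KZ
import Pool.Agent.D8M.WF
import Pool.Agent.D8M.WA

/-!
# D8M/WC: analytic continuation along the path

Path `P = {pt (1/3) y | y0 < y} ∪ {pt x 1 | 0 ≤ x ≤ 1/3}`, preconnected. On `P` the point `kt τ = 2 cosh (l τ)` is not in `[-6,6]`:
for `Im τ ≥ 1` `‖2 cosh l‖ ≥ 2 sinh (Re l) ≥ 2 sinh 3 > 6` (`re_far`, `top_all`); for `y0 < y ≤ 1`,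
`Im kt = 2 sinh (Re l) sin (Im l) ≠ 0` since `Re l > 0`, `-7/5 ≤ Im l < 0` (`ray_mono` from `l_cm`). So `τ ↦ Wk (kt τ)` and
`τ ↦ xz (qq τ)` are analytic at every point of `P` (`l` is holomorphic on the upper half plane: `l_deriv`); they agree near
`pt (1/3) Y` for `Y` large (`qq τ → 0`, `KZ`, `kt_Kq`, `Wk_far`, `xz ≠ 0` near `q = 0`).
`AnalyticOnNhd.eqOn_of_preconnected_of_eventuallyEq`.
-/

set_option autoImplicit false

open MeasureTheory Set Filter

namespace D8M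

open D8W RV15W

private def WC_P : Set ℂ := {τ | (∃ y : ℝ, y0 < y ∧ τ = pt (1 / 3) y) ∨
      (∃ x : ℝ, 0 ≤ x ∧ x ≤ 1 / 3 ∧ τ = pt x 1)}

private lemma WC_y0_pos : 0 < y0 := by
  unfold y0
  positivity

private lemma WC_y0_lt : y0 < 1 := by
  unfold y0
  have h : Real.sqrt 2 < 2 := by
    rw [Real.sqrt_lt' (by norm_num)]
    norm_num
  linarith

private lemma WC_pt_im (x y : ℝ) : (pt x y).im = y := by
  simp [pt]

private lemma WC_im {τ : ℂ} (h : τ ∈ WC_P) : 0 < τ.im := by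
  rcases h with ⟨y, hy, rfl⟩ | ⟨x, -, -, rfl⟩
  · rw [WC_pt_im]
    exact WC_y0_pos.trans hy
  · rw [WC_pt_im]
    norm_num

private lemma WC_conn : IsPreconnected WC_P := by
  have h1 : IsPreconnected ((fun y : ℝ => pt (1 / 3) y) '' Ioi y0) :=
    isPreconnected_Ioi.image _ (by unfold pt; fun_prop)
  have h2 : IsPreconnected ((fun x : ℝ => pt x 1) '' Icc 0 (1 / 3)) :=
    isPreconnected_Icc.image _ (by unfold pt; fun_prop)
  have h4 : pt (1 / 3) 1 ∈ ((fun y : ℝ => pt (1 / 3) y) '' Ioi y0) := ⟨1, WC_y0_lt, rfl⟩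
  have h5 : pt (1 / 3) 1 ∈ ((fun x : ℝ => pt x 1) '' Icc 0 (1 / 3)) :=
    ⟨1 / 3, ⟨by norm_num, le_refl _⟩, rfl⟩
  have h3 := IsPreconnected.union (pt (1 / 3) 1) h4 h5 h1 h2
  convert h3 using 1
  ext τ
  constructor
  · rintro (⟨y, hy, rfl⟩ | ⟨x, hx, hx', rfl⟩)
    · exact Or.inl ⟨y, hy, rfl⟩
    · exact Or.inr ⟨x, ⟨hx, hx'⟩, rfl⟩
  · rintro (⟨y, hy, rfl⟩ | ⟨x, ⟨hx, hx'⟩, rfl⟩)
    · exact Or.inl ⟨y, hy, rfl⟩
    · exact Or.inr ⟨x, hx, hx', rfl⟩

private lemma WC_norm {w : ℂ} (h : 3 ≤ w.re) : 6 < ‖2 * Complex.cosh w‖ := by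
  have h1 : Real.exp w.re - Real.exp (-w.re) ≤ ‖2 * Complex.cosh w‖ := by
    have h2 : 2 * Complex.cosh w = Complex.exp w + Complex.exp (-w) := by
      rw [Complex.cosh]
      ring
    rw [h2]
    have h3 := norm_sub_norm_le (Complex.exp w) (-Complex.exp (-w))
    rw [norm_neg, sub_neg_eq_add, Complex.norm_exp, Complex.norm_exp, Complex.neg_re] at h3
    exact h3
  have h4 : (8 : ℝ) < Real.exp w.re := by
    have h5 : Real.exp 3 ≤ Real.exp w.re := Real.exp_le_exp.2 h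
    have h6 : Real.exp 3 = Real.exp 1 ^ 3 := by
      rw [← Real.exp_nat_mul]
      norm_num
    have h7 := Real.exp_one_gt_d9
    have h8 : (2 : ℝ) ^ 3 < Real.exp 1 ^ 3 :=
      pow_lt_pow_left₀ (by linarith) (by norm_num) (by norm_num)
    rw [← h6] at h8
    norm_num at h8
    linarith
  have h9 : Real.exp (-w.re) ≤ 1 := by
    rw [← Real.exp_zero]
    exact Real.exp_le_exp.2 (by linarith)
  linarith

private lemma WC_cosh_im (w : ℂ) : (2 * Complex.cosh w).im = 2 * (Real.sinh w.re * Real.sin w.im) := by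
  have h1 : Complex.cosh w = Complex.cosh (w.re + w.im * Complex.I) := by
    rw [Complex.re_add_im]
  rw [h1, Complex.cosh_add, Complex.cosh_mul_I, Complex.sinh_mul_I]
  simp [← Complex.ofReal_cosh, ← Complex.ofReal_sinh, ← Complex.ofReal_cos, ← Complex.ofReal_sin]

private lemma WC_far {τ : ℂ} (h : 1 ≤ τ.im) : 6 < ‖kt τ‖ := WC_norm (re_far h)

private lemma WC_off {τ : ℂ} (h : τ ∈ WC_P) : ∀ s : ℝ, |s| ≤ 6 → kt τ ≠ (s : ℂ) := by
  intro s hs he
  by_cases h1 : 1 ≤ τ.im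
  · have h2 := WC_far h1
    rw [he, Complex.norm_real, Real.norm_eq_abs] at h2
    linarith
  · rcases h with ⟨y, hy, rfl⟩ | ⟨x, hx, hx', rfl⟩
    · rw [WC_pt_im] at h1
      push Not at h1
      have h2 := ray_mono (le_refl y0) hy.le h1.le
      have h3 := ray_mono hy.le h1.le (le_refl 1)
      rw [l_cm] at h2
      simp only [Complex.zero_re, Complex.zero_im, sub_zero, zero_sub] at h2
      have h4 := (top_all (x := 1 / 3) (by norm_num) (le_refl _)).2.1
      have h5 : 0 < Real.exp (-(2 * Real.pi)) := Real.exp_pos _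
      have h6 : 0 < Real.exp (-(2 * Real.pi)) * (y - y0) := mul_pos h5 (by linarith)
      have h7 : 0 < Real.exp (-(2 * Real.pi)) * (1 - y) := mul_pos h5 (by linarith)
      have h8 : (l (pt (1 / 3) y)).im < 0 := by linarith [h2.2.1]
      have h9 : -(7 / 5) < (l (pt (1 / 3) y)).im := by linarith [h3.2.1]
      have h10 : 0 < (l (pt (1 / 3) y)).re := by linarith [h2.1]
      have h11 : Real.sin (l (pt (1 / 3) y)).im < 0 :=
        Real.sin_neg_of_neg_of_neg_pi_lt h8 (by linarith [Real.pi_gt_three])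
      have h12 : 0 < Real.sinh (l (pt (1 / 3) y)).re := Real.sinh_pos_iff.2 h10
      have h13 : (kt (pt (1 / 3) y)).im = 0 := by
        rw [he]
        exact Complex.ofReal_im s
      unfold kt at h13
      rw [WC_cosh_im] at h13
      have h14 : Real.sinh (l (pt (1 / 3) y)).re * Real.sin (l (pt (1 / 3) y)).im < 0 :=
        mul_neg_of_pos_of_neg h12 h11
      linarith
    · rw [WC_pt_im] at h1
      exact h1 (le_refl _)

private lemma WC_l_an {τ : ℂ} (h : 0 < τ.im) : AnalyticAt ℂ l τ := by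
  have hd : DifferentiableOn ℂ l {z : ℂ | 0 < z.im} := fun z hz =>
    (l_deriv hz).differentiableAt.differentiableWithinAt
  exact hd.analyticAt ((isOpen_lt continuous_const Complex.continuous_im).mem_nhds h)

private lemma WC_qq_lt {τ : ℂ} (h : 0 < τ.im) : ‖qq τ‖ < 1 := by
  rw [qq_norm, Real.exp_lt_one_iff]
  have := Real.pi_pos
  have h2 : 0 < 2 * Real.pi * τ.im := by positivity
  linarith

private lemma WC_qq_an (τ : ℂ) : AnalyticAt ℂ qq τ := by
  have hd : Differentiable ℂ qq := by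
    unfold qq
    fun_prop
  exact hd.analyticAt τ

private lemma WC_eq_far : ∃ Y : ℝ, 1 ≤ Y ∧ ∀ τ : ℂ, Y < τ.im → Wk (kt τ) = xz (qq τ) := by
  have h0 : AnalyticAt ℂ xz 0 := xz_an (by simp)
  have h1 : ∀ᶠ q in nhds (0 : ℂ), xz q ≠ 0 := by
    refine h0.continuousAt.eventually_ne ?_
    rw [xz_zero]
    exact one_ne_zero
  obtain ⟨r, hr, hb⟩ := Metric.eventually_nhds_iff.1 (KZ.and h1)
  obtain ⟨Y, hY⟩ : ∃ Y : ℝ, ∀ y : ℝ, Y < y → Real.exp (-(2 * Real.pi * y)) < r := by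
    refine ⟨-Real.log r / (2 * Real.pi), fun y hy => ?_⟩
    have hpi : 0 < 2 * Real.pi := by positivity
    rw [div_lt_iff₀ hpi] at hy
    have : -(2 * Real.pi * y) < Real.log r := by linarith
    calc Real.exp (-(2 * Real.pi * y)) < Real.exp (Real.log r) := Real.exp_lt_exp.2 this
      _ = r := Real.exp_log hr
  refine ⟨max Y 1, le_max_right _ _, fun τ hτ => ?_⟩
  have h2 : 1 ≤ τ.im := (le_max_right Y 1).trans hτ.le
  have h3 : Real.exp (-(2 * Real.pi * τ.im)) < r := hY _ (lt_of_le_of_lt (le_max_left _ _) hτ)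
  have h4 : dist (qq τ) 0 < r := by
    rw [dist_zero_right, qq_norm]
    exact h3
  obtain ⟨h5, h6⟩ := hb h4
  have h7 := kt_Kq (τ := τ) (by linarith) h6
  have h8 := WC_far h2
  have h9 : kt τ ≠ 0 := by
    intro h
    rw [h, norm_zero] at h8
    linarith
  rw [Wk_far h8, ← h5]
  congr 1
  rw [div_eq_iff (pow_ne_zero 2 h9), mul_comm]
  exact h7.symm

theorem W_all {τ : ℂ} (h : (∃ y : ℝ, y0 < y ∧ τ = pt (1 / 3) y) ∨
      (∃ x : ℝ, 0 ≤ x ∧ x ≤ 1 / 3 ∧ τ = pt x 1)) :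
    Wk (kt τ) = xz (qq τ) := by
  obtain ⟨Y, hY, hf⟩ := WC_eq_far
  have hkt : ∀ z : ℂ, 0 < z.im → AnalyticAt ℂ kt z := by
    intro z hz
    have h1 : AnalyticAt ℂ (fun w => 2 * Complex.cosh w) (l z) := by
      have hd : Differentiable ℂ (fun w => 2 * Complex.cosh w) := by fun_prop
      exact hd.analyticAt _
    exact h1.comp (WC_l_an hz)
  have ha : AnalyticOnNhd ℂ (fun z => Wk (kt z)) WC_P := fun z hz =>
    (Wk_an (WC_off hz)).comp (hkt z (WC_im hz))
  have hb : AnalyticOnNhd ℂ (fun z => xz (qq z)) WC_P := fun z hz =>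
    (xz_an (WC_qq_lt (WC_im hz))).comp (WC_qq_an z)
  have hz0 : pt (1 / 3) (Y + 1) ∈ WC_P := Or.inl ⟨Y + 1, by linarith [WC_y0_lt], rfl⟩
  have hev : (fun z => Wk (kt z)) =ᶠ[nhds (pt (1 / 3) (Y + 1))] (fun z => xz (qq z)) := by
    have ho : {z : ℂ | Y < z.im} ∈ nhds (pt (1 / 3) (Y + 1)) := by
      refine (isOpen_lt continuous_const Complex.continuous_im).mem_nhds ?_
      rw [Set.mem_ofPred_eq, WC_pt_im]
      linarith
    filter_upwards [ho] with z hz
    exact hf z hz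
  exact ha.eqOn_of_preconnected_of_eventuallyEq hb WC_conn hz0 hev h

end D8M
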